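import Mathlib

/-!
Arithmetic part: the order `ℤ[ω]`, `ω = (1 + √-7)/2`, and anisotropy of the sum of four squares.
-/

namespace Pool.Agent.Lib.P17cb1b

open Complex

/-- Squares modulo 8: a sum of four integer squares divisible by 8 has even entries. -/
lemma even_of_four_squares (u v w x : ℤ) (h : (u ^ 2 + v ^ 2 + w ^ 2 + x ^ 2) % 8 = 0) :
    u % 2 = 0 ∧ v % 2 = 0 ∧ w % 2 = 0 ∧ x % 2 = 0 := by
  have key : ∀ t : ℤ, (t % 2 = 1 ∧ t ^ 2 % 8 = 1) ∨ (t % 2 = 0 ∧ t ^ 2 % 8 = 0) ∨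
      (t % 2 = 0 ∧ t ^ 2 % 8 = 4) := by
    intro t
    have h8 : t % 8 = 0 ∨ t % 8 = 1 ∨ t % 8 = 2 ∨ t % 8 = 3 ∨ t % 8 = 4 ∨ t % 8 = 5 ∨
        t % 8 = 6 ∨ t % 8 = 7 := by omega
    rcases h8 with h | h | h | h | h | h | h | h <;>
      simp [pow_two, Int.mul_emod, h] <;> omega
  have hu := key u
  have hv := key v
  have hw := key w
  have hx := key x
  generalize u ^ 2 = u2 at *
  generalize v ^ 2 = v2 at *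
  generalize w ^ 2 = w2 at *
  generalize x ^ 2 = x2 at *
  omega

/-- Anisotropy of the sum of four squares over `ℤ[ω]`, in integer coordinates. -/
lemma aniso_int (n : ℕ) : ∀ a₁ b₁ a₂ b₂ a₃ b₃ a₄ b₄ : ℤ,
    (a₁ ^ 2 + a₁ * b₁ + 2 * b₁ ^ 2) + (a₂ ^ 2 + a₂ * b₂ + 2 * b₂ ^ 2) +
      (a₃ ^ 2 + a₃ * b₃ + 2 * b₃ ^ 2) + (a₄ ^ 2 + a₄ * b₄ + 2 * b₄ ^ 2) ≤ n →
    (a₁ ^ 2 - 2 * b₁ ^ 2) + (a₂ ^ 2 - 2 * b₂ ^ 2) + (a₃ ^ 2 - 2 * b₃ ^ 2) +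
      (a₄ ^ 2 - 2 * b₄ ^ 2) = 0 →
    (2 * a₁ * b₁ + b₁ ^ 2) + (2 * a₂ * b₂ + b₂ ^ 2) + (2 * a₃ * b₃ + b₃ ^ 2) +
      (2 * a₄ * b₄ + b₄ ^ 2) = 0 →
    (a₁ = 0 ∧ b₁ = 0) ∧ (a₂ = 0 ∧ b₂ = 0) ∧ (a₃ = 0 ∧ b₃ = 0) ∧ (a₄ = 0 ∧ b₄ = 0) := by
  have nn : ∀ a b : ℤ, 0 ≤ a ^ 2 + a * b + 2 * b ^ 2 := by
    intro a b; nlinarith [sq_nonneg (2 * a + b), sq_nonneg b]
  have nz : ∀ a b : ℤ, a ^ 2 + a * b + 2 * b ^ 2 ≤ 0 → a = 0 ∧ b = 0 := by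
    intro a b h
    have hb : b ^ 2 ≤ 0 := by nlinarith [sq_nonneg (2 * a + b), sq_nonneg b]
    have hb0 : b = 0 := by
      have : b ^ 2 = 0 := le_antisymm hb (sq_nonneg b)
      exact pow_eq_zero_iff (two_ne_zero) |>.mp this
    subst hb0
    have ha : a ^ 2 = 0 := le_antisymm (by nlinarith) (sq_nonneg a)
    exact ⟨pow_eq_zero_iff (two_ne_zero) |>.mp ha, rfl⟩
  induction n using Nat.strong_induction_on with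
  | _ n ih =>
    intro a₁ b₁ a₂ b₂ a₃ b₃ a₄ b₄ hn hA hB
    have h1 := nn a₁ b₁
    have h2 := nn a₂ b₂
    have h3 := nn a₃ b₃
    have h4 := nn a₄ b₄
    rcases Nat.eq_zero_or_pos n with rfl | hpos
    · have hn' : (a₁ ^ 2 + a₁ * b₁ + 2 * b₁ ^ 2) + (a₂ ^ 2 + a₂ * b₂ + 2 * b₂ ^ 2) +
        (a₃ ^ 2 + a₃ * b₃ + 2 * b₃ ^ 2) + (a₄ ^ 2 + a₄ * b₄ + 2 * b₄ ^ 2) ≤ 0 := by
        simpa using hn
      exact ⟨nz _ _ (by linarith), nz _ _ (by linarith), nz _ _ (by linarith),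
        nz _ _ (by linarith)⟩
    · have hsq : ((a₁ + 6 * b₁) ^ 2 + (a₂ + 6 * b₂) ^ 2 + (a₃ + 6 * b₃) ^ 2 +
          (a₄ + 6 * b₄) ^ 2) % 8 = 0 := by
        have : (a₁ + 6 * b₁) ^ 2 + (a₂ + 6 * b₂) ^ 2 + (a₃ + 6 * b₃) ^ 2 +
          (a₄ + 6 * b₄) ^ 2 = 8 * (4 * (b₁ ^ 2 + b₂ ^ 2 + b₃ ^ 2 + b₄ ^ 2)) := by
          nlinarith
        rw [this]
        exact Int.mul_emod_right 8 _
      obtain ⟨e1, e2, e3, e4⟩ := even_of_four_squares _ _ _ _ hsq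
      obtain ⟨c₁, rfl⟩ : ∃ c, a₁ = 2 * c := ⟨a₁ / 2, by omega⟩
      obtain ⟨c₂, rfl⟩ : ∃ c, a₂ = 2 * c := ⟨a₂ / 2, by omega⟩
      obtain ⟨c₃, rfl⟩ : ∃ c, a₃ = 2 * c := ⟨a₃ / 2, by omega⟩
      obtain ⟨c₄, rfl⟩ : ∃ c, a₄ = 2 * c := ⟨a₄ / 2, by omega⟩
      have hhalf : (((c₁ + b₁) ^ 2 + (c₁ + b₁) * (-c₁) + 2 * (-c₁) ^ 2) +
          ((c₂ + b₂) ^ 2 + (c₂ + b₂) * (-c₂) + 2 * (-c₂) ^ 2) +
          ((c₃ + b₃) ^ 2 + (c₃ + b₃) * (-c₃) + 2 * (-c₃) ^ 2) +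
          ((c₄ + b₄) ^ 2 + (c₄ + b₄) * (-c₄) + 2 * (-c₄) ^ 2)) * 2 ≤ n := by
        nlinarith
      have hA' : ((c₁ + b₁) ^ 2 - 2 * (-c₁) ^ 2) + ((c₂ + b₂) ^ 2 - 2 * (-c₂) ^ 2) +
          ((c₃ + b₃) ^ 2 - 2 * (-c₃) ^ 2) + ((c₄ + b₄) ^ 2 - 2 * (-c₄) ^ 2) = 0 := by
        nlinarith
      have hB' : (2 * (c₁ + b₁) * (-c₁) + (-c₁) ^ 2) + (2 * (c₂ + b₂) * (-c₂) + (-c₂) ^ 2) +
          (2 * (c₃ + b₃) * (-c₃) + (-c₃) ^ 2) + (2 * (c₄ + b₄) * (-c₄) + (-c₄) ^ 2) = 0 := by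
        nlinarith
      have := ih (n / 2) (by omega) (c₁ + b₁) (-c₁) (c₂ + b₂) (-c₂) (c₃ + b₃) (-c₃)
        (c₄ + b₄) (-c₄) (by omega) hA' hB'
      omega

/-- `ω = (1 + √-7)/2`. -/
noncomputable def om : ℂ := (1 + Real.sqrt 7 * I) / 2

lemma om_re : om.re = 1 / 2 := by simp [om]
lemma om_im : om.im = Real.sqrt 7 / 2 := by simp [om]

lemma om_sq : om * om = om - 2 := by
  have h7 : (Real.sqrt 7 : ℝ) * Real.sqrt 7 = 7 := Real.mul_self_sqrt (by norm_num)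
  apply Complex.ext
  · simp only [mul_re, om_re, om_im, sub_re]
    norm_num
    linarith
  · simp only [mul_im, om_re, om_im, sub_im]
    norm_num
    ring

lemma sqrt7_pos : 0 < Real.sqrt 7 := Real.sqrt_pos.mpr (by norm_num)

/-- The ring `ℤ[ω]` inside `ℂ`. -/
noncomputable def OK : Subring ℂ where
  carrier := {x | ∃ a b : ℤ, x = a + b * om}
  mul_mem' := by
    rintro x y ⟨a, b, rfl⟩ ⟨c, d, rfl⟩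
    refine ⟨a * c - 2 * (b * d), a * d + b * c + b * d, ?_⟩
    push_cast
    linear_combination (b * d : ℂ) * om_sq
  one_mem' := ⟨1, 0, by simp⟩
  add_mem' := by
    rintro x y ⟨a, b, rfl⟩ ⟨c, d, rfl⟩
    exact ⟨a + c, b + d, by push_cast; ring⟩
  zero_mem' := ⟨0, 0, by simp⟩
  neg_mem' := by
    rintro x ⟨a, b, rfl⟩
    exact ⟨-a, -b, by push_cast; ring⟩

lemma mem_OK {x : ℂ} : x ∈ OK ↔ ∃ a b : ℤ, x = a + b * om := Iff.rfl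

lemma el_re (a b : ℤ) : ((a : ℂ) + b * om).re = a + b / 2 := by
  simp [om_re]; ring

lemma el_im (a b : ℤ) : ((a : ℂ) + b * om).im = b * (Real.sqrt 7 / 2) := by
  simp [om_im]

lemma el_eq_zero {a b : ℤ} (h : (a : ℂ) + b * om = 0) : a = 0 ∧ b = 0 := by
  have him : (b : ℝ) * (Real.sqrt 7 / 2) = 0 := by rw [← el_im a b, h]; simp
  have hre : (a : ℝ) + b / 2 = 0 := by rw [← el_re a b, h]; simp
  have hb : (b : ℝ) = 0 := by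
    rcases mul_eq_zero.mp him with h | h
    · exact h
    · exact absurd h (by have := sqrt7_pos; positivity)
  rw [hb] at hre
  simp at hre hb
  exact ⟨hre, hb⟩

/-- Anisotropy of the sum of four squares over `ℤ[ω]`. -/
lemma aniso {x y z w : ℂ} (hx : x ∈ OK) (hy : y ∈ OK) (hz : z ∈ OK) (hw : w ∈ OK)
    (h : x ^ 2 + y ^ 2 + z ^ 2 + w ^ 2 = 0) : x = 0 ∧ y = 0 ∧ z = 0 ∧ w = 0 := by
  obtain ⟨a₁, b₁, rfl⟩ := hx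
  obtain ⟨a₂, b₂, rfl⟩ := hy
  obtain ⟨a₃, b₃, rfl⟩ := hz
  obtain ⟨a₄, b₄, rfl⟩ := hw
  have key : (((a₁ ^ 2 - 2 * b₁ ^ 2) + (a₂ ^ 2 - 2 * b₂ ^ 2) + (a₃ ^ 2 - 2 * b₃ ^ 2) +
      (a₄ ^ 2 - 2 * b₄ ^ 2) : ℤ) : ℂ) + (((2 * a₁ * b₁ + b₁ ^ 2) + (2 * a₂ * b₂ + b₂ ^ 2) +
      (2 * a₃ * b₃ + b₃ ^ 2) + (2 * a₄ * b₄ + b₄ ^ 2) : ℤ) : ℂ) * om = 0 := by
    rw [← h]
    push_cast
    linear_combination (-(b₁ ^ 2 + b₂ ^ 2 + b₃ ^ 2 + b₄ ^ 2 : ℂ)) * om_sq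
  obtain ⟨hA, hB⟩ := el_eq_zero key
  obtain ⟨h1, h2, h3, h4⟩ := aniso_int ((a₁ ^ 2 + a₁ * b₁ + 2 * b₁ ^ 2) +
      (a₂ ^ 2 + a₂ * b₂ + 2 * b₂ ^ 2) + (a₃ ^ 2 + a₃ * b₃ + 2 * b₃ ^ 2) +
      (a₄ ^ 2 + a₄ * b₄ + 2 * b₄ ^ 2)).toNat a₁ b₁ a₂ b₂ a₃ b₃ a₄ b₄
      (Int.self_le_toNat _) hA hB
  obtain ⟨rfl, rfl⟩ := h1
  obtain ⟨rfl, rfl⟩ := h2
  obtain ⟨rfl, rfl⟩ := h3
  obtain ⟨rfl, rfl⟩ := h4
  simp

/-- Bounded subsets of `ℤ[ω]` are finite. -/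
lemma finite_OK_bounded (R : ℝ) : {x : ℂ | x ∈ OK ∧ ‖x‖ ≤ R}.Finite := by
  obtain ⟨N, hN⟩ := exists_nat_ge (3 * |R|)
  refine ((Set.finite_Icc (-(N : ℤ)) N).prod (Set.finite_Icc (-(N : ℤ)) N) |>.image
    (fun p : ℤ × ℤ => (p.1 : ℂ) + p.2 * om)).subset ?_
  rintro x ⟨⟨a, b, rfl⟩, hx⟩
  refine ⟨(a, b), ?_, rfl⟩
  have him : |(b : ℝ) * (Real.sqrt 7 / 2)| ≤ R := by
    rw [← el_im a b]; exact (abs_im_le_norm _).trans hx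
  have hre : |(a : ℝ) + b / 2| ≤ R := by
    rw [← el_re a b]; exact (abs_re_le_norm _).trans hx
  have hR : R ≤ |R| := le_abs_self R
  have h2 : 2 ≤ Real.sqrt 7 := by
    rw [show (2 : ℝ) = Real.sqrt 4 by
      rw [show (4 : ℝ) = 2 ^ 2 by norm_num, Real.sqrt_sq (by norm_num)]]
    exact Real.sqrt_le_sqrt (by norm_num)
  have hb : |(b : ℝ)| ≤ |R| := by
    rw [abs_mul, abs_of_pos (by positivity : 0 < Real.sqrt 7 / 2)] at him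
    nlinarith [abs_nonneg (b : ℝ)]
  have ha : |(a : ℝ)| ≤ 3 * |R| := by
    have h1 : |(a : ℝ)| ≤ |(a : ℝ) + b / 2| + |(b : ℝ) / 2| := by
      have := abs_sub (a + b / 2 : ℝ) (b / 2 : ℝ)
      simpa using this
    have h3 : |(b : ℝ) / 2| ≤ |R| := by
      rw [abs_div, abs_two]
      linarith [abs_nonneg (b : ℝ)]
    linarith [abs_nonneg R]
  have hb' : |(b : ℝ)| ≤ N := by linarith [abs_nonneg R]
  have ha' : |(a : ℝ)| ≤ N := by linarith [abs_nonneg R]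
  rw [abs_le] at hb' ha'
  simp only [Set.mem_prod, Set.mem_Icc]
  exact ⟨⟨by exact_mod_cast ha'.1, by exact_mod_cast ha'.2⟩,
    ⟨by exact_mod_cast hb'.1, by exact_mod_cast hb'.2⟩⟩

end Pool.Agent.Lib.P17cb1b
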