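import Mathlib

/-!
# Level sets of submersions
-/

open Filter Topology
open scoped ContDiff

namespace Pool.Agent.Lib.P17cb1b

variable {E : Type*} [NormedAddCommGroup E] [NormedSpace ℝ E]

/-- Every vector in the kernel of the derivative of a submersion is the velocity of a smooth curve
in the level set. -/
lemma exists_curve {F : E → ℂ} {V : Set E} (hV : IsOpen V) (hF : ContDiffOn ℝ ∞ F V) {z : E}
    (hz : z ∈ V) (hsurj : Function.Surjective (fderiv ℝ F z)) {v : E}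
    (hv : fderiv ℝ F z v = 0) :
    ∃ γ : ℝ → E, ContDiff ℝ ∞ γ ∧ γ 0 = z ∧ deriv γ 0 = v ∧ ∀ᶠ t in 𝓝 (0 : ℝ), F (γ t) = F z := by
  have hF' : ∀ x ∈ V, ContDiffAt ℝ ∞ F x := fun x hx => hF.contDiffAt (hV.mem_nhds hx)
  obtain ⟨N₀, hN₀⟩ := LinearMap.exists_rightInverse_of_surjective
    (fderiv ℝ F z : E →ₗ[ℝ] ℂ) (LinearMap.range_eq_top.mpr hsurj)
  let N : ℂ →L[ℝ] E := LinearMap.toContinuousLinearMap N₀
  have hN : ∀ c, fderiv ℝ F z (N c) = c := fun c => LinearMap.congr_fun hN₀ c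
  let ι : ℝ × ℂ → E := fun p => z + p.1 • v + N p.2
  have hι : ContDiff ℝ ∞ ι := by
    simp only [ι]
    fun_prop
  let L : ℝ × ℂ →L[ℝ] E := (ContinuousLinearMap.fst ℝ ℝ ℂ).smulRight v +
    N.comp (ContinuousLinearMap.snd ℝ ℝ ℂ)
  have hιd : ∀ p, HasFDerivAt ι L p := by
    intro p
    have h1 : HasFDerivAt (fun p : ℝ × ℂ => z + L p) L p := L.hasFDerivAt.const_add z
    refine h1.congr_of_eventuallyEq (Filter.Eventually.of_forall fun q => ?_)
    simp only [ι, L]
    simp [add_assoc]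
  have hι0 : ι 0 = z := by simp [ι]
  let f : ℝ × ℂ → ℂ := fun p => F (ι p)
  have hO : IsOpen (ι ⁻¹' V) := hV.preimage hι.continuous
  have h0O : (0 : ℝ × ℂ) ∈ ι ⁻¹' V := by rw [Set.mem_preimage, hι0]; exact hz
  have hf : ∀ p ∈ ι ⁻¹' V, ContDiffAt ℝ ∞ f p := fun p hp =>
    (hF' _ hp).comp p hι.contDiffAt
  have hfd : ∀ p ∈ ι ⁻¹' V, fderiv ℝ f p = (fderiv ℝ F (ι p)).comp L := by
    intro p hp
    exact (((hF' _ hp).differentiableAt (by simp)).hasFDerivAt.comp p (hιd p)).fderiv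
  have hinr : ∀ p ∈ ι ⁻¹' V, fderiv ℝ f p ∘L .inr ℝ ℝ ℂ = (fderiv ℝ F (ι p)).comp N := by
    intro p hp
    rw [hfd p hp]
    ext c
    simp [L]
  have hinl : fderiv ℝ f 0 ∘L .inl ℝ ℝ ℂ = 0 := by
    rw [hfd 0 h0O, hι0]
    ext
    simp [L, hv]
  -- invertibility near the origin
  have hcont : ContinuousAt (fun p : ℝ × ℂ => (fderiv ℝ F (ι p)).comp N) 0 := by
    have h1 : ContinuousAt (fderiv ℝ F) (ι 0) := by
      rw [hι0]
      exact ((hF' z hz).fderiv_right (m := 0) (by simp)).continuousAt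
    have h2 : ContinuousAt (fun p => fderiv ℝ F (ι p)) 0 :=
      ContinuousAt.comp (f := ι) (g := fderiv ℝ F) h1 hι.continuous.continuousAt
    exact h2.clm_comp continuousAt_const
  have hinv : ∀ᶠ p in 𝓝 (0 : ℝ × ℂ), (fderiv ℝ f p ∘L .inr ℝ ℝ ℂ).IsInvertible := by
    have h1 : ((fderiv ℝ F (ι 0)).comp N : ℂ →L[ℝ] ℂ) =
        (ContinuousLinearEquiv.refl ℝ ℂ : ℂ →L[ℝ] ℂ) := by
      rw [hι0]
      ext c
      · simp [hN]
    have h2 := ContinuousLinearEquiv.nhds (ContinuousLinearEquiv.refl ℝ ℂ)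
    rw [← h1] at h2
    filter_upwards [hcont.eventually h2, hO.mem_nhds h0O] with p hp hpO
    rw [hinr p hpO]
    exact hp
  have hinv0 := hinv.self_of_nhds
  have hinf : (∞ : ℕ∞ω) ≠ 0 := by simp
  set ψ := (hf 0 h0O).implicitFunction hinf hinv0 with hψ
  have H1 : ∀ᶠ t in 𝓝 (0 : ℝ), f (t, ψ t) = f 0 :=
    (hf 0 h0O).eventually_apply_implicitFunction hinf hinv0
  have H2 : ψ 0 = 0 := (hf 0 h0O).implicitFunction_apply_self hinf hinv0
  have H3 : HasFDerivAt ψ (0 : ℝ →L[ℝ] ℂ) 0 := by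
    have h1 := ((hf 0 h0O).hasStrictFDerivAt_implicitFunction hinf hinv0).hasFDerivAt
    rw [hinl, ContinuousLinearMap.comp_zero] at h1
    simpa using h1
  have H4 : ∀ᶠ t in 𝓝 (0 : ℝ), ContinuousAt ψ t := by
    have h1 := (hf 0 h0O).contDiffAt_implicitFunction hinf hinv0
    have h2 : ContDiffAt ℝ 1 ψ 0 := h1.of_le (by exact_mod_cast le_top)
    filter_upwards [h2.eventually (by simp)] with t ht
    exact ht.continuousAt
  have H5 : ∀ᶠ t in 𝓝 (0 : ℝ), (t, ψ t) ∈ ι ⁻¹' V ∧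
      (fderiv ℝ f (t, ψ t) ∘L .inr ℝ ℝ ℂ).IsInvertible := by
    have h1 : Tendsto (fun t : ℝ => (t, ψ t)) (𝓝 0) (𝓝 (0, ψ 0)) :=
      tendsto_id.prodMk_nhds H3.continuousAt
    rw [H2] at h1
    have h2 : ∀ᶠ p in 𝓝 (0 : ℝ × ℂ), p ∈ ι ⁻¹' V := hO.mem_nhds h0O
    exact h1.eventually (h2.and hinv)
  have H6 : ∀ᶠ t in 𝓝 (0 : ℝ), ContDiffAt ℝ ∞ ψ t := by
    filter_upwards [H1, H1.eventually_nhds, H4, H5] with t₀ h1 h1' h4 h5
    have hu := (hf _ h5.1).eventually_apply_eq_iff_implicitFunction hinf h5.2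
    have hc : Tendsto (fun t : ℝ => (t, ψ t)) (𝓝 t₀) (𝓝 (t₀, ψ t₀)) :=
      tendsto_id.prodMk_nhds h4
    refine ((hf _ h5.1).contDiffAt_implicitFunction hinf h5.2).congr_of_eventuallyEq ?_
    filter_upwards [hc.eventually hu, h1'] with t ht ht'
    exact (ht.mp (ht'.trans h1.symm)).symm
  obtain ⟨δ, hδ, hδs⟩ := Metric.eventually_nhds_iff.mp H6
  let χ : ContDiffBump (0 : ℝ) := ⟨δ / 3, δ / 2, by positivity, by linarith⟩
  have hχψ : ContDiff ℝ ∞ (fun t => χ t • ψ t) := by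
    rw [contDiff_iff_contDiffAt]
    intro t
    by_cases ht : dist t 0 < δ
    · exact χ.contDiff.contDiffAt.smul (hδs ht)
    · have h1 : t ∉ tsupport χ := by
        rw [χ.tsupport_eq, Metric.mem_closedBall]
        change ¬ dist t 0 ≤ δ / 2
        push Not at ht ⊢
        linarith
      have h2 := notMem_tsupport_iff_eventuallyEq.mp h1
      refine contDiffAt_const (c := (0 : ℂ)) |>.congr_of_eventuallyEq ?_
      filter_upwards [h2] with s hs
      rw [hs]
      simp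
  have hχ1 : ∀ᶠ t in 𝓝 (0 : ℝ), χ t = 1 := χ.eventuallyEq_one
  refine ⟨fun t => z + t • v + N (χ t • ψ t), ?_, ?_, ?_, ?_⟩
  · exact (contDiff_const.add (contDiff_id.smul contDiff_const)).add (N.contDiff.comp hχψ)
  · simp [H2]
  · have h1 : HasDerivAt (fun t : ℝ => z + t • v + N (ψ t)) v 0 := by
      have h2 : HasDerivAt ψ 0 0 := by
        have := H3.hasDerivAt
        simpa using this
      have h3 : HasDerivAt (fun t : ℝ => N (ψ t)) (N 0) 0 := N.hasFDerivAt.comp_hasDerivAt 0 h2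
      have h4 : HasDerivAt (fun t : ℝ => z + t • v) ((1 : ℝ) • v) 0 :=
        ((hasDerivAt_id (0 : ℝ)).smul_const v).const_add z
      have h5 : HasDerivAt (fun t : ℝ => z + t • v + N (ψ t)) ((1 : ℝ) • v + N 0) 0 := h4.add h3
      simpa using h5
    refine (h1.congr_of_eventuallyEq ?_).deriv
    filter_upwards [hχ1] with t ht
    rw [ht, one_smul]
  · filter_upwards [hχ1, H1] with t ht ht'
    rw [ht, one_smul]
    change f (t, ψ t) = F z
    rw [ht']
    change F (ι 0) = F z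
    rw [hι0]

variable [FiniteDimensional ℝ E]

/-- If the zero set of one submersion to `ℂ` is locally contained in the zero set of another one,
then the two zero sets agree locally. -/
lemma zero_set_eq {F G : E → ℂ} {V : Set E} (hV : IsOpen V) (hF : ContDiffOn ℝ ∞ F V)
    (hG : ContDiffOn ℝ ∞ G V) {z : E} (hz : z ∈ V) (hFs : Function.Surjective (fderiv ℝ F z))
    (hGs : Function.Surjective (fderiv ℝ G z)) (hFz : F z = 0)
    (hFG : ∀ᶠ x in 𝓝 z, F x = 0 → G x = 0) : ∀ᶠ x in 𝓝 z, G x = 0 → F x = 0 := by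
  have hF' : ContDiffAt ℝ ∞ F z := hF.contDiffAt (hV.mem_nhds hz)
  have hG' : ContDiffAt ℝ ∞ G z := hG.contDiffAt (hV.mem_nhds hz)
  have hGz : G z = 0 := hFG.self_of_nhds hFz
  have : CompleteSpace E := FiniteDimensional.complete ℝ E
  -- the kernels agree
  set K := LinearMap.ker (fderiv ℝ F z : E →ₗ[ℝ] ℂ) with hK
  have hle : K ≤ LinearMap.ker (fderiv ℝ G z : E →ₗ[ℝ] ℂ) := by
    intro v hv
    obtain ⟨γ, hγ, hγ0, hγd, hγF⟩ := exists_curve hV hF hz hFs (v := v) hv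
    have h1 : HasDerivAt γ v 0 := by
      rw [← hγd]
      exact ((hγ.differentiable (by simp)) 0).hasDerivAt
    have h2 : HasDerivAt (fun t => G (γ t)) (fderiv ℝ G z v) 0 := by
      have h3 : HasFDerivAt G (fderiv ℝ G z) (γ 0) := by
        rw [hγ0]
        exact (hG'.differentiableAt (by simp)).hasFDerivAt
      exact h3.comp_hasDerivAt 0 h1
    have h4 : (fun t => G (γ t)) =ᶠ[𝓝 0] fun _ => (0 : ℂ) := by
      have h5 : Tendsto γ (𝓝 0) (𝓝 z) := by
        rw [← hγ0]; exact hγ.continuous.continuousAt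
      filter_upwards [h5.eventually hFG, hγF] with t ht ht'
      exact ht (by rw [ht', hFz])
    have h6 : HasDerivAt (fun t => G (γ t)) 0 0 :=
      (hasDerivAt_const (0 : ℝ) (0 : ℂ)).congr_of_eventuallyEq h4
    exact h2.unique h6
  have hKeq : K = LinearMap.ker (fderiv ℝ G z : E →ₗ[ℝ] ℂ) := by
    refine Submodule.eq_of_le_of_finrank_eq hle ?_
    have h1 := LinearMap.finrank_range_add_finrank_ker (fderiv ℝ F z : E →ₗ[ℝ] ℂ)
    have h2 := LinearMap.finrank_range_add_finrank_ker (fderiv ℝ G z : E →ₗ[ℝ] ℂ)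
    rw [LinearMap.range_eq_top.mpr hFs] at h1
    rw [LinearMap.range_eq_top.mpr hGs] at h2
    rw [hK]
    omega
  -- a projection onto the kernel
  obtain ⟨P₀, hP₀⟩ := LinearMap.exists_leftInverse_of_injective K.subtype (by simp)
  let P : E →L[ℝ] K := LinearMap.toContinuousLinearMap P₀
  have hP : ∀ k : K, P k = k := fun k => LinearMap.congr_fun hP₀ k
  have hequiv : ∀ T : E →L[ℝ] ℂ, Function.Surjective T → K = LinearMap.ker (T : E →ₗ[ℝ] ℂ) →
      ∃ e : E ≃L[ℝ] (ℂ × K), (e : E →L[ℝ] (ℂ × K)) = T.prod P := by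
    intro T hT hKT
    have hinj : LinearMap.ker (T.prod P : E →ₗ[ℝ] (ℂ × K)) = ⊥ := by
      rw [LinearMap.ker_eq_bot']
      intro x hx
      have hx1 : T x = 0 := congrArg Prod.fst hx
      have hx2 : P x = 0 := congrArg Prod.snd hx
      have hxK : x ∈ K := by rw [hKT]; exact hx1
      have := hP ⟨x, hxK⟩
      change P x = _ at this
      rw [hx2] at this
      exact (congrArg Subtype.val this).symm
    have hsurj : LinearMap.range (T.prod P : E →ₗ[ℝ] (ℂ × K)) = ⊤ := by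
      rw [LinearMap.range_eq_top]
      rintro ⟨c, k⟩
      obtain ⟨x, hx⟩ := hT c
      refine ⟨x + (k : E) - (P x : E), ?_⟩
      have hker : ∀ k : K, T (k : E) = 0 := fun k => by
        have h0 : ∀ y ∈ K, T y = 0 := fun y hy => by
          rw [hKT] at hy
          exact hy
        exact h0 _ k.2
      refine Prod.ext ?_ ?_
      · change T (x + (k : E) - (P x : E)) = c
        rw [map_sub, map_add, hker, hker, hx]
        simp
      · change P (x + (k : E) - (P x : E)) = k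
        rw [map_sub, map_add, hP, hP]
        abel
    exact ⟨ContinuousLinearEquiv.ofBijective (T.prod P) hinj hsurj,
      ContinuousLinearEquiv.coe_ofBijective _ hinj hsurj⟩
  obtain ⟨eF, heF⟩ := hequiv _ hFs hK
  obtain ⟨eG, heG⟩ := hequiv _ hGs hKeq
  have hΦF : HasStrictFDerivAt (fun x => (F x, P x)) (eF : E →L[ℝ] (ℂ × K)) z := by
    rw [heF]
    exact (hF'.hasStrictFDerivAt (by simp)).prodMk P.hasStrictFDerivAt
  have hΦG : HasStrictFDerivAt (fun x => (G x, P x)) (eG : E →L[ℝ] (ℂ × K)) z := by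
    rw [heG]
    exact (hG'.hasStrictFDerivAt (by simp)).prodMk P.hasStrictFDerivAt
  set Ψ := hΦF.localInverse _ _ _ with hΨ
  have hlim : Tendsto (fun x => ((0 : ℂ), P x)) (𝓝 z) (𝓝 (F z, P z)) := by
    rw [hFz]
    exact tendsto_const_nhds.prodMk_nhds P.continuous.continuousAt
  have hy : Tendsto (fun x => Ψ ((0 : ℂ), P x)) (𝓝 z) (𝓝 z) :=
    hΦF.localInverse_tendsto.comp hlim
  have h1 := hlim.eventually hΦF.eventually_right_inverse
  have h2 := hy.eventually hFG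
  have h3 := hΦG.eventually_left_inverse
  have h4 := hy.eventually h3
  filter_upwards [h1, h2, h3, h4] with x hx1 hx2 hx3 hx4 hGx
  have hFy : F (Ψ (0, P x)) = 0 := congrArg Prod.fst hx1
  have hPy : P (Ψ (0, P x)) = P x := congrArg Prod.snd hx1
  have hGy := hx2 hFy
  have hxy : Ψ (0, P x) = x := by
    rw [hGy, hPy] at hx4
    rw [hGx] at hx3
    exact hx4.symm.trans hx3
  rw [← hxy]
  exact hFy

end Pool.Agent.Lib.P17cb1b
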