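import Pool.Agent.Lib.P17cb1b.Lattice

/-!
Cocompactness of the congruence subgroup.
-/

namespace Pool.Agent.Lib.P17cb1b

open Complex Matrix MeasureTheory

/-- Minkowski: for every `B` with `|det B| = 1` there is a nonzero integral quaternion `q` with
`B * Q q` bounded. -/
lemma exists_small : ∃ R : ℝ, 0 < R ∧ ∀ B : Matrix (Fin 2) (Fin 2) ℂ, ‖B.det‖ = 1 →
    ∃ q : Fin 4 → ℂ, q ≠ 0 ∧ Int4 q ∧ ∀ i j, ‖(B * Q q) i j‖ ≤ R := by
  set μ : Measure (Fin 4 → ℂ) := volume with hμ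
  set F := ZSpan.fundamentalDomain b4 with hF
  have hF_top : μ F * 2 ^ Module.finrank ℝ (Fin 4 → ℂ) ≠ ⊤ := by
    have h1 : μ F ≠ ⊤ := (ZSpan.fundamentalDomain_isBounded b4).measure_lt_top.ne
    exact ENNReal.mul_ne_top h1 (by finiteness)
  set c : ENNReal := ENNReal.ofReal (1 / 16) * μ (Metric.ball 0 1) with hc
  have hc0 : c ≠ 0 := by
    refine mul_ne_zero ?_ ?_
    · simp
    · exact (Metric.measure_ball_pos μ 0 one_pos).ne'
  obtain ⟨n, hn⟩ := ENNReal.exists_nat_mul_gt hc0 hF_top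
  refine ⟨n + 1, by positivity, fun B hB => ?_⟩
  set R : ℝ := n + 1 with hR
  have hRpos : 0 < R := by positivity
  -- the linear map
  set T : (Fin 4 → ℂ) →ₗ[ℝ] (Fin 4 → ℂ) := (Matrix.toLin' (NB B)).restrictScalars ℝ with hT
  have hdet : LinearMap.det T = 16 := by
    rw [hT, LinearMap.det_restrictScalars, Algebra.norm_complex_apply, LinearMap.det_toLin',
      det_NB, Complex.normSq_eq_norm_sq, norm_mul, norm_pow, hB]
    norm_num
  have hdet0 : LinearMap.det T ≠ 0 := by rw [hdet]; norm_num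
  have hvol : μ F * 2 ^ Module.finrank ℝ (Fin 4 → ℂ) < μ (T ⁻¹' (Metric.ball 0 R)) := by
    rw [Measure.addHaar_preimage_linearMap μ hdet0, hdet, Measure.addHaar_ball_of_pos μ 0 hRpos]
    refine hn.trans_le ?_
    rw [hc]
    have h1 : |((16 : ℝ))⁻¹| = 1 / 16 := by norm_num
    rw [h1, ← mul_assoc, ← mul_assoc, mul_comm (n : ENNReal)]
    gcongr
    have h8 : (n : ℝ) ≤ R ^ Module.finrank ℝ (Fin 4 → ℂ) := by
      have h1 : (1 : ℝ) ≤ R := by rw [hR]; simp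
      have h2 : Module.finrank ℝ (Fin 4 → ℂ) ≠ 0 := Module.finrank_pos.ne'
      calc (n : ℝ) ≤ R := by rw [hR]; linarith
        _ ≤ R ^ Module.finrank ℝ (Fin 4 → ℂ) := le_self_pow₀ h1 h2
    calc (n : ENNReal) = ENNReal.ofReal (n : ℝ) := by simp
      _ ≤ _ := ENNReal.ofReal_le_ofReal h8
  have hsymm : ∀ x ∈ T ⁻¹' (Metric.ball 0 R), -x ∈ T ⁻¹' (Metric.ball 0 R) := by
    intro x hx
    simp only [Set.mem_preimage, map_neg, mem_ball_zero_iff, norm_neg] at hx ⊢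
    exact hx
  have hconv : Convex ℝ (T ⁻¹' (Metric.ball 0 R)) := (convex_ball 0 R).linear_preimage T
  have hcount : Countable (Submodule.span ℤ (Set.range b4)).toAddSubgroup :=
    inferInstanceAs (Countable (Submodule.span ℤ (Set.range b4)))
  obtain ⟨⟨x, hxL⟩, hx0, hxs⟩ := exists_ne_zero_mem_lattice_of_measure_mul_two_pow_lt_measure
    (ZSpan.isAddFundamentalDomain' b4 μ) hsymm hconv hvol
  refine ⟨x, ?_, int4_of_mem_span hxL, ?_⟩
  · rintro rfl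
    exact hx0 rfl
  · simp only [Set.mem_preimage, mem_ball_zero_iff, hT, LinearMap.coe_restrictScalars,
      Matrix.toLin'_apply, NB_mulVec] at hxs
    rw [pi_norm_lt_iff hRpos] at hxs
    intro i j
    fin_cases i <;> fin_cases j
    · exact (hxs 0).le
    · exact (hxs 1).le
    · exact (hxs 2).le
    · exact (hxs 3).le

/-- `ω`-conjugate and norm of an element of `ℤ[ω]`. -/
lemma exists_conj {m : ℂ} (hm : m ∈ OK) (h0 : m ≠ 0) : ∃ (n : ℕ) (m' : ℂ), n ≠ 0 ∧ m' ∈ OK ∧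
    m * m' = n := by
  obtain ⟨a, b, rfl⟩ := hm
  have hnn : 0 ≤ a ^ 2 + a * b + 2 * b ^ 2 := by nlinarith [sq_nonneg (2 * a + b), sq_nonneg b]
  have heq : ((a : ℂ) + b * om) * (((a + b : ℤ) : ℂ) + ((-b : ℤ) : ℂ) * om) =
      ((a ^ 2 + a * b + 2 * b ^ 2).toNat : ℕ) := by
    have : (((a ^ 2 + a * b + 2 * b ^ 2).toNat : ℕ) : ℂ) = ((a ^ 2 + a * b + 2 * b ^ 2 : ℤ) : ℂ) := by
      rw [← Int.cast_natCast, Int.toNat_of_nonneg hnn]
    rw [this]
    push_cast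
    linear_combination (-(b : ℂ) ^ 2) * om_sq
  refine ⟨(a ^ 2 + a * b + 2 * b ^ 2).toNat, ((a + b : ℤ) : ℂ) + ((-b : ℤ) : ℂ) * om, ?_,
    ⟨a + b, -b, rfl⟩, heq⟩
  intro hz
  rw [hz, Nat.cast_zero] at heq
  rcases mul_eq_zero.mp heq with h | h
  · exact h0 h
  · obtain ⟨h1, h2⟩ := el_eq_zero h
    apply h0
    have hb : b = 0 := by omega
    have ha : a = 0 := by omega
    simp [ha, hb]

/-- Finitely many classes of integral quaternions of given norm modulo `Gam`. -/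
lemma exists_rep {m : ℂ} (hm : m ∈ OK) (h0 : m ≠ 0) : ∃ C : ℝ, ∀ q : Fin 4 → ℂ, Int4 q →
    (Q q).det = m → ∃ q₀ : Fin 4 → ℂ, Int4 q₀ ∧ (Q q₀).det = m ∧ ‖q₀‖ ≤ C ∧
      ∃ γ ∈ Gam, Q q = (γ : Matrix (Fin 2) (Fin 2) ℂ) * Q q₀ := by
  classical
  obtain ⟨n, m', hn, hm', hmm⟩ := exists_conj hm h0
  have : NeZero (3 * n) := ⟨by omega⟩
  -- integer coordinates
  have hcoord : ∀ q : Fin 4 → ℂ, Int4 q → ∃ ab : Fin 4 → ℤ × ℤ, ∀ i,
      q i = (ab i).1 + (ab i).2 * om := by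
    intro q hq
    choose a b hab using fun i => (mem_OK.mp (hq i))
    exact ⟨fun i => (a i, b i), hab⟩
  let cls : (Fin 4 → ℤ × ℤ) → (Fin 4 → ZMod (3 * n) × ZMod (3 * n)) :=
    fun ab i => (((ab i).1 : ZMod (3 * n)), ((ab i).2 : ZMod (3 * n)))
  let P : (Fin 4 → ZMod (3 * n) × ZMod (3 * n)) → (Fin 4 → ℂ) → Prop := fun t q =>
    (Q q).det = m ∧ ∃ ab : Fin 4 → ℤ × ℤ, (∀ i, q i = (ab i).1 + (ab i).2 * om) ∧ cls ab = t
  let rep : (Fin 4 → ZMod (3 * n) × ZMod (3 * n)) → (Fin 4 → ℂ) := fun t =>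
    if h : ∃ q, P t q then h.choose else 0
  refine ⟨∑ t, ‖rep t‖, fun q hq hqm => ?_⟩
  obtain ⟨ab, hab⟩ := hcoord q hq
  have hex : ∃ q', P (cls ab) q' := ⟨q, hqm, ab, hab, rfl⟩
  have hrep : P (cls ab) (rep (cls ab)) := by
    simp only [rep, dif_pos hex]
    exact hex.choose_spec
  obtain ⟨hdet0, ab0, hab0, hcls⟩ := hrep
  set q₀ := rep (cls ab) with hq₀
  have hq₀int : Int4 q₀ := fun i => ⟨_, _, hab0 i⟩
  refine ⟨q₀, hq₀int, hdet0, ?_, ?_⟩
  · exact Finset.single_le_sum (f := fun t => ‖rep t‖) (fun t _ => norm_nonneg _)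
      (Finset.mem_univ (cls ab))
  · -- difference divisible by 3n
    have hdiff : ∃ t : Fin 4 → ℂ, Int4 t ∧ q = q₀ + (3 * n : ℂ) • t := by
      have h1 : ∀ i, ∃ t ∈ OK, q i = q₀ i + (3 * n : ℂ) * t := by
        intro i
        have hci := congrFun hcls i
        simp only [cls, Prod.mk.injEq] at hci
        obtain ⟨c1, c2⟩ := hci
        obtain ⟨d1, hd1⟩ := (ZMod.intCast_eq_intCast_iff_dvd_sub _ _ _).mp c1
        obtain ⟨d2, hd2⟩ := (ZMod.intCast_eq_intCast_iff_dvd_sub _ _ _).mp c2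
        refine ⟨d1 + d2 * om, ⟨d1, d2, rfl⟩, ?_⟩
        have e1 : (((ab i).1 : ℤ) : ℂ) = (ab0 i).1 + (3 * n : ℂ) * d1 := by
          have : (ab i).1 = (ab0 i).1 + (3 * n : ℕ) * d1 := by linarith
          rw [this]; push_cast; ring
        have e2 : (((ab i).2 : ℤ) : ℂ) = (ab0 i).2 + (3 * n : ℂ) * d2 := by
          have : (ab i).2 = (ab0 i).2 + (3 * n : ℕ) * d2 := by linarith
          rw [this]; push_cast; ring
        rw [hab i, hab0 i, e1, e2]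
        ring
      choose t ht1 ht2 using h1
      exact ⟨t, ht1, funext ht2⟩
    obtain ⟨t, ht, hqt⟩ := hdiff
    -- the unit
    set u : Fin 4 → ℂ := m' • qmul t (qconj q₀) with hu
    have huint : Int4 u := Int4.smul hm' (ht.qmul hq₀int.qconj)
    have hγ : Q (qone + 3 • u) * Q q₀ = Q q := by
      rw [Q_mul]
      congr 1
      have hn' : (n : ℂ) = m * m' := hmm.symm
      have hd : (q₀ 0 ^ 2 + q₀ 1 ^ 2 + q₀ 2 ^ 2 + q₀ 3 ^ 2) = m := by rw [← hdet0, det_Q]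
      rw [hqt, hn', hu, ← hd]
      ext i
      fin_cases i <;> simp [qmul, qone, qconj] <;> ring
    have hγdet : (Q (qone + 3 • u)).det = 1 := by
      have h2 : (Q (qone + 3 • u)).det * (Q q₀).det = (Q q).det := by
        rw [← Matrix.det_mul, hγ]
      rw [hdet0, hqm] at h2
      have := mul_right_cancel₀ h0 (h2.trans (one_mul m).symm)
      exact this
    exact ⟨⟨Q (qone + 3 • u), hγdet⟩, ⟨u, huint, rfl⟩, hγ.symm⟩

/-- Entries of `Q q` are bounded by `2 ‖q‖`. -/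
lemma norm_Q_le (q : Fin 4 → ℂ) (i j : Fin 2) : ‖Q q i j‖ ≤ 2 * ‖q‖ := by
  have h : ∀ k, ‖q k‖ ≤ ‖q‖ := fun k => norm_le_pi_norm q k
  have h0 := h 0
  have h1 := h 1
  have h2 := h 2
  have h3 := h 3
  have hI : ∀ z : ℂ, ‖I * z‖ = ‖z‖ := by intro z; simp
  fin_cases i <;> fin_cases j
  · change ‖q 0 + I * q 1‖ ≤ _
    refine (norm_add_le _ _).trans ?_
    rw [hI]; linarith
  · change ‖q 2 + I * q 3‖ ≤ _
    refine (norm_add_le _ _).trans ?_
    rw [hI]; linarith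
  · change ‖-q 2 + I * q 3‖ ≤ _
    refine (norm_add_le _ _).trans ?_
    rw [hI, norm_neg]; linarith
  · change ‖q 0 - I * q 1‖ ≤ _
    refine (norm_sub_le _ _).trans ?_
    rw [hI]; linarith

lemma norm_qconj_le (q : Fin 4 → ℂ) : ‖qconj q‖ ≤ ‖q‖ := by
  rw [pi_norm_le_iff_of_nonneg (norm_nonneg _)]
  intro i
  fin_cases i
  · exact norm_le_pi_norm q 0
  · simpa [qconj] using norm_le_pi_norm q 1
  · simpa [qconj] using norm_le_pi_norm q 2
  · simpa [qconj] using norm_le_pi_norm q 3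

/-- **Cocompactness.** There is a constant `C` such that every matrix `B` with `|det B| = 1` can be
moved by `Gam` (acting on the right) into the ball of radius `C`. -/
theorem cocompact_matrix : ∃ C : ℝ, ∀ B : Matrix (Fin 2) (Fin 2) ℂ, ‖B.det‖ = 1 →
    ∃ γ ∈ Gam, ∀ i j, ‖(B * (γ : Matrix (Fin 2) (Fin 2) ℂ)) i j‖ ≤ C := by
  classical
  obtain ⟨R, hR, hsmall⟩ := exists_small
  have hfin := finite_OK_bounded (2 * R ^ 2)
  -- constants
  choose! C hC using fun (m : ℂ) (h : m ∈ OK ∧ m ≠ 0) => exists_rep h.1 h.2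
  let D : ℂ → ℝ := fun m => |2 * R * (2 * C m) / ‖m‖|
  refine ⟨∑ m ∈ hfin.toFinset, D m, fun B hB => ?_⟩
  obtain ⟨q, hq0, hq, hqB⟩ := hsmall B hB
  set m := (Q q).det with hm
  have hm0 : m ≠ 0 := hq.det_ne_zero hq0
  have hmOK : m ∈ OK := hq.det_mem
  have hmR : ‖m‖ ≤ 2 * R ^ 2 := by
    have h1 : ‖(B * Q q).det‖ = ‖m‖ := by rw [Matrix.det_mul, norm_mul, hB, one_mul]
    rw [← h1, Matrix.det_fin_two]
    calc ‖(B * Q q) 0 0 * (B * Q q) 1 1 - (B * Q q) 0 1 * (B * Q q) 1 0‖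
        ≤ ‖(B * Q q) 0 0‖ * ‖(B * Q q) 1 1‖ + ‖(B * Q q) 0 1‖ * ‖(B * Q q) 1 0‖ := by
          refine (norm_sub_le _ _).trans ?_
          rw [norm_mul, norm_mul]
      _ ≤ R * R + R * R := by
          gcongr <;> exact hqB _ _
      _ = 2 * R ^ 2 := by ring
  obtain ⟨q₀, hq₀, hdet, hnorm, γ, hγ, heq⟩ := hC m ⟨hmOK, hm0⟩ q hq rfl
  refine ⟨γ, hγ, fun i j => ?_⟩
  -- B γ = (B Q q) Q(conj q₀) / m
  have hmat : m • (B * (γ : Matrix (Fin 2) (Fin 2) ℂ)) = (B * Q q) * Q (qconj q₀) := by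
    rw [heq, ← Matrix.mul_assoc, Matrix.mul_assoc _ (Q q₀), Q_mul, qmul_conj, hdet]
    have : Q (m • qone) = m • (1 : Matrix (Fin 2) (Fin 2) ℂ) := by
      ext a b
      fin_cases a <;> fin_cases b <;> simp [Q, qone]
    rw [this]
    simp
  have hentry : ‖m‖ * ‖(B * (γ : Matrix (Fin 2) (Fin 2) ℂ)) i j‖ ≤ 2 * R * (2 * C m) := by
    have h1 : ‖m‖ * ‖(B * (γ : Matrix (Fin 2) (Fin 2) ℂ)) i j‖ =
        ‖((B * Q q) * Q (qconj q₀)) i j‖ := by
      rw [← hmat, ← norm_mul]; rfl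
    rw [h1, Matrix.mul_apply, Fin.sum_univ_two]
    have hc : ∀ a b, ‖Q (qconj q₀) a b‖ ≤ 2 * C m := fun a b =>
      (norm_Q_le _ a b).trans (by linarith [norm_qconj_le q₀])
    calc ‖(B * Q q) i 0 * Q (qconj q₀) 0 j + (B * Q q) i 1 * Q (qconj q₀) 1 j‖
        ≤ ‖(B * Q q) i 0‖ * ‖Q (qconj q₀) 0 j‖ + ‖(B * Q q) i 1‖ * ‖Q (qconj q₀) 1 j‖ := by
          refine (norm_add_le _ _).trans ?_
          rw [norm_mul, norm_mul]
      _ ≤ R * (2 * C m) + R * (2 * C m) := by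
          gcongr
          · exact hqB _ _
          · exact hc _ _
          · exact hqB _ _
          · exact hc _ _
      _ = 2 * R * (2 * C m) := by ring
  have hmpos : 0 < ‖m‖ := norm_pos_iff.mpr hm0
  calc ‖(B * (γ : Matrix (Fin 2) (Fin 2) ℂ)) i j‖ ≤ 2 * R * (2 * C m) / ‖m‖ := by
        rw [le_div_iff₀ hmpos, mul_comm]; exact hentry
    _ ≤ D m := le_abs_self _
    _ ≤ ∑ m ∈ hfin.toFinset, D m := by
        refine Finset.single_le_sum (f := D) (fun t _ => abs_nonneg _) ?_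
        rw [Set.Finite.mem_toFinset]
        exact ⟨hmOK, hmR⟩

end Pool.Agent.Lib.P17cb1b
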