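import Mathlib

/-!
# Group actions on cones and projective lines in the limit set

An abstract version of the argument which produces germs of projective lines in the complement of a
domain that covers a compact manifold.  `V` is a finite-dimensional complex vector space, `Ω` the
open cone over the domain and `ρ : G → End V` the linear representation of the covering group.
-/

open Filter Topology

namespace Pool.Agent.Lib.P17cb1b

/-- The data of a cocompact action on an open cone. -/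
structure Cone (G : Type*) [Group G] (V : Type*) [NormedAddCommGroup V] [NormedSpace ℂ V] where
  /-- the representation -/
  ρ : G →* (V →L[ℂ] V)
  /-- the cone -/
  Ω : Set V
  isOpen : IsOpen Ω
  zero : (0 : V) ∉ Ω
  smul_mem : ∀ c : ℂ, c ≠ 0 → ∀ v ∈ Ω, c • v ∈ Ω
  maps : ∀ g, ∀ v ∈ Ω, ρ g v ∈ Ω
  escape : ∀ (g : ℕ → G) (z : ℕ → V) (c : ℕ → ℂ) (z₀ q : V), Tendsto g atTop cofinite →
    Tendsto z atTop (𝓝 z₀) → z₀ ∈ Ω → Tendsto (fun k => c k • ρ (g k) (z k)) atTop (𝓝 q) → q ∉ Ω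
  lift : ∃ K ⊆ Ω, IsCompact K ∧ ∀ v ∈ Ω, ∃ (g : G) (c : ℂ), c ≠ 0 ∧ c • ρ g v ∈ K

variable {G : Type*} [Group G] {V : Type*} [NormedAddCommGroup V] [NormedSpace ℂ V]

/-- The complement of `Ω` contains the germ at `v` of a complex line through `v` (which is not the
line through the origin). -/
def LineGerm (Ω : Set V) (v : V) : Prop :=
  ∃ q : V, (∀ c : ℂ, q ≠ c • v) ∧ ∀ᶠ s in 𝓝 (0 : ℂ), v + s • q ∉ Ω

/-- If `u k → u ≠ 0` and `c k • u k → v` then `v` is a multiple of `u`. -/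
lemma tendsto_smul_eq {u : ℕ → V} {c : ℕ → ℂ} {u₀ v : V} (hu : Tendsto u atTop (𝓝 u₀))
    (hu₀ : u₀ ≠ 0) (h : Tendsto (fun k => c k • u k) atTop (𝓝 v)) : ∃ c₀ : ℂ, v = c₀ • u₀ := by
  obtain ⟨f, hf⟩ := SeparatingDual.exists_eq_one (R := ℂ) hu₀
  have h1 : Tendsto (fun k => f (u k)) atTop (𝓝 1) := by
    rw [← hf]; exact (f.continuous.tendsto u₀).comp hu
  have h2 : Tendsto (fun k => c k * f (u k)) atTop (𝓝 (f v)) := by
    have := (f.continuous.tendsto v).comp h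
    refine this.congr fun k => ?_
    simp
  have h3 : Tendsto c atTop (𝓝 (f v)) := by
    have h4 := h2.div h1 one_ne_zero
    rw [div_one] at h4
    refine h4.congr' ?_
    filter_upwards [h1.eventually_ne one_ne_zero] with k hk
    simp only [Pi.div_apply]
    exact mul_div_cancel_right₀ (c k) hk
  exact ⟨f v, tendsto_nhds_unique h (h3.smul hu)⟩

lemma Cone.smul_mem_iff (C : Cone G V) {c : ℂ} (hc : c ≠ 0) {v : V} : c • v ∈ C.Ω ↔ v ∈ C.Ω := by
  constructor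
  · intro h
    have := C.smul_mem c⁻¹ (inv_ne_zero hc) _ h
    rwa [smul_smul, inv_mul_cancel₀ hc, one_smul] at this
  · exact C.smul_mem c hc v

lemma Cone.inv_apply (C : Cone G V) (g : G) (v : V) : C.ρ g⁻¹ (C.ρ g v) = v := by
  have : C.ρ g⁻¹ * C.ρ g = 1 := by rw [← map_mul, inv_mul_cancel, map_one]
  calc C.ρ g⁻¹ (C.ρ g v) = (C.ρ g⁻¹ * C.ρ g) v := rfl
    _ = v := by rw [this]; rfl

lemma Cone.apply_inv (C : Cone G V) (g : G) (v : V) : C.ρ g (C.ρ g⁻¹ v) = v := by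
  have := C.inv_apply g⁻¹ v
  rwa [inv_inv] at this

lemma Cone.injective (C : Cone G V) (g : G) : Function.Injective (C.ρ g) := by
  intro v w h
  rw [← C.inv_apply g v, h, C.inv_apply]

lemma Cone.maps_iff (C : Cone G V) (g : G) {v : V} : C.ρ g v ∈ C.Ω ↔ v ∈ C.Ω := by
  constructor
  · intro h
    have := C.maps g⁻¹ _ h
    rwa [C.inv_apply] at this
  · exact C.maps g v

lemma Cone.not_mem_smul (C : Cone G V) {c : ℂ} {v : V} (hv : v ∉ C.Ω) : c • v ∉ C.Ω := by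
  by_cases hc : c = 0
  · rw [hc, zero_smul]; exact C.zero
  · rwa [C.smul_mem_iff hc]

lemma Cone.ne_zero (C : Cone G V) {v : V} (hv : v ∈ C.Ω) : v ≠ 0 := by
  rintro rfl; exact C.zero hv

/-- A limit of vectors outside the cone is outside the cone. -/
lemma Cone.not_mem_of_tendsto (C : Cone G V) {v : ℕ → V} {v₀ : V} (h : Tendsto v atTop (𝓝 v₀))
    (hv : ∃ᶠ k in atTop, v k ∉ C.Ω) : v₀ ∉ C.Ω := by
  intro h0
  have := h.eventually (C.isOpen.mem_nhds h0)
  exact hv (this.mono fun k hk => not_not.mpr hk)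

lemma tendsto_cofinite_iff' {G : Type*} {g : ℕ → G} :
    Tendsto g atTop cofinite ↔ ∀ a, ∀ᶠ k in atTop, g k ≠ a := by
  rw [Tendsto, le_cofinite_iff_eventually_ne]
  rfl

lemma LineGerm.smul {Ω : Set V} (hΩ : ∀ c : ℂ, c ≠ 0 → ∀ v ∈ Ω, c • v ∈ Ω) {v : V} {c : ℂ}
    (hc : c ≠ 0) (h : LineGerm Ω (c • v)) : LineGerm Ω v := by
  obtain ⟨q, hq, hs⟩ := h
  refine ⟨c⁻¹ • q, ?_, ?_⟩
  · intro d hd
    apply hq d
    rw [smul_smul, mul_comm, ← smul_smul, ← hd, smul_smul, mul_inv_cancel₀ hc, one_smul]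
  · filter_upwards [hs] with s hs' h'
    apply hs'
    have := hΩ c hc _ h'
    rwa [smul_add, smul_smul, smul_smul, mul_comm c, mul_assoc, mul_inv_cancel₀ hc, mul_one] at this

variable [FiniteDimensional ℂ V]

/-- **Conical degeneration.** At a boundary point without a line germ some sequence of group
elements degenerates, after scaling, to a rank one map with image spanned by the point. -/
lemma Cone.degeneration (C : Cone G V) {p : V} (hp0 : p ≠ 0) (hp : p ∉ C.Ω)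
    (hpc : p ∈ closure C.Ω) (hgerm : ¬ LineGerm C.Ω p) :
    ∃ (g : ℕ → G) (s : ℕ → ℂ) (φ : V →L[ℂ] ℂ), (∀ k, s k ≠ 0) ∧ φ ≠ 0 ∧
      Tendsto g atTop cofinite ∧
      Tendsto (fun k => s k • C.ρ (g k)) atTop (𝓝 (φ.smulRight p)) := by
  obtain ⟨x, hx, hxp⟩ := mem_closure_iff_seq_limit.mp hpc
  obtain ⟨K, hKΩ, hK, hlift⟩ := C.lift
  choose g' c' hc' hy using fun k => hlift (x k) (hx k)
  -- `x k = (c' k)⁻¹ • ρ (g k) (y k)`
  obtain ⟨g, y, hxy, hyK⟩ : ∃ (g : ℕ → G) (y : ℕ → V),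
      (∀ k, x k = (c' k)⁻¹ • C.ρ (g k) (y k)) ∧ ∀ k, y k ∈ K := by
    refine ⟨fun k => (g' k)⁻¹, fun k => c' k • C.ρ (g' k) (x k), fun k => ?_, hy⟩
    rw [map_smul, C.inv_apply, smul_smul, inv_mul_cancel₀ (hc' k), one_smul]
  have hgc : Tendsto g atTop cofinite := by
    rw [tendsto_cofinite_iff']
    intro a
    by_contra hcon
    rw [Filter.not_eventually] at hcon
    obtain ⟨ψ, hψ, hψa⟩ := extraction_of_frequently_atTop hcon
    obtain ⟨y₀, hy₀, θ, hθ, hyθ⟩ := hK.tendsto_subseq (fun n => hyK (ψ n))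
    have h1 : Tendsto (fun n => C.ρ a (y (ψ (θ n)))) atTop (𝓝 (C.ρ a y₀)) :=
      ((C.ρ a).continuous.tendsto y₀).comp hyθ
    have h2 : Tendsto (fun n => (c' (ψ (θ n)))⁻¹ • C.ρ a (y (ψ (θ n)))) atTop (𝓝 p) := by
      have h3 : Tendsto (fun n => x (ψ (θ n))) atTop (𝓝 p) :=
        hxp.comp (hψ.tendsto_atTop.comp hθ.tendsto_atTop)
      refine h3.congr fun n => ?_
      rw [hxy (ψ (θ n))]
      have := hψa (θ n)
      rw [not_not] at this
      rw [this]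
    have hmem : C.ρ a y₀ ∈ C.Ω := C.maps a y₀ (hKΩ hy₀)
    obtain ⟨c₀, hc₀⟩ := tendsto_smul_eq h1 (C.ne_zero hmem) h2
    apply hp
    rw [hc₀]
    refine C.smul_mem c₀ ?_ _ hmem
    rintro rfl
    rw [zero_smul] at hc₀
    exact hp0 hc₀
  have hρ0 : ∀ a : G, ‖C.ρ a‖ ≠ 0 := by
    intro a h
    rw [norm_eq_zero] at h
    apply hp0
    rw [← C.inv_apply a p, h]
    simp
  -- pass to a subsequence
  have : ProperSpace (V →L[ℂ] V) := FiniteDimensional.proper ℂ _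
  set S : ℕ → (V →L[ℂ] V) := fun k => ((‖C.ρ (g k)‖⁻¹ : ℝ) : ℂ) • C.ρ (g k) with hS
  have hSn : ∀ k, ‖S k‖ = 1 := by
    intro k
    simp only [hS]
    rw [norm_smul, Complex.norm_real, norm_inv, norm_norm, inv_mul_cancel₀ (hρ0 _)]
  have hcomp : IsCompact (K ×ˢ (Metric.sphere (0 : V →L[ℂ] V) 1)) :=
    hK.prod (isCompact_sphere _ _)
  obtain ⟨⟨y₀, σ⟩, ⟨hy₀, hσ⟩, θ, hθ, hlim⟩ := hcomp.tendsto_subseq
    (x := fun k => (y k, S k)) (fun k => ⟨hyK k, by simp [hSn k]⟩)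
  have hyl : Tendsto (fun k => y (θ k)) atTop (𝓝 y₀) := (continuous_fst.tendsto _).comp hlim
  have hSl : Tendsto (fun k => S (θ k)) atTop (𝓝 σ) := (continuous_snd.tendsto _).comp hlim
  have hSapp : ∀ (z : ℕ → V) (z₀ : V), Tendsto z atTop (𝓝 z₀) →
      Tendsto (fun k => S (θ k) (z k)) atTop (𝓝 (σ z₀)) := by
    intro z z₀ hz
    exact (isBoundedBilinearMap_apply.continuous.tendsto (σ, z₀)).comp (hSl.prodMk_nhds hz)
  have hσ1 : ‖σ‖ = 1 := by simpa using hσ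
  have hgθ : Tendsto (fun k => g (θ k)) atTop cofinite := hgc.comp hθ.tendsto_atTop
  have hxθ : Tendsto (fun k => x (θ k)) atTop (𝓝 p) := hxp.comp hθ.tendsto_atTop
  -- the scalars
  set c : ℕ → ℂ := fun k => (c' (θ k))⁻¹ * ((‖C.ρ (g (θ k))‖ : ℝ) : ℂ) with hcdef
  have hc0 : ∀ k, c k ≠ 0 := fun k =>
    mul_ne_zero (inv_ne_zero (hc' _)) (by exact_mod_cast hρ0 _)
  have hcS : ∀ (k : ℕ) (v : V), c k • S (θ k) v = (c' (θ k))⁻¹ • C.ρ (g (θ k)) v := by
    intro k v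
    simp only [hS, hcdef, FunLike.coe_smul, Pi.smul_apply, smul_smul]
    congr 1
    rw [mul_assoc, ← Complex.ofReal_mul, mul_inv_cancel₀ (hρ0 _), Complex.ofReal_one, mul_one]
  have hxc : ∀ k, x (θ k) = c k • S (θ k) (y (θ k)) := fun k => by rw [hcS, ← hxy]
  have hσp : ∀ z : V, ∃ a : ℂ, σ z = a • p := by
    intro z
    by_contra hcon
    push Not at hcon
    apply hgerm
    by_cases hσy : σ y₀ = 0
    · -- the scalars `c k` tend to infinity
      obtain ⟨f, hf⟩ := SeparatingDual.exists_eq_one (R := ℂ) hp0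
      have hci : Tendsto (fun k => (c k)⁻¹) atTop (𝓝 0) := by
        have h1 : Tendsto (fun k => f (x (θ k))) atTop (𝓝 1) := by
          rw [← hf]; exact (f.continuous.tendsto p).comp hxθ
        have h2 : Tendsto (fun k => f (S (θ k) (y (θ k)))) atTop (𝓝 0) := by
          have := (f.continuous.tendsto _).comp (hSapp _ _ hyl)
          rw [hσy, map_zero] at this
          exact this
        have h3 := h2.div h1 one_ne_zero
        rw [zero_div] at h3
        refine h3.congr' ?_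
        filter_upwards [h1.eventually_ne one_ne_zero] with k hk
        simp only [Pi.div_apply]
        rw [hxc k, map_smul, smul_eq_mul] at hk ⊢
        rw [div_eq_iff hk, ← mul_assoc, inv_mul_cancel₀ (hc0 k), one_mul]
      refine ⟨σ z, hcon, Filter.Eventually.of_forall fun s => ?_⟩
      refine C.escape (fun k => g (θ k)) (fun k => y (θ k) + (s * (c k)⁻¹) • z)
        (fun k => (c' (θ k))⁻¹) y₀ _ hgθ ?_ (hKΩ hy₀) ?_
      · have h4 : Tendsto (fun k => (s * (c k)⁻¹) • z) atTop (𝓝 ((s * 0) • z)) :=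
          (hci.const_mul s).smul_const z
        rw [mul_zero, zero_smul] at h4
        have h5 := hyl.add h4
        rwa [add_zero] at h5
      · have h4 : Tendsto (fun k => x (θ k) + s • S (θ k) z) atTop (𝓝 (p + s • σ z)) :=
          hxθ.add ((hSapp (fun _ => z) z tendsto_const_nhds).const_smul s)
        refine h4.congr fun k => ?_
        rw [← hcS, map_add, smul_add, ← hxc, map_smul, smul_smul, mul_comm s, ← mul_assoc,
          mul_inv_cancel₀ (hc0 k), one_mul]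
    · have h1 : Tendsto (fun k => c k • S (θ k) (y (θ k))) atTop (𝓝 p) :=
        hxθ.congr hxc
      obtain ⟨c₀, hc₀⟩ := tendsto_smul_eq (hSapp _ _ hyl) hσy h1
      have hc₀0 : c₀ ≠ 0 := by
        rintro rfl
        rw [zero_smul] at hc₀
        exact hp0 hc₀
      refine ⟨c₀ • σ z, ?_, ?_⟩
      · intro d hd
        apply hcon (c₀⁻¹ * d)
        rw [← smul_smul, ← hd, smul_smul, inv_mul_cancel₀ hc₀0, one_smul]
      · have hcont : Tendsto (fun s : ℂ => y₀ + s • z) (𝓝 0) (𝓝 (y₀ + (0 : ℂ) • z)) :=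
          tendsto_const_nhds.add (tendsto_id.smul_const z)
        rw [zero_smul, add_zero] at hcont
        filter_upwards [hcont.eventually (C.isOpen.mem_nhds (hKΩ hy₀))] with s hs
        have h2 : σ (y₀ + s • z) ∉ C.Ω := by
          refine C.escape (fun k => g (θ k)) (fun _ => y₀ + s • z)
            (fun k => ((‖C.ρ (g (θ k))‖⁻¹ : ℝ) : ℂ)) _ _ hgθ tendsto_const_nhds hs ?_
          exact hSapp (fun _ => y₀ + s • z) _ tendsto_const_nhds
        have h3 : p + s • c₀ • σ z = c₀ • σ (y₀ + s • z) := by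
          rw [map_add, map_smul, smul_add, ← hc₀, smul_smul, smul_smul, mul_comm s]
        rw [h3]
        exact C.not_mem_smul h2
  -- the functional
  obtain ⟨f, hf⟩ := SeparatingDual.exists_eq_one (R := ℂ) hp0
  have hσφ : σ = (f.comp σ).smulRight p := by
    ext z
    obtain ⟨a, ha⟩ := hσp z
    simp [ha, hf]
  refine ⟨fun k => g (θ k), fun k => ((‖C.ρ (g (θ k))‖⁻¹ : ℝ) : ℂ), f.comp σ, ?_, ?_, hgθ, ?_⟩
  · intro k
    exact Complex.ofReal_ne_zero.mpr (inv_ne_zero (hρ0 _))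
  · intro h0
    rw [h0] at hσφ
    have : σ = 0 := by
      rw [hσφ]; ext z; simp
    rw [this] at hσ1
    simp at hσ1
  · rw [← hσφ]
    exact hSl

/-- A hyperplane of a space of dimension at least three is not contained in a line. -/
lemma exists_ker_not_smul (hdim : 3 ≤ Module.finrank ℂ V) (φ : V →L[ℂ] ℂ) (p : V) :
    ∃ q, φ q = 0 ∧ ∀ c : ℂ, q ≠ c • p := by
  by_contra hcon
  push Not at hcon
  have h1 : LinearMap.ker (φ : V →ₗ[ℂ] ℂ) ≤ Submodule.span ℂ {p} := by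
    intro q hq
    obtain ⟨c, hc⟩ := hcon q hq
    rw [Submodule.mem_span_singleton]
    exact ⟨c, hc.symm⟩
  have h2 := Submodule.finrank_mono h1
  have h3 : Module.finrank ℂ (Submodule.span ℂ {p}) ≤ 1 :=
    (finrank_span_le_card ({p} : Set V)).trans (by simp)
  have h4 := LinearMap.finrank_range_add_finrank_ker (φ : V →ₗ[ℂ] ℂ)
  have h5 : Module.finrank ℂ (LinearMap.range (φ : V →ₗ[ℂ] ℂ)) ≤ 1 := by
    calc _ ≤ Module.finrank ℂ ℂ := Submodule.finrank_le _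
      _ = 1 := Module.finrank_self ℂ
  omega

/-- The key limiting argument. -/
lemma Cone.lineGerm_of_pair (C : Cone G V) {p : V} (hp0 : p ≠ 0) (hp : p ∉ C.Ω)
    {g : ℕ → G} {s : ℕ → ℂ} {φ : V →L[ℂ] ℂ} (hs : ∀ k, s k ≠ 0) (hg : Tendsto g atTop cofinite)
    (hlim : Tendsto (fun k => s k • C.ρ (g k)) atTop (𝓝 (φ.smulRight p)))
    {z₁ z₂ : V} (h1 : φ z₁ ≠ 0) (h2 : ∀ c : ℂ, z₂ ≠ c • z₁)
    (h : z₂ - (φ z₂ / φ z₁) • z₁ ∈ C.Ω ∨ ∀ a b : ℂ, a • z₂ + b • z₁ ∉ C.Ω) :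
    LineGerm C.Ω p := by
  obtain ⟨ψ, hψ⟩ := SeparatingDual.exists_eq_one (R := ℂ) hp0
  set S : ℕ → (V →L[ℂ] V) := fun k => s k • C.ρ (g k) with hS
  have hSi : ∀ k v, S k v = 0 → v = 0 := by
    intro k v hv
    simp only [hS, FunLike.coe_smul, Pi.smul_apply, smul_eq_zero] at hv
    rcases hv with hv | hv
    · exact absurd hv (hs k)
    · apply C.injective (g k)
      rw [hv, map_zero]
  have hSapp : ∀ (z : ℕ → V) (z₀ : V), Tendsto z atTop (𝓝 z₀) →
      Tendsto (fun k => S k (z k)) atTop (𝓝 (φ z₀ • p)) := by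
    intro z z₀ hz
    exact (isBoundedBilinearMap_apply.continuous.tendsto (φ.smulRight p, z₀)).comp
      (hlim.prodMk_nhds hz)
  have hψS : ∀ (z : ℕ → V) (z₀ : V), Tendsto z atTop (𝓝 z₀) →
      Tendsto (fun k => ψ (S k (z k))) atTop (𝓝 (φ z₀)) := by
    intro z z₀ hz
    have := (ψ.continuous.tendsto _).comp (hSapp z z₀ hz)
    rwa [map_smul, hψ, smul_eq_mul, mul_one] at this
  set a : ℕ → ℂ := fun k => ψ (S k z₂) / ψ (S k z₁) with ha
  have haL : Tendsto a atTop (𝓝 (φ z₂ / φ z₁)) :=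
    (hψS _ z₂ tendsto_const_nhds).div (hψS _ z₁ tendsto_const_nhds) h1
  have hev1 : ∀ᶠ k in atTop, ψ (S k z₁) ≠ 0 :=
    (hψS (fun _ => z₁) z₁ tendsto_const_nhds).eventually_ne h1
  set r : ℕ → V := fun k => S k (z₂ - a k • z₁) with hr
  have hzL : Tendsto (fun k => z₂ - a k • z₁) atTop (𝓝 (z₂ - (φ z₂ / φ z₁) • z₁)) :=
    tendsto_const_nhds.sub (haL.smul_const z₁)
  have hr0 : ∀ k, r k ≠ 0 := by
    intro k hk
    have := hSi k _ hk
    exact h2 (a k) (sub_eq_zero.mp this)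
  have hrL : Tendsto r atTop (𝓝 0) := by
    have h3 := hSapp _ _ hzL
    have h4 : φ (z₂ - (φ z₂ / φ z₁) • z₁) = 0 := by
      rw [map_sub, map_smul, smul_eq_mul, div_mul_cancel₀ _ h1, sub_self]
    rwa [h4, zero_smul] at h3
  have hrn : Tendsto (fun k => ((‖r k‖ : ℝ) : ℂ)) atTop (𝓝 0) := by
    have := (Complex.continuous_ofReal.tendsto _).comp hrL.norm
    simpa [Function.comp_def] using this
  have hψr : ∀ᶠ k in atTop, ψ (r k) = 0 := by
    filter_upwards [hev1] with k hk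
    simp only [hr, ha, map_sub, map_smul, smul_eq_mul]
    rw [div_mul_cancel₀ _ hk, sub_self]
  -- the limit direction
  have : ProperSpace V := FiniteDimensional.proper ℂ _
  obtain ⟨q, hq, θ, hθ, hqL⟩ := (isCompact_sphere (0 : V) 1).tendsto_subseq
    (x := fun k => ((‖r k‖⁻¹ : ℝ) : ℂ) • r k) (fun k => by
      rw [mem_sphere_zero_iff_norm, norm_smul, Complex.norm_real, norm_inv, norm_norm,
        inv_mul_cancel₀ (norm_ne_zero_iff.mpr (hr0 k))])
  have hq1 : ‖q‖ = 1 := by simpa using hq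
  have hqL' : Tendsto (fun k => ((‖r (θ k)‖⁻¹ : ℝ) : ℂ) • r (θ k)) atTop (𝓝 q) := hqL
  have hψq : ψ q = 0 := by
    have h3 := (ψ.continuous.tendsto q).comp hqL'
    refine tendsto_nhds_unique h3 ?_
    refine tendsto_const_nhds.congr' ?_
    filter_upwards [hθ.tendsto_atTop.eventually hψr] with k hk
    simp [hk]
  have hgθ : Tendsto (fun k => g (θ k)) atTop cofinite := hg.comp hθ.tendsto_atTop
  have key : ∀ t : ℂ, q + t • φ z₁ • p ∉ C.Ω := by
    intro t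
    have h3 : Tendsto (fun k => z₂ - a (θ k) • z₁ + (t * ((‖r (θ k)‖ : ℝ) : ℂ)) • z₁) atTop
        (𝓝 (z₂ - (φ z₂ / φ z₁) • z₁)) := by
      have h4 : Tendsto (fun k => (t * ((‖r (θ k)‖ : ℝ) : ℂ)) • z₁) atTop (𝓝 ((t * 0) • z₁)) :=
        ((hrn.comp hθ.tendsto_atTop).const_mul t).smul_const z₁
      rw [mul_zero, zero_smul] at h4
      have h5 := (hzL.comp hθ.tendsto_atTop).add h4
      rw [add_zero] at h5
      exact h5
    have h6 : Tendsto (fun k => (((‖r (θ k)‖⁻¹ : ℝ) : ℂ) * s (θ k)) • C.ρ (g (θ k))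
        (z₂ - a (θ k) • z₁ + (t * ((‖r (θ k)‖ : ℝ) : ℂ)) • z₁)) atTop
        (𝓝 (q + t • φ z₁ • p)) := by
      have h7 : Tendsto (fun k => ((‖r (θ k)‖⁻¹ : ℝ) : ℂ) • r (θ k) + t • S (θ k) z₁) atTop
          (𝓝 (q + t • φ z₁ • p)) :=
        hqL'.add (((hSapp _ z₁ tendsto_const_nhds).comp hθ.tendsto_atTop).const_smul t)
      refine h7.congr fun k => ?_
      have hn : ((‖r (θ k)‖ : ℝ) : ℂ) ≠ 0 :=
        Complex.ofReal_ne_zero.mpr (norm_ne_zero_iff.mpr (hr0 _))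
      have h8 : ∀ n : ℂ, n ≠ 0 → n⁻¹ • S (θ k) (z₂ - a (θ k) • z₁) + t • S (θ k) z₁ =
          (n⁻¹ * s (θ k)) • C.ρ (g (θ k)) (z₂ - a (θ k) • z₁ + (t * n) • z₁) := by
        intro n hn
        simp only [hS, FunLike.coe_smul, Pi.smul_apply, map_add, map_smul, smul_add, smul_smul]
        congr 2
        field_simp
      rw [Complex.ofReal_inv]
      exact h8 _ hn
    rcases h with h | h
    · exact C.escape _ _ _ _ _ hgθ h3 h h6
    · refine C.not_mem_of_tendsto h6 (Filter.Frequently.of_forall fun k => ?_)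
      apply C.not_mem_smul
      rw [C.maps_iff]
      have h8 := h 1 (t * ((‖r (θ k)‖ : ℝ) : ℂ) - a (θ k))
      have e : z₂ - a (θ k) • z₁ + (t * ((‖r (θ k)‖ : ℝ) : ℂ)) • z₁ =
          (1 : ℂ) • z₂ + (t * ((‖r (θ k)‖ : ℝ) : ℂ) - a (θ k)) • z₁ := by
        rw [one_smul, sub_smul]
        abel
      rw [e]
      exact h8
  refine ⟨q, ?_, Filter.Eventually.of_forall fun t => ?_⟩
  · intro c hc
    have h3 : ψ q = c := by rw [hc, map_smul, hψ, smul_eq_mul, mul_one]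
    rw [hψq] at h3
    rw [← h3, zero_smul] at hc
    rw [hc] at hq1
    simp at hq1
  · by_cases ht : t = 0
    · rw [ht, zero_smul, add_zero]; exact hp
    · have h3 := C.not_mem_smul (c := t) (key (t⁻¹ * (φ z₁)⁻¹))
      have h4 : t * (t⁻¹ * (φ z₁)⁻¹) * φ z₁ = 1 := by field_simp
      rw [smul_add, smul_smul, smul_smul, h4, one_smul, add_comm] at h3
      exact h3

/-- At a boundary point without a line germ there is an invariant hyperplane outside the cone. -/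
lemma Cone.exists_hyperplane (C : Cone G V) (hdim : 3 ≤ Module.finrank ℂ V) {p : V} (hp0 : p ≠ 0)
    (hp : p ∉ C.Ω) (hpc : p ∈ closure C.Ω) (hgerm : ¬ LineGerm C.Ω p) :
    ∃ (g : ℕ → G) (s : ℕ → ℂ) (φ : V →L[ℂ] ℂ), (∀ k, s k ≠ 0) ∧ Tendsto g atTop cofinite ∧
      Tendsto (fun k => s k • C.ρ (g k)) atTop (𝓝 (φ.smulRight p)) ∧ φ p ≠ 0 ∧
      (∀ z, φ z = 0 → z ∉ C.Ω) ∧ ∀ γ z, φ z = 0 → φ (C.ρ γ z) = 0 := by
  obtain ⟨g, s, φ, hs, hφ0, hg, hlim⟩ := C.degeneration hp0 hp hpc hgerm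
  have hker : ∀ z, φ z = 0 → z ∉ C.Ω := by
    intro z hz hzΩ
    obtain ⟨z₁, hz₁⟩ : ∃ z₁, φ z₁ ≠ 0 := by
      by_contra hcon
      push Not at hcon
      exact hφ0 (by ext v; simp [hcon v])
    refine hgerm (C.lineGerm_of_pair hp0 hp hs hg hlim (z₁ := z₁) (z₂ := z) hz₁ ?_ (Or.inl ?_))
    · intro c hc
      rw [hc, map_smul, smul_eq_mul] at hz
      rcases mul_eq_zero.mp hz with h | h
      · rw [h, zero_smul] at hc
        exact C.ne_zero hzΩ hc
      · exact hz₁ h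
    · rw [hz, zero_div, zero_smul, sub_zero]
      exact hzΩ
  have hp1 : φ p ≠ 0 := by
    intro h0
    obtain ⟨q, hq, hqp⟩ := exists_ker_not_smul hdim φ p
    refine hgerm ⟨q, hqp, Filter.Eventually.of_forall fun t => hker _ ?_⟩
    rw [map_add, map_smul, h0, hq, smul_zero, add_zero]
  refine ⟨g, s, φ, hs, hg, hlim, hp1, hker, ?_⟩
  intro γ z hz
  by_contra hcon
  obtain ⟨q, hq, hqz⟩ := exists_ker_not_smul hdim φ z
  refine hgerm (C.lineGerm_of_pair hp0 hp hs hg hlim (z₁ := C.ρ γ z) (z₂ := C.ρ γ q) hcon ?_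
    (Or.inr ?_))
  · intro c hc
    rw [← map_smul] at hc
    exact hqz c (C.injective γ hc)
  · intro a b
    rw [← map_smul, ← map_smul, ← map_add, C.maps_iff]
    apply hker
    rw [map_add, map_smul, map_smul, hq, hz, smul_zero, smul_zero, add_zero]

/-- The invariant hyperplanes of two boundary points without line germs coincide. -/
lemma Cone.hyperplane_eq (C : Cone G V) (hdim : 3 ≤ Module.finrank ℂ V) {p : V}
    (hgerm : ¬ LineGerm C.Ω p) {g : ℕ → G} {s : ℕ → ℂ} {φ φ' : V →L[ℂ] ℂ}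
    (hlim : Tendsto (fun k => s k • C.ρ (g k)) atTop (𝓝 (φ.smulRight p))) (hφ : φ p ≠ 0)
    (hker : ∀ z, φ' z = 0 → z ∉ C.Ω) (hinv : ∀ γ z, φ' z = 0 → φ' (C.ρ γ z) = 0) (hφ' : φ' ≠ 0) :
    ∃ c : ℂ, c ≠ 0 ∧ φ = c • φ' := by
  have hp' : φ' p ≠ 0 := by
    intro h0
    obtain ⟨q, hq, hqp⟩ := exists_ker_not_smul hdim φ' p
    refine hgerm ⟨q, hqp, Filter.Eventually.of_forall fun t => hker _ ?_⟩
    rw [map_add, map_smul, h0, hq, smul_zero, add_zero]
  have h1 : ∀ v, φ' v = 0 → φ v = 0 := by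
    intro v hv
    have h2 : Tendsto (fun k => φ' ((s k • C.ρ (g k)) v)) atTop (𝓝 (φ' (φ v • p))) := by
      have h3 : Tendsto (fun k => (s k • C.ρ (g k)) v) atTop (𝓝 ((φ.smulRight p) v)) :=
        ((ContinuousLinearMap.apply ℂ V v).continuous.tendsto _).comp hlim
      exact (φ'.continuous.tendsto _).comp h3
    have h4 : ∀ k, φ' ((s k • C.ρ (g k)) v) = 0 := by
      intro k
      rw [FunLike.coe_smul, Pi.smul_apply, map_smul, hinv _ _ hv, smul_zero]
    have h5 : φ' (φ v • p) = 0 :=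
      tendsto_nhds_unique h2 (tendsto_const_nhds.congr fun k => (h4 k).symm)
    rw [map_smul, smul_eq_mul] at h5
    exact (mul_eq_zero.mp h5).resolve_right hp'
  obtain ⟨z₁, hz₁⟩ : ∃ z₁, φ' z₁ = 1 := by
    obtain ⟨z, hz⟩ : ∃ z, φ' z ≠ 0 := by
      by_contra hcon
      push Not at hcon
      exact hφ' (by ext v; simp [hcon v])
    exact ⟨(φ' z)⁻¹ • z, by rw [map_smul, smul_eq_mul, inv_mul_cancel₀ hz]⟩
  have h2 : φ = φ z₁ • φ' := by
    ext v
    have h3 : φ' (v - φ' v • z₁) = 0 := by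
      rw [map_sub, map_smul, hz₁, smul_eq_mul, mul_one, sub_self]
    have h4 := h1 _ h3
    rw [map_sub, map_smul, sub_eq_zero] at h4
    rw [h4]
    simp [mul_comm]
  refine ⟨φ z₁, ?_, h2⟩
  intro h0
  rw [h2, h0] at hφ
  simp at hφ

/-- Normalisation of the representation so that it preserves a given functional. -/
noncomputable def Cone.normalize (C : Cone G V) (φ : V →L[ℂ] ℂ)
    (hφ : ∀ γ z, φ z = 0 → φ (C.ρ γ z) = 0) (z₀ : V) (h : φ z₀ = 1) : Cone G V where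
  ρ :=
    { toFun := fun γ => (φ (C.ρ γ z₀))⁻¹ • C.ρ γ
      map_one' := by
        rw [map_one]
        simp [h]
      map_mul' := by
        intro a b
        have h1 : ∀ γ v, φ (C.ρ γ v) = φ v * φ (C.ρ γ z₀) := by
          intro γ v
          have h2 : φ (v - φ v • z₀) = 0 := by
            rw [map_sub, map_smul, h, smul_eq_mul, mul_one, sub_self]
          have h3 := hφ γ _ h2
          rw [map_sub, map_sub, map_smul, map_smul, sub_eq_zero] at h3
          rw [h3, smul_eq_mul]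
        rw [map_mul]
        have h2 : φ ((C.ρ a * C.ρ b) z₀) = φ (C.ρ b z₀) * φ (C.ρ a z₀) := h1 a (C.ρ b z₀)
        rw [h2, smul_mul_smul_comm, mul_inv, mul_comm (φ (C.ρ a z₀))⁻¹] }
  Ω := C.Ω
  isOpen := C.isOpen
  zero := C.zero
  smul_mem := C.smul_mem
  maps := by
    intro g v hv
    have h0 : φ (C.ρ g z₀) ≠ 0 := by
      intro h0
      have h2 : ∀ w, φ w = 0 := by
        intro w
        have h3 : φ (C.ρ g⁻¹ w - φ (C.ρ g⁻¹ w) • z₀) = 0 := by
          rw [map_sub, map_smul, h, smul_eq_mul, mul_one, sub_self]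
        have h4 := hφ g _ h3
        rw [map_sub, map_sub, map_smul, map_smul, h0, smul_zero, sub_zero, C.apply_inv] at h4
        exact h4
      rw [h2 z₀] at h
      exact zero_ne_one h
    exact C.smul_mem _ (inv_ne_zero h0) _ (C.maps g v hv)
  escape := by
    intro g z c z₀' q hg hz hz₀ hlim
    refine C.escape g z (fun k => c k * (φ (C.ρ (g k) z₀))⁻¹) z₀' q hg hz hz₀ ?_
    refine hlim.congr fun k => ?_
    simp [smul_smul]
  lift := by
    obtain ⟨K, hK, hKc, hl⟩ := C.lift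
    refine ⟨K, hK, hKc, fun v hv => ?_⟩
    obtain ⟨g, c, hc, hgc⟩ := hl v hv
    have h0 : φ (C.ρ g z₀) ≠ 0 := by
      intro h0
      have h2 : ∀ w, φ w = 0 := by
        intro w
        have h3 : φ (C.ρ g⁻¹ w - φ (C.ρ g⁻¹ w) • z₀) = 0 := by
          rw [map_sub, map_smul, h, smul_eq_mul, mul_one, sub_self]
        have h4 := hφ g _ h3
        rw [map_sub, map_sub, map_smul, map_smul, h0, smul_zero, sub_zero, C.apply_inv] at h4
        exact h4
      rw [h2 z₀] at h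
      exact zero_ne_one h
    refine ⟨g, c * φ (C.ρ g z₀), mul_ne_zero hc h0, ?_⟩
    simp only [MonoidHom.coe_mk, OneHom.coe_mk, FunLike.coe_smul, Pi.smul_apply, smul_smul]
    rw [mul_assoc, mul_inv_cancel₀ h0, mul_one]
    exact hgc

/-- A sequence of affine maps converging to a constant contains contractions with fixed points
close to the constant. -/
lemma Cone.exists_fixed (C : Cone G V) {φ : V →L[ℂ] ℂ} (hφ : ∀ γ z, φ (C.ρ γ z) = φ z) {p : V}
    (hp : φ p = 1) {g : ℕ → G}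
    (hlim : Tendsto (fun k => C.ρ (g k)) atTop (𝓝 (φ.smulRight p))) {ε : ℝ} (hε : 0 < ε) :
    ∃ (γ : G) (f : V), φ f = 1 ∧ C.ρ γ f = f ∧ ‖f - p‖ < ε ∧
      ∀ v, φ v = 0 → ‖C.ρ γ v‖ ≤ 1 / 4 * ‖v‖ := by
  have h1 : Tendsto (fun k => ‖C.ρ (g k) - φ.smulRight p‖) atTop (𝓝 0) :=
    tendsto_iff_norm_sub_tendsto_zero.mp hlim
  have hδ : 0 < min (1 / 4) (ε / (2 * (‖p‖ + 1))) := by positivity
  obtain ⟨k, hk⟩ := (h1.eventually (gt_mem_nhds hδ)).exists
  set A := C.ρ (g k) with hA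
  have hk1 : ‖A - φ.smulRight p‖ ≤ 1 / 4 := (hk.trans_le (min_le_left _ _)).le
  have hk2 : ‖A - φ.smulRight p‖ ≤ ε / (2 * (‖p‖ + 1)) := (hk.trans_le (min_le_right _ _)).le
  have hc : ∀ v, φ v = 0 → ‖A v‖ ≤ 1 / 4 * ‖v‖ := by
    intro v hv
    have h2 : A v = (A - φ.smulRight p) v := by simp [hv]
    rw [h2]
    exact ((A - φ.smulRight p).le_opNorm v).trans (by gcongr)
  have hAp : ‖A p - p‖ ≤ ε / 2 := by
    have h2 : A p - p = (A - φ.smulRight p) p := by simp [hp]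
    rw [h2]
    calc ‖(A - φ.smulRight p) p‖ ≤ ‖A - φ.smulRight p‖ * ‖p‖ := (A - φ.smulRight p).le_opNorm p
      _ ≤ ε / (2 * (‖p‖ + 1)) * ‖p‖ := by gcongr
      _ ≤ ε / 2 := by
        rw [div_mul_eq_mul_div, div_le_div_iff₀ (by positivity) (by norm_num)]
        have := norm_nonneg p
        nlinarith
  -- the linear equation
  set E : Submodule ℂ V := LinearMap.ker (φ : V →ₗ[ℂ] ℂ) with hE
  have hmemE : ∀ v, v ∈ E ↔ φ v = 0 := fun v => by rw [hE, LinearMap.mem_ker]; rfl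
  let B : V →ₗ[ℂ] V := LinearMap.id - (A : V →ₗ[ℂ] V)
  have hmap : ∀ x ∈ E, B x ∈ E := by
    intro x hx
    rw [hmemE] at hx ⊢
    have : B x = x - A x := rfl
    rw [this, map_sub, hφ, sub_self]
  let L : E →ₗ[ℂ] E := B.restrict hmap
  have hL : ∀ x : E, ((L x : E) : V) = (x : V) - A x := fun x => rfl
  have hinj : Function.Injective L := by
    rw [injective_iff_map_eq_zero]
    intro x hx
    have h2 : (x : V) - A x = 0 := by rw [← hL, hx]; rfl
    have h3 := hc x ((hmemE _).mp x.2)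
    rw [← sub_eq_zero.mp h2] at h3
    have h4 := norm_nonneg (x : V)
    have h5 : ‖(x : V)‖ = 0 := by linarith
    exact Subtype.ext (norm_eq_zero.mp h5)
  have hsurj : Function.Surjective L := LinearMap.injective_iff_surjective.mp hinj
  obtain ⟨e, he⟩ := hsurj ⟨A p - p, by rw [hmemE, map_sub, hφ, sub_self]⟩
  have he' : (e : V) - A e = A p - p := by rw [← hL, he]
  have heE : φ (e : V) = 0 := (hmemE _).mp e.2
  refine ⟨g k, p + e, by rw [map_add, hp, heE, add_zero], ?_, ?_, hc⟩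
  · rw [← hA, map_add]
    have : A p = p + ((e : V) - A e) := by rw [he']; abel
    rw [this]
    abel
  · rw [add_sub_cancel_left]
    have h2 := hc e heE
    have h3 : ‖(e : V)‖ ≤ ‖A p - p‖ + ‖A e‖ := by
      calc ‖(e : V)‖ = ‖((e : V) - A e) + A e‖ := by rw [sub_add_cancel]
        _ ≤ ‖(e : V) - A e‖ + ‖A e‖ := norm_add_le _ _
        _ = ‖A p - p‖ + ‖A e‖ := by rw [he']
    linarith

omit [FiniteDimensional ℂ V] in
/-- Powers of a contraction have at most one fixed vector in the affine hyperplane. -/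
lemma fixed_unique {φ : V →L[ℂ] ℂ} {A : V →L[ℂ] V} (hφ : ∀ z, φ (A z) = φ z)
    (hc : ∀ v, φ v = 0 → ‖A v‖ ≤ 1 / 4 * ‖v‖) {m : ℕ} (hm : 1 ≤ m) {v : V} (hv : φ v = 0)
    (h : (A ^ m) v = v) : v = 0 := by
  have h1 : ∀ (n : ℕ) (w : V), φ w = 0 → φ ((A ^ n) w) = 0 ∧ ‖(A ^ n) w‖ ≤ (1 / 4) ^ n * ‖w‖ := by
    intro n w hw
    induction n with
    | zero => simp [hw]
    | succ n ih =>
      rw [pow_succ' A]
      have h2 : (A * A ^ n) w = A ((A ^ n) w) := rfl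
      rw [h2]
      refine ⟨by rw [hφ, ih.1], (hc _ ih.1).trans ?_⟩
      rw [pow_succ, mul_comm ((1 / 4 : ℝ) ^ n), mul_assoc]
      exact mul_le_mul_of_nonneg_left ih.2 (by norm_num)
  have h2 := (h1 m v hv).2
  rw [h] at h2
  have h3 : ((1 : ℝ) / 4) ^ m ≤ 1 / 4 := by
    calc ((1 : ℝ) / 4) ^ m ≤ (1 / 4) ^ 1 := pow_le_pow_of_le_one (by norm_num) (by norm_num) hm
      _ = 1 / 4 := pow_one _
  have h4 := norm_nonneg v
  have h5 : ‖v‖ ≤ 1 / 4 * ‖v‖ := h2.trans (mul_le_mul_of_nonneg_right h3 h4)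
  exact norm_eq_zero.mp (by linarith)

/-- The cyclic subspace argument. -/
lemma exists_pow_ne_zero {A : V →L[ℂ] V} (hA : Function.Injective A) {τ : V →L[ℂ] V} {u : V}
    (hu : τ u ≠ 0) : ∃ m : ℕ, 1 ≤ m ∧ τ ((A ^ m) u) ≠ 0 := by
  by_contra hcon
  push Not at hcon
  set W : Submodule ℂ V := Submodule.span ℂ (Set.range fun n : ℕ => (A ^ (n + 1)) u) with hW
  have hWτ : ∀ w ∈ W, τ w = 0 := by
    intro w hw
    have h1 : W ≤ LinearMap.ker (τ : V →ₗ[ℂ] V) := by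
      rw [hW, Submodule.span_le]
      rintro _ ⟨n, rfl⟩
      exact hcon (n + 1) (by omega)
    exact h1 hw
  have hmap : Submodule.map (A : V →ₗ[ℂ] V) W ≤ W := by
    rw [hW, Submodule.map_span, Submodule.span_le]
    rintro _ ⟨_, ⟨n, rfl⟩, rfl⟩
    refine Submodule.subset_span ⟨n + 1, ?_⟩
    simp only [pow_succ' A (n + 1)]
    rfl
  have hfin : Module.finrank ℂ (Submodule.map (A : V →ₗ[ℂ] V) W) = Module.finrank ℂ W :=
    LinearEquiv.finrank_eq (Submodule.equivMapOfInjective (A : V →ₗ[ℂ] V) hA W).symm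
  have heq := Submodule.eq_of_le_of_finrank_eq hmap hfin
  have hAu : A u ∈ W := Submodule.subset_span ⟨0, by simp⟩
  rw [← heq] at hAu
  obtain ⟨w, hw, hwu⟩ := hAu
  have : w = u := hA hwu
  rw [this] at hw
  exact hu (hWτ u hw)

/-- **Line germs near a conical limit point.** -/
lemma Cone.lineGerm_near (C : Cone G V) (hdim : 3 ≤ Module.finrank ℂ V) {φ : V →L[ℂ] ℂ}
    (hφ : ∀ γ z, φ (C.ρ γ z) = φ z) {p p' : V} (hp : φ p = 1) (hp' : φ p' = 1) (hne : p ≠ p')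
    {g g' : ℕ → G}
    (hlim : Tendsto (fun k => C.ρ (g k)) atTop (𝓝 (φ.smulRight p)))
    (hlim' : Tendsto (fun k => C.ρ (g' k)) atTop (𝓝 (φ.smulRight p')))
    (hgerm : ¬ LineGerm C.Ω p) {W : Set V} (hWo : IsOpen W) (hW : p ∈ W) :
    ∃ v ∈ W, φ v = 1 ∧ v ∉ C.Ω ∧ LineGerm C.Ω v := by
  have hpp : 0 < ‖p - p'‖ / 2 := half_pos (norm_pos_iff.mpr (sub_ne_zero.mpr hne))
  obtain ⟨γ₁, f₁, hf₁, hγf₁, hfp₁, hc₁⟩ := C.exists_fixed hφ hp hlim hpp
  obtain ⟨γ₂, f₂, hf₂, hγf₂, hfp₂, hc₂⟩ := C.exists_fixed hφ hp' hlim' hpp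
  have hff : f₁ ≠ f₂ := by
    rintro rfl
    have h1 : ‖p - p'‖ ≤ ‖f₁ - p‖ + ‖f₁ - p'‖ := by
      calc ‖p - p'‖ = ‖(f₁ - p') - (f₁ - p)‖ := by congr 1; abel
        _ ≤ ‖f₁ - p'‖ + ‖f₁ - p‖ := norm_sub_le _ _
        _ = _ := add_comm _ _
    linarith
  obtain ⟨γ, f, hf, hγf, hc, hfreq⟩ : ∃ (γ : G) (f : V), φ f = 1 ∧ C.ρ γ f = f ∧
      (∀ v, φ v = 0 → ‖C.ρ γ v‖ ≤ 1 / 4 * ‖v‖) ∧ ∃ᶠ k in atTop, C.ρ (g k) f ≠ p := by
    by_cases h : ∃ᶠ k in atTop, C.ρ (g k) f₁ ≠ p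
    · exact ⟨γ₁, f₁, hf₁, hγf₁, hc₁, h⟩
    · rw [Filter.not_frequently] at h
      refine ⟨γ₂, f₂, hf₂, hγf₂, hc₂, Filter.Eventually.frequently ?_⟩
      filter_upwards [h] with k hk hk'
      rw [not_not] at hk
      exact hff (C.injective (g k) (hk.trans hk'.symm))
  obtain ⟨ψ, hψ, hψf⟩ := extraction_of_frequently_atTop hfreq
  -- the projection onto the kernel along `p`
  let P : V →L[ℂ] V := ContinuousLinearMap.id ℂ V - φ.smulRight p
  have hP : ∀ v, P v = v - φ v • p := fun v => rfl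
  have hPk : ∀ v, φ v = 0 → P v = v := fun v hv => by rw [hP, hv, zero_smul, sub_zero]
  have hφP : ∀ v, φ (P v) = 0 := fun v => by
    rw [hP, map_sub, map_smul, hp, smul_eq_mul, mul_one, sub_self]
  set A : ℕ → (V →L[ℂ] V) := fun n => (C.ρ (g (ψ n))).comp P with hAd
  have hA0 : ∀ n, ‖A n‖ ≠ 0 := by
    intro n h0
    rw [norm_eq_zero] at h0
    obtain ⟨q, hq, hq0⟩ := exists_ker_not_smul hdim φ 0
    have h1 : A n q = C.ρ (g (ψ n)) q := by
      change C.ρ (g (ψ n)) (P q) = _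
      rw [hPk q hq]
    rw [h0] at h1
    have h2 : q = 0 := by
      apply C.injective (g (ψ n))
      rw [← h1, map_zero]
      rfl
    exact hq0 0 (by rw [h2, smul_zero])
  have : ProperSpace (V →L[ℂ] V) := FiniteDimensional.proper ℂ _
  obtain ⟨τ, hτ, θ, hθ, hτL⟩ := (isCompact_sphere (0 : V →L[ℂ] V) 1).tendsto_subseq
    (x := fun n => ((‖A n‖⁻¹ : ℝ) : ℂ) • A n) (fun n => by
      rw [mem_sphere_zero_iff_norm, norm_smul, Complex.norm_real, norm_inv, norm_norm,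
        inv_mul_cancel₀ (hA0 n)])
  have hτ1 : ‖τ‖ = 1 := by simpa using hτ
  -- the subsequence
  obtain ⟨G', hG'⟩ : ∃ G' : ℕ → G, G' = fun n => g (ψ (θ n)) := ⟨_, rfl⟩
  obtain ⟨a, ha⟩ : ∃ a : ℕ → ℂ, a = fun n => ((‖A (θ n)‖⁻¹ : ℝ) : ℂ) := ⟨_, rfl⟩
  have hlimG : Tendsto (fun n => C.ρ (G' n)) atTop (𝓝 (φ.smulRight p)) := by
    rw [hG']
    exact hlim.comp (hψ.tendsto_atTop.comp hθ.tendsto_atTop)
  have hGf : ∀ n, C.ρ (G' n) f ≠ p := fun n => by rw [hG']; exact hψf (θ n)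
  have happ : ∀ v, Tendsto (fun n => C.ρ (G' n) v) atTop (𝓝 (φ v • p)) := by
    intro v
    exact ((ContinuousLinearMap.apply ℂ V v).continuous.tendsto _).comp hlimG
  have hτapp : ∀ v, φ v = 0 → Tendsto (fun n => a n • C.ρ (G' n) v) atTop (𝓝 (τ v)) := by
    intro v hv
    have h1 := ((ContinuousLinearMap.apply ℂ V v).continuous.tendsto _).comp hτL
    refine h1.congr fun n => ?_
    change ((((‖A (θ n)‖⁻¹ : ℝ) : ℂ) • A (θ n)) v) = _
    rw [FunLike.coe_smul, Pi.smul_apply, ha, hG']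
    change _ • C.ρ (g (ψ (θ n))) (P v) = _
    rw [hPk v hv]
  have hφτ : ∀ v, φ v = 0 → φ (τ v) = 0 := by
    intro v hv
    have h1 := (φ.continuous.tendsto _).comp (hτapp v hv)
    refine tendsto_nhds_unique h1 (tendsto_const_nhds.congr fun n => ?_)
    change (0 : ℂ) = φ (a n • C.ρ (G' n) v)
    rw [map_smul, hφ, hv, smul_zero]
  obtain ⟨u, hu, hτu⟩ : ∃ u, φ u = 0 ∧ τ u ≠ 0 := by
    by_contra hcon
    push Not at hcon
    have h1 : τ = 0 := by
      ext v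
      have h2 : τ (P v) = 0 := hcon _ (hφP v)
      have h3 : Tendsto (fun n => (((‖A (θ n)‖⁻¹ : ℝ) : ℂ) • A (θ n)) v) atTop (𝓝 (τ v)) :=
        ((ContinuousLinearMap.apply ℂ V v).continuous.tendsto _).comp hτL
      have h4 : Tendsto (fun n => (((‖A (θ n)‖⁻¹ : ℝ) : ℂ) • A (θ n)) (P v)) atTop
          (𝓝 (τ (P v))) :=
        ((ContinuousLinearMap.apply ℂ V (P v)).continuous.tendsto _).comp hτL
      have h5 : τ v = τ (P v) := by
        refine tendsto_nhds_unique h3 (h4.congr fun n => ?_)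
        simp only [FunLike.coe_smul, Pi.smul_apply, hAd, ContinuousLinearMap.comp_apply]
        rw [hPk _ (hφP v)]
      rw [h5, h2]
      rfl
    rw [h1] at hτ1
    simp at hτ1
  obtain ⟨m, hm, hτm⟩ := exists_pow_ne_zero (C.injective γ) hτu
  have hpow : ∀ (n : ℕ) (v : V), φ ((C.ρ γ ^ n) v) = φ v := by
    intro n v
    rw [← map_pow, hφ]
  have hpowf : ∀ n : ℕ, (C.ρ γ ^ n) f = f := by
    intro n
    induction n with
    | zero => simp
    | succ n ih =>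
      rw [pow_succ]
      have : (C.ρ γ ^ n * C.ρ γ) f = (C.ρ γ ^ n) (C.ρ γ f) := rfl
      rw [this, hγf, ih]
  -- the escaping conjugates
  obtain ⟨h, hh⟩ : ∃ h : ℕ → G, h = fun n => G' n * γ ^ m * (G' n)⁻¹ := ⟨_, rfl⟩
  have hhapp : ∀ n v, C.ρ (h n) (C.ρ (G' n) v) = C.ρ (G' n) ((C.ρ γ ^ m) v) := by
    intro n v
    rw [hh]
    simp only [map_mul, map_pow]
    change C.ρ (G' n) ((C.ρ γ ^ m) (C.ρ (G' n)⁻¹ (C.ρ (G' n) v))) = _
    rw [C.inv_apply]
  have hcof : Tendsto h atTop cofinite := by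
    rw [tendsto_cofinite_iff']
    intro b
    by_contra hcon
    rw [Filter.not_eventually] at hcon
    obtain ⟨ω, hω, hωb⟩ := extraction_of_frequently_atTop hcon
    have hωb' : ∀ n, h (ω n) = b := fun n => not_not.mp (hωb n)
    have hconst : ∀ n, C.ρ (G' (ω n)) f = C.ρ (G' (ω 0)) f := by
      intro n
      have h1 : ∀ n, C.ρ b (C.ρ (G' (ω n)) f) = C.ρ (G' (ω n)) f := by
        intro n
        rw [← hωb' n, hhapp, hpowf]
      set v := C.ρ (G' (ω n)) f - C.ρ (G' (ω 0)) f with hv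
      have h2 : C.ρ b v = v := by rw [hv, map_sub, h1, h1]
      have h3 : φ (C.ρ (G' (ω n))⁻¹ v) = 0 := by
        rw [hφ, hv, map_sub, hφ, hφ, sub_self]
      have h4 : (C.ρ γ ^ m) (C.ρ (G' (ω n))⁻¹ v) = C.ρ (G' (ω n))⁻¹ v := by
        apply C.injective (G' (ω n))
        rw [← hhapp, hωb' n, C.apply_inv, h2]
      have h5 := fixed_unique (hφ γ) hc hm h3 h4
      have h6 : v = 0 := by
        rw [← C.apply_inv (G' (ω n)) v, h5, map_zero]
      exact sub_eq_zero.mp h6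
    have h7 := (happ f).comp hω.tendsto_atTop
    rw [hf, one_smul] at h7
    have h8 : C.ρ (G' (ω 0)) f = p :=
      tendsto_nhds_unique (tendsto_const_nhds.congr fun n => (hconst n).symm) h7
    exact hGf _ h8
  -- the main claim
  have hclaim : ∀ c : ℂ, p + c • τ u ∈ C.Ω → p + c • τ ((C.ρ γ ^ m) u) ∉ C.Ω := by
    intro c hcΩ
    refine C.escape h (fun n => C.ρ (G' n) (p + (c * a n) • u)) (fun _ => 1) _ _ hcof ?_ hcΩ ?_
    · have h1 := (happ p).add ((hτapp u hu).const_smul c)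
      rw [hp, one_smul] at h1
      refine h1.congr fun n => ?_
      rw [map_add, map_smul, smul_smul]
    · have hum : φ ((C.ρ γ ^ m) u) = 0 := by rw [hpow, hu]
      have h1 := (happ ((C.ρ γ ^ m) p)).add ((hτapp _ hum).const_smul c)
      rw [hpow, hp, one_smul] at h1
      refine h1.congr fun n => ?_
      rw [one_smul, hhapp, map_add, map_add, map_smul, map_smul, smul_smul]
  have hnm : ∀ {v w : V}, φ v = 1 → φ w = 0 → w ≠ 0 → ∀ c : ℂ, w ≠ c • v := by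
    intro v w hv hw hw0 c hcw
    have h1 : φ w = c := by rw [hcw, map_smul, hv, smul_eq_mul, mul_one]
    rw [hw] at h1
    rw [← h1, zero_smul] at hcw
    exact hw0 hcw
  have hfr : ∃ᶠ s in 𝓝 (0 : ℂ), p + s • τ u ∈ C.Ω := by
    intro hev
    exact hgerm ⟨τ u, hnm hp (hφτ u hu) hτu, hev⟩
  set w := τ ((C.ρ γ ^ m) u) with hw
  have hφw : φ w = 0 := hφτ _ (by rw [hpow, hu])
  have hWn : ∀ᶠ s in 𝓝 (0 : ℂ), p + s • w ∈ W := by
    have hcont : Tendsto (fun s : ℂ => p + s • w) (𝓝 0) (𝓝 (p + (0 : ℂ) • w)) :=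
      tendsto_const_nhds.add (tendsto_id.smul_const w)
    rw [zero_smul, add_zero] at hcont
    exact hcont.eventually (hWo.mem_nhds hW)
  obtain ⟨c, hcΩ, hcW⟩ := (hfr.and_eventually hWn).exists
  have hφv : φ (p + c • w) = 1 := by
    rw [map_add, map_smul, hp, hφw, smul_zero, add_zero]
  refine ⟨p + c • w, hcW, hφv, hclaim c hcΩ, w, hnm hφv hφw hτm, ?_⟩
  have hcont : Tendsto (fun s : ℂ => p + (c + s) • τ u) (𝓝 0) (𝓝 (p + (c + 0) • τ u)) :=
    tendsto_const_nhds.add ((tendsto_const_nhds.add tendsto_id).smul_const _)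
  rw [add_zero] at hcont
  filter_upwards [hcont.eventually (C.isOpen.mem_nhds hcΩ)] with s hs
  have := hclaim (c + s) hs
  rwa [add_smul, ← add_assoc] at this

omit [FiniteDimensional ℂ V] in
lemma Cone.apply_eq (C : Cone G V) (φ : V →L[ℂ] ℂ)
    (hφ : ∀ γ z, φ z = 0 → φ (C.ρ γ z) = 0) (z₀ : V) (h : φ z₀ = 1) (γ : G) (v : V) :
    φ (C.ρ γ v) = φ v * φ (C.ρ γ z₀) := by
  have h2 : φ (v - φ v • z₀) = 0 := by
    rw [map_sub, map_smul, h, smul_eq_mul, mul_one, sub_self]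
  have h3 := hφ γ _ h2
  rw [map_sub, map_sub, map_smul, map_smul, sub_eq_zero] at h3
  rw [h3, smul_eq_mul]

omit [FiniteDimensional ℂ V] in
lemma Cone.apply_ne (C : Cone G V) (φ : V →L[ℂ] ℂ)
    (hφ : ∀ γ z, φ z = 0 → φ (C.ρ γ z) = 0) (z₀ : V) (h : φ z₀ = 1) (γ : G) :
    φ (C.ρ γ z₀) ≠ 0 := by
  intro h0
  have h1 := C.apply_eq φ hφ z₀ h γ (C.ρ γ⁻¹ z₀)
  rw [h0, mul_zero, C.apply_inv, h] at h1
  exact one_ne_zero h1

omit [FiniteDimensional ℂ V] in
lemma Cone.normalize_tendsto (C : Cone G V) (φ : V →L[ℂ] ℂ)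
    (hφ : ∀ γ z, φ z = 0 → φ (C.ρ γ z) = 0) (z₀ : V) (h : φ z₀ = 1) {g : ℕ → G} {s : ℕ → ℂ}
    (hs : ∀ k, s k ≠ 0) {q : V} (hq : φ q ≠ 0)
    (hlim : Tendsto (fun k => s k • C.ρ (g k)) atTop (𝓝 (φ.smulRight q))) :
    Tendsto (fun k => (C.normalize φ hφ z₀ h).ρ (g k)) atTop
      (𝓝 (φ.smulRight ((φ q)⁻¹ • q))) := by
  have h1 : Tendsto (fun k => s k * φ (C.ρ (g k) z₀)) atTop (𝓝 (φ q)) := by
    have h2 := (φ.continuous.tendsto _).comp
      (((ContinuousLinearMap.apply ℂ V z₀).continuous.tendsto _).comp hlim)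
    have h3 : φ ((ContinuousLinearMap.apply ℂ V z₀) (φ.smulRight q)) = φ q := by
      simp [h]
    rw [h3] at h2
    refine h2.congr fun k => ?_
    simp
  have h4 := (h1.inv₀ hq).smul hlim
  have h5 : (φ q)⁻¹ • φ.smulRight q = φ.smulRight ((φ q)⁻¹ • q) := by
    ext v
    simp [smul_smul, mul_comm]
  rw [h5] at h4
  refine h4.congr fun k => ?_
  change _ = (φ (C.ρ (g k) z₀))⁻¹ • C.ρ (g k)
  rw [smul_smul]
  congr 1
  rw [mul_inv, mul_comm (s k)⁻¹, mul_assoc, inv_mul_cancel₀ (hs k), mul_one]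

/-- **Theorem C, abstract form.** Near two different boundary points there is a point outside the
cone with a line germ. -/
theorem Cone.exists_lineGerm (C : Cone G V) (hdim : 3 ≤ Module.finrank ℂ V) {p p' : V}
    (hp0 : p ≠ 0) (hp : p ∉ C.Ω) (hpc : p ∈ closure C.Ω) (hp0' : p' ≠ 0) (hp' : p' ∉ C.Ω)
    (hpc' : p' ∈ closure C.Ω) (hne : ∀ c : ℂ, p' ≠ c • p) {W : Set V} (hWo : IsOpen W)
    (hWs : ∀ c : ℂ, c ≠ 0 → ∀ v ∈ W, c • v ∈ W) (hpW : p ∈ W) (hpW' : p' ∈ W) :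
    ∃ v ∈ W, v ≠ 0 ∧ v ∉ C.Ω ∧ LineGerm C.Ω v := by
  by_contra hcon
  have hg : ¬ LineGerm C.Ω p := fun h => hcon ⟨p, hpW, hp0, hp, h⟩
  have hg' : ¬ LineGerm C.Ω p' := fun h => hcon ⟨p', hpW', hp0', hp', h⟩
  obtain ⟨g, s, φ, hs, hgc, hlim, hφp, hker, hinv⟩ := C.exists_hyperplane hdim hp0 hp hpc hg
  obtain ⟨g', s', φ', hs', hgc', hlim', hφp', hker', hinv'⟩ :=
    C.exists_hyperplane hdim hp0' hp' hpc' hg'
  obtain ⟨c, hc, hcφ⟩ := C.hyperplane_eq hdim hg hlim hφp hker' hinv' (by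
    rintro rfl; exact hφp' rfl)
  have hz : φ ((φ p)⁻¹ • p) = 1 := by rw [map_smul, smul_eq_mul, inv_mul_cancel₀ hφp]
  have hq' : φ (c⁻¹ • p') ≠ 0 := by
    rw [map_smul, smul_eq_mul, hcφ]
    simp only [FunLike.coe_smul, Pi.smul_apply, smul_eq_mul]
    rw [← mul_assoc, inv_mul_cancel₀ hc, one_mul]
    exact hφp'
  have hlim'' : Tendsto (fun k => s' k • C.ρ (g' k)) atTop (𝓝 (φ.smulRight (c⁻¹ • p'))) := by
    have : φ.smulRight (c⁻¹ • p') = φ'.smulRight p' := by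
      rw [hcφ]
      ext v
      simp only [ContinuousLinearMap.smulRight_apply, FunLike.coe_smul, Pi.smul_apply, smul_smul,
        smul_eq_mul]
      congr 1
      rw [mul_comm c, mul_assoc, mul_inv_cancel₀ hc, mul_one]
    rw [this]
    exact hlim'
  set z₀ : V := (φ p)⁻¹ • p with hz₀
  have hφρ : ∀ γ z, φ ((C.normalize φ hinv z₀ hz).ρ γ z) = φ z := by
    intro γ z
    change φ (((φ (C.ρ γ z₀))⁻¹ • C.ρ γ) z) = φ z
    rw [FunLike.coe_smul, Pi.smul_apply, map_smul, smul_eq_mul, C.apply_eq φ hinv z₀ hz γ z,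
      mul_comm (φ z), ← mul_assoc, inv_mul_cancel₀ (C.apply_ne φ hinv z₀ hz γ), one_mul]
  have hq1 : φ ((φ (c⁻¹ • p'))⁻¹ • c⁻¹ • p') = 1 := by
    rw [map_smul, smul_eq_mul, inv_mul_cancel₀ hq']
  have hne' : z₀ ≠ (φ (c⁻¹ • p'))⁻¹ • c⁻¹ • p' := by
    intro h
    have h1 : c • φ (c⁻¹ • p') • z₀ = p' := by
      rw [h, smul_smul (φ (c⁻¹ • p')), mul_inv_cancel₀ hq', one_smul, smul_smul,
        mul_inv_cancel₀ hc, one_smul]
    rw [hz₀, smul_smul, smul_smul] at h1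
    exact hne _ h1.symm
  have hgz : ¬ LineGerm C.Ω z₀ := by
    intro h
    exact hg (LineGerm.smul C.smul_mem (inv_ne_zero hφp) h)
  obtain ⟨v, hvW, hv1, hvΩ, hvg⟩ := (C.normalize φ hinv z₀ hz).lineGerm_near hdim hφρ hz hq1 hne'
    (C.normalize_tendsto φ hinv z₀ hz hs hφp hlim)
    (C.normalize_tendsto φ hinv z₀ hz hs' hq' hlim'') hgz hWo
    (hWs _ (inv_ne_zero hφp) p hpW)
  refine hcon ⟨v, hvW, ?_, hvΩ, hvg⟩
  rintro rfl
  rw [map_zero] at hv1
  exact zero_ne_one hv1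

end Pool.Agent.Lib.P17cb1b
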