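import Mathlib

/-!
# Definitions: four-dimensional subsets of `ℂP³`, CR dimension, and covering domains
-/

open scoped LinearAlgebra.Projectivization ContDiff

namespace Pool.Agent.Lib.P17cb1b

open Complex

/-- Complex projective three-space. -/
abbrev CP3 : Type := ℙ ℂ (Fin 4 → ℂ)

/-- The usual (quotient) topology of `ℂP³`: the quotient topology of `v ↦ [v]`, `v ≠ 0`. -/
noncomputable instance : TopologicalSpace CP3 :=
  TopologicalSpace.coinduced
    (fun v : {v : Fin 4 → ℂ // v ≠ 0} => Projectivization.mk ℂ v.1 v.2) inferInstance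

lemma insertNth_ne_zero (i : Fin 4) (z : Fin 3 → ℂ) : (i.insertNth 1 z : Fin 4 → ℂ) ≠ 0 := by
  intro h
  have := congrFun h i
  simp at this

/-- The `i`-th affine chart of `ℂP³`: `z ↦ [z₀ : … : 1 : … : z₂]`, with `1` in the place `i`. -/
noncomputable def affine (i : Fin 4) (z : Fin 3 → ℂ) : CP3 :=
  Projectivization.mk ℂ (i.insertNth 1 z) (insertNth_ne_zero i z)

/-- `M` is an embedded real-analytic submanifold of `ℂP³` of real dimension four: in each affine
chart it is locally the zero set of a real-analytic submersion to `ℂ = ℝ²`. -/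
def IsEmbedded4 (M : Set CP3) : Prop :=
  ∀ (i : Fin 4) (z : Fin 3 → ℂ), affine i z ∈ M →
    ∃ (U : Set (Fin 3 → ℂ)) (F : (Fin 3 → ℂ) → ℂ), IsOpen U ∧ z ∈ U ∧ ContDiffOn ℝ ω F U ∧
      (∀ x ∈ U, Function.Surjective (fderiv ℝ F x)) ∧ ∀ x ∈ U, (affine i x ∈ M ↔ F x = 0)

/-- The real tangent space, in the `i`-th affine chart, of `M` at the point with coordinates `z`:
the velocities at `z` of smooth curves that stay in `M`. -/
def tangent (M : Set CP3) (i : Fin 4) (z : Fin 3 → ℂ) : Set (Fin 3 → ℂ) :=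
  {v | ∃ γ : ℝ → (Fin 3 → ℂ), ContDiff ℝ ∞ γ ∧ γ 0 = z ∧ deriv γ 0 = v ∧
    ∀ᶠ t in nhds 0, affine i (γ t) ∈ M}

/-- `M` has CR dimension `d` at `p`: the complex tangent space `T_p M ∩ J T_p M` is a complex
subspace of complex dimension `d` (in every affine chart around `p`). -/
def HasCRDim (M : Set CP3) (p : CP3) (d : ℕ) : Prop :=
  ∀ (i : Fin 4) (z : Fin 3 → ℂ), affine i z = p →
    ∃ H : Submodule ℂ (Fin 3 → ℂ), (∀ v, v ∈ H ↔ v ∈ tangent M i z ∧ I • v ∈ tangent M i z) ∧
      Module.finrank ℂ H = d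

/-- `Γ` (a group of projective linear transformations) preserves `D`, acts freely and properly
discontinuously on `D`, and `D/Γ` is compact. -/
structure CoversCompact (D : Set CP3) (Γ : Subgroup (GL (Fin 4) ℂ)) : Prop where
  /-- `D` is invariant. -/
  maps : ∀ g ∈ Γ, ∀ x ∈ D, g • x ∈ D
  /-- The action is free. -/
  free : ∀ g ∈ Γ, g ≠ 1 → ∀ x ∈ D, g • x ≠ x
  /-- The action is properly discontinuous. -/
  properlyDiscontinuous : ∀ K ⊆ D, IsCompact K →
    {g : GL (Fin 4) ℂ | g ∈ Γ ∧ ∃ x ∈ K, g • x ∈ K}.Finite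
  /-- The quotient is compact. -/
  cocompact : ∃ K ⊆ D, IsCompact K ∧ ∀ x ∈ D, ∃ g ∈ Γ, g • x ∈ K

end Pool.Agent.Lib.P17cb1b
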