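import Pool.Agent.Lib.P17cb1b.Defs

/-!
# Definitions: sheets and Levi-flatness
-/

open scoped LinearAlgebra.Projectivization ContDiff

namespace Pool.Agent.Lib.P17cb1b

/-- `Γ` is a group of automorphisms of `D`, each the restriction of a projective linear
transformation, which acts freely and properly discontinuously on `D` with compact quotient. -/
structure CoversByProjective (D : Set CP3) (Γ : Subgroup (Equiv.Perm D)) : Prop where
  /-- The elements are restrictions of projective transformations. -/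
  projective : ∀ γ ∈ Γ, ∃ g : GL (Fin 4) ℂ, ∀ x : D, (γ x : CP3) = g • (x : CP3)
  /-- The action is free. -/
  free : ∀ γ ∈ Γ, γ ≠ 1 → ∀ x : D, γ x ≠ x
  /-- The action is properly discontinuous. -/
  properlyDiscontinuous : ∀ K : Set D, IsCompact K →
    {γ : Equiv.Perm D | γ ∈ Γ ∧ ∃ x ∈ K, γ x ∈ K}.Finite
  /-- The quotient is compact. -/
  cocompact : ∃ K : Set D, IsCompact K ∧ ∀ x : D, ∃ γ ∈ Γ, γ x ∈ K

/-- `M` is an embedded `C^∞` submanifold of (an open subset of) `ℂP³` of real dimension four: in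
each affine chart it is locally the zero set of a `C^∞` submersion to `ℂ = ℝ²`. -/
def IsSmoothEmbedded4 (M : Set CP3) : Prop :=
  ∀ (i : Fin 4) (z : Fin 3 → ℂ), affine i z ∈ M →
    ∃ (V : Set (Fin 3 → ℂ)) (F : (Fin 3 → ℂ) → ℂ), IsOpen V ∧ z ∈ V ∧ ContDiffOn ℝ ∞ F V ∧
      (∀ x ∈ V, Function.Surjective (fderiv ℝ F x)) ∧ ∀ x ∈ V, (affine i x ∈ M ↔ F x = 0)

/-- Every point of `Λ` has an open neighbourhood `U` such that `Λ ∩ U` is the union of finitely
many embedded `C^∞` real four-dimensional submanifolds, each closed in `U` (the sheets). -/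
def IsLocallyUnionOfSheets (Λ : Set CP3) : Prop :=
  ∀ p ∈ Λ, ∃ (U : Set CP3) (n : ℕ) (S : Fin n → Set CP3), IsOpen U ∧ p ∈ U ∧
    (∀ j, IsSmoothEmbedded4 (S j) ∧ S j ⊆ U ∧ IsOpen (U \ S j)) ∧ Λ ∩ U = ⋃ j, S j

/-- The complex tangent space `H_p M = T_p M ∩ J T_p M` in the `i`-th affine chart. -/
def ctangent (M : Set CP3) (i : Fin 4) (z : Fin 3 → ℂ) : Set (Fin 3 → ℂ) :=
  {v | v ∈ tangent M i z ∧ Complex.I • v ∈ tangent M i z}

/-- The distribution `HM` is involutive: the Lie bracket of two `C^∞` vector fields which take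
values in `HM` along `M` takes values in `HM` along `M`. -/
def IsLeviFlat (M : Set CP3) : Prop :=
  ∀ (i : Fin 4) (V : Set (Fin 3 → ℂ)) (X Y : (Fin 3 → ℂ) → (Fin 3 → ℂ)), IsOpen V →
    ContDiffOn ℝ ∞ X V → ContDiffOn ℝ ∞ Y V →
    (∀ z ∈ V, affine i z ∈ M → X z ∈ ctangent M i z ∧ Y z ∈ ctangent M i z) →
    ∀ z ∈ V, affine i z ∈ M → VectorField.lieBracket ℝ X Y z ∈ ctangent M i z

end Pool.Agent.Lib.P17cb1b
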