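import Pool.Agent.Lib.P17cb1b.Cocompact
import Pool.Agent.Lib.P17cb1b.Defs

/-!
# Proofs for the twistor example
-/

open scoped LinearAlgebra.Projectivization ContDiff

namespace Pool.Agent.Lib.P17cb1b

open Complex

/-! ### The cone function -/

/-- The defining function of the cone over `Λ`. -/
noncomputable def cF (v : Fin 4 → ℂ) : ℂ :=
  (starRingEnd ℂ) (v 0) * v 3 - v 1 * (starRingEnd ℂ) (v 2)

lemma cF_smul (c : ℂ) (v : Fin 4 → ℂ) : cF (c • v) = (normSq c : ℂ) * cF v := by
  simp only [cF, Pi.smul_apply, smul_eq_mul, map_mul, ← mul_conj]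
  ring

lemma continuous_cF : Continuous cF := by
  unfold cF
  fun_prop

/-- The domain `D`. -/
noncomputable def DD : Set CP3 := {p | cF p.rep ≠ 0}

lemma mem_DD_mk (v : Fin 4 → ℂ) (hv : v ≠ 0) : Projectivization.mk ℂ v hv ∈ DD ↔ cF v ≠ 0 := by
  obtain ⟨a, ha⟩ := Projectivization.exists_smul_eq_mk_rep ℂ v hv
  change cF (Projectivization.mk ℂ v hv).rep ≠ 0 ↔ _
  rw [← ha, Units.smul_def, cF_smul]
  have : (normSq (a : ℂ) : ℂ) ≠ 0 := by
    exact_mod_cast (normSq_pos.mpr a.ne_zero).ne'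
  simp [this]

lemma continuous_mk : Continuous (fun v : {v : Fin 4 → ℂ // v ≠ 0} =>
    (Projectivization.mk ℂ v.1 v.2 : CP3)) :=
  continuous_coinduced_rng

lemma isOpen_iff (s : Set CP3) : IsOpen s ↔
    IsOpen {v : {v : Fin 4 → ℂ // v ≠ 0} | (Projectivization.mk ℂ v.1 v.2 : CP3) ∈ s} :=
  Iff.rfl

lemma isOpen_DD : IsOpen DD := by
  rw [isOpen_iff]
  have : {v : {v : Fin 4 → ℂ // v ≠ 0} | (Projectivization.mk ℂ v.1 v.2 : CP3) ∈ DD} =
      (fun v : {v : Fin 4 → ℂ // v ≠ 0} => cF v.1) ⁻¹' {0}ᶜ := by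
    ext v
    simp [mem_DD_mk]
  rw [this]
  exact isOpen_compl_singleton.preimage (continuous_cF.comp continuous_subtype_val)

/-- The scale invariant function `|cF v| / ‖v‖²` on `ℂP³`. -/
noncomputable def hF : CP3 → ℝ :=
  Projectivization.lift (fun v => ‖cF v.1‖ / ‖v.1‖ ^ 2) (by
    rintro ⟨a, ha⟩ ⟨b, hb⟩ t h
    simp only at h
    subst h
    have ht : t ≠ 0 := by rintro rfl; simp at ha
    have ht' : ‖t‖ ≠ 0 := norm_ne_zero_iff.mpr ht
    have hb' : ‖b‖ ≠ 0 := norm_ne_zero_iff.mpr hb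
    simp only [cF_smul, norm_mul, norm_smul]
    rw [Complex.norm_real, Real.norm_of_nonneg (normSq_nonneg t), normSq_eq_norm_sq]
    field_simp)

lemma hF_mk (v : Fin 4 → ℂ) (hv : v ≠ 0) :
    hF (Projectivization.mk ℂ v hv) = ‖cF v‖ / ‖v‖ ^ 2 := rfl

lemma continuous_hF : Continuous hF := by
  refine continuous_coinduced_dom.mpr ?_
  change Continuous (fun v : {v : Fin 4 → ℂ // v ≠ 0} => ‖cF v.1‖ / ‖v.1‖ ^ 2)
  refine Continuous.div ?_ ?_ ?_
  · exact (continuous_cF.comp continuous_subtype_val).norm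
  · exact (continuous_subtype_val.norm).pow 2
  · intro v
    exact pow_ne_zero 2 (norm_ne_zero_iff.mpr v.2)

/-! ### Connectedness -/

lemma isConnected_det : IsConnected {b : Fin 4 → ℂ | b 0 * b 3 - b 1 * b 2 ≠ 0} := by
  constructor
  · exact ⟨![1, 0, 0, 1], by simp⟩
  · refine isPreconnected_of_forall_pair ?_
    intro x hx y hy
    -- the complex line through `x` and `y`
    let q : Polynomial ℂ :=
      (Polynomial.C (x 0) + Polynomial.C (y 0 - x 0) * Polynomial.X) *
        (Polynomial.C (x 3) + Polynomial.C (y 3 - x 3) * Polynomial.X) -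
      (Polynomial.C (x 1) + Polynomial.C (y 1 - x 1) * Polynomial.X) *
        (Polynomial.C (x 2) + Polynomial.C (y 2 - x 2) * Polynomial.X)
    let line : ℂ → (Fin 4 → ℂ) := fun t => x + t • (y - x)
    have hev : ∀ t, q.eval t = line t 0 * line t 3 - line t 1 * line t 2 := by
      intro t
      simp [q, line]
      ring
    have hq0 : q ≠ 0 := by
      intro h
      have h1 := hev 0
      rw [h] at h1
      simp only [Polynomial.eval_zero, line, zero_smul, add_zero] at h1
      exact hx h1.symm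
    have hfin : {t : ℂ | q.eval t = 0}.Finite := by
      refine (q.roots.toFinset.finite_toSet).subset ?_
      intro t ht
      simp only [Finset.mem_coe, Multiset.mem_toFinset]
      exact (Polynomial.mem_roots hq0).mpr ht
    have hrank : 1 < Module.rank ℝ ℂ := by
      rw [Complex.rank_real_complex]; norm_num
    have hconn : IsConnected {t : ℂ | q.eval t = 0}ᶜ :=
      (hfin.countable.isPathConnected_compl_of_one_lt_rank hrank).isConnected
    have hcont : Continuous line := by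
      simp only [line]; fun_prop
    refine ⟨line '' {t : ℂ | q.eval t = 0}ᶜ, ?_, ?_, ?_, ?_⟩
    · rintro _ ⟨t, ht, rfl⟩
      simp only [Set.mem_ofPred_eq]
      rw [← hev]
      exact ht
    · refine ⟨0, ?_, by simp [line]⟩
      intro h
      have h1 := hev 0
      rw [h] at h1
      simp only [line, zero_smul, add_zero] at h1
      exact hx h1.symm
    · refine ⟨1, ?_, by simp [line]⟩
      intro h
      have h1 := hev 1
      rw [h] at h1
      simp only [line, one_smul, add_sub_cancel] at h1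
      exact hy h1.symm
    · exact hconn.isPreconnected.image _ hcont.continuousOn


lemma isConnected_DD : IsConnected DD := by
  -- conjugate the first and third coordinates
  let S : Set (Fin 4 → ℂ) := {b | b 0 * b 3 - b 1 * b 2 ≠ 0}
  let κ : (Fin 4 → ℂ) → (Fin 4 → ℂ) :=
    fun b => ![(starRingEnd ℂ) (b 0), b 1, (starRingEnd ℂ) (b 2), b 3]
  have hκ : Continuous κ := by
    refine continuous_pi fun i => ?_
    fin_cases i <;> simp only [κ] <;> simp <;> fun_prop
  have hne : ∀ b ∈ S, κ b ≠ 0 := by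
    intro b hb h
    have h0 := congrFun h 0
    have h1 := congrFun h 1
    simp [κ] at h0 h1
    apply hb
    simp [h0, h1]
  have hcF : ∀ b, cF (κ b) = b 0 * b 3 - b 1 * b 2 := by
    intro b
    simp [cF, κ]
  have hS : IsConnected (Set.univ : Set S) := by
    have := isConnected_iff_connectedSpace.mp isConnected_det
    exact isConnected_univ
  let f : S → CP3 := fun b => Projectivization.mk ℂ (κ b.1) (hne b.1 b.2)
  have hf : Continuous f := by
    have : Continuous (fun b : S => (⟨κ b.1, hne b.1 b.2⟩ : {v : Fin 4 → ℂ // v ≠ 0})) :=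
      (hκ.comp continuous_subtype_val).subtype_mk _
    exact continuous_mk.comp this
  have himg : f '' Set.univ = DD := by
    ext p
    constructor
    · rintro ⟨b, -, rfl⟩
      rw [mem_DD_mk, hcF]
      exact b.2
    · intro hp
      induction p using Projectivization.ind with
      | h v hv =>
        rw [mem_DD_mk] at hp
        have hκκ : κ (κ v) = v := by
          ext i
          fin_cases i <;> simp [κ]
        have hmem : κ v ∈ S := by
          change (κ v) 0 * (κ v) 3 - (κ v) 1 * (κ v) 2 ≠ 0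
          rw [← hcF (κ v), hκκ]
          exact hp
        refine ⟨⟨κ v, hmem⟩, trivial, ?_⟩
        simp only [f]
        congr 1
  rw [← himg]
  exact hS.image f hf.continuousOn

/-- The complement `Λ` as a set. -/
lemma mem_compl_mk (v : Fin 4 → ℂ) (hv : v ≠ 0) :
    (Projectivization.mk ℂ v hv : CP3) ∈ DDᶜ ↔ cF v = 0 := by
  rw [Set.mem_compl_iff, mem_DD_mk, not_not]

lemma isConnected_compl : IsConnected DDᶜ := by
  have hrank : 1 < Module.rank ℝ (Fin 2 → ℂ) := by
    have h1 : Module.finrank ℝ (Fin 2 → ℂ) = 4 := by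
      rw [Module.finrank_pi_fintype]
      simp [Complex.finrank_real_complex]
    have h2 : (Module.finrank ℝ (Fin 2 → ℂ) : Cardinal) = Module.rank ℝ (Fin 2 → ℂ) := Module.finrank_eq_rank ℝ (Fin 2 → ℂ)
    rw [← h2, h1]
    norm_num
  have hE : IsConnected ({0}ᶜ : Set (Fin 2 → ℂ)) := isConnected_compl_singleton_of_one_lt_rank hrank 0
  have hEE : IsConnected (({0}ᶜ : Set (Fin 2 → ℂ)) ×ˢ ({0}ᶜ : Set (Fin 2 → ℂ))) := hE.prod hE
  let φ : (Fin 2 → ℂ) × (Fin 2 → ℂ) → (Fin 4 → ℂ) := fun p =>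
    ![p.1 0 * p.2 0, p.1 1 * (starRingEnd ℂ) (p.2 0), p.1 0 * p.2 1,
      p.1 1 * (starRingEnd ℂ) (p.2 1)]
  have hφ : Continuous φ := by
    refine continuous_pi fun i => ?_
    fin_cases i <;> simp only [φ] <;> simp <;> fun_prop
  have hcF : ∀ p, cF (φ p) = 0 := by
    intro p
    simp [cF, φ]
    ring
  have hne : ∀ p ∈ ({0}ᶜ : Set (Fin 2 → ℂ)) ×ˢ ({0}ᶜ : Set (Fin 2 → ℂ)), φ p ≠ 0 := by
    rintro ⟨a, s⟩ ⟨ha, hs⟩ h
    simp only [Set.mem_compl_iff, Set.mem_singleton_iff] at ha hs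
    have h0 := congrFun h 0
    have h1 := congrFun h 1
    have h2 := congrFun h 2
    have h3 := congrFun h 3
    simp [φ] at h0 h1 h2 h3
    have hs' : ¬ (s 0 = 0 ∧ s 1 = 0) := by
      rintro ⟨e0, e1⟩
      apply hs
      ext i; fin_cases i <;> simp [e0, e1]
    have ha' : ¬ (a 0 = 0 ∧ a 1 = 0) := by
      rintro ⟨e0, e1⟩
      apply ha
      ext i; fin_cases i <;> simp [e0, e1]
    tauto
  let f : (({0}ᶜ : Set (Fin 2 → ℂ)) ×ˢ ({0}ᶜ : Set (Fin 2 → ℂ)) : Set ((Fin 2 → ℂ) × (Fin 2 → ℂ))) → CP3 := fun p =>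
    Projectivization.mk ℂ (φ p.1) (hne p.1 p.2)
  have hf : Continuous f := by
    have : Continuous (fun p : (({0}ᶜ : Set (Fin 2 → ℂ)) ×ˢ ({0}ᶜ : Set (Fin 2 → ℂ)) : Set ((Fin 2 → ℂ) × (Fin 2 → ℂ))) =>
        (⟨φ p.1, hne p.1 p.2⟩ : {v : Fin 4 → ℂ // v ≠ 0})) :=
      (hφ.comp continuous_subtype_val).subtype_mk _
    exact continuous_mk.comp this
  have huniv : IsConnected (Set.univ : Set (({0}ᶜ : Set (Fin 2 → ℂ)) ×ˢ ({0}ᶜ : Set (Fin 2 → ℂ)) : Set ((Fin 2 → ℂ) × (Fin 2 → ℂ)))) := by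
    have := isConnected_iff_connectedSpace.mp hEE
    exact isConnected_univ
  have himg : f '' Set.univ = DDᶜ := by
    ext p
    constructor
    · rintro ⟨b, -, rfl⟩
      rw [mem_compl_mk, hcF]
    · intro hp
      induction p using Projectivization.ind with
      | h v hv =>
        rw [mem_compl_mk] at hp
        -- find `a, s`
        have hex : ∃ a s : Fin 2 → ℂ, a ≠ 0 ∧ s ≠ 0 ∧ φ (a, s) = v := by
          simp only [cF] at hp
          by_cases h0 : v 0 = 0
          · by_cases h2 : v 2 = 0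
            · refine ⟨![0, 1], ![(starRingEnd ℂ) (v 1), (starRingEnd ℂ) (v 3)], ?_, ?_, ?_⟩
              · intro h; simpa using congrFun h 1
              · intro h
                have e1 := congrFun h 0
                have e3 := congrFun h 1
                simp at e1 e3
                apply hv
                ext i; fin_cases i <;> simp [h0, h2, e1, e3]
              · ext i
                fin_cases i <;> simp [φ, h0, h2]
            · have h1 : v 1 = 0 := by
                rw [h0] at hp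
                simp at hp
                rcases hp with h | h
                · exact h
                · exact absurd h h2
              have hc2 : (starRingEnd ℂ) (v 2) ≠ 0 := by simpa using h2
              refine ⟨![1, v 3 / (starRingEnd ℂ) (v 2)], ![0, v 2], ?_, ?_, ?_⟩
              · intro h; simpa using congrFun h 0
              · intro h; exact h2 (by simpa using congrFun h 1)
              · ext i
                fin_cases i <;> simp [φ, h0, h1]
                field_simp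
          · have hc0 : (starRingEnd ℂ) (v 0) ≠ 0 := by simpa using h0
            refine ⟨![1, v 1 / (starRingEnd ℂ) (v 0)], ![v 0, v 2], ?_, ?_, ?_⟩
            · intro h; simpa using congrFun h 0
            · intro h; exact h0 (by simpa using congrFun h 0)
            · ext i
              fin_cases i
              · simp [φ]
              · simp [φ]
                field_simp
              · simp [φ]
              · simp [φ]
                field_simp
                linear_combination -hp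
        obtain ⟨a, s, ha, hs, hv'⟩ := hex
        refine ⟨⟨(a, s), ha, hs⟩, trivial, ?_⟩
        simp only [f]
        congr 1
  rw [← himg]
  exact huniv.image f hf.continuousOn

lemma isCompact_sub (A : Set (Fin 4 → ℂ)) (hA : IsCompact A) (h0 : ∀ v ∈ A, v ≠ 0) :
    IsCompact {p : CP3 | ∃ (v : Fin 4 → ℂ) (hv : v ≠ 0), v ∈ A ∧
      p = Projectivization.mk ℂ v hv} := by
  have hA' : IsCompact {v : {v : Fin 4 → ℂ // v ≠ 0} | v.1 ∈ A} := by
    rw [Subtype.isCompact_iff]
    have : ((↑) : {v : Fin 4 → ℂ // v ≠ 0} → (Fin 4 → ℂ)) '' {v | v.1 ∈ A} = A := by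
      ext v
      constructor
      · rintro ⟨w, hw, rfl⟩; exact hw
      · intro hv; exact ⟨⟨v, h0 v hv⟩, hv, rfl⟩
    rw [this]
    exact hA
  have := hA'.image continuous_mk
  convert this using 1
  ext p
  constructor
  · rintro ⟨v, hv, hvA, rfl⟩
    exact ⟨⟨v, hv⟩, hvA, rfl⟩
  · rintro ⟨⟨v, hv⟩, hvA, rfl⟩
    exact ⟨v, hv, hvA, rfl⟩

lemma isCompact_compl : IsCompact DDᶜ := by
  have hA : IsCompact {v : Fin 4 → ℂ | ‖v‖ = 1 ∧ cF v = 0} := by
    refine Metric.isCompact_of_isClosed_isBounded ?_ ?_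
    · exact (isClosed_eq continuous_norm continuous_const).inter
        (isClosed_eq continuous_cF continuous_const)
    · refine (Metric.isBounded_closedBall (x := (0 : Fin 4 → ℂ)) (r := 1)).subset ?_
      rintro v ⟨hv, -⟩
      simp [hv]
  have := isCompact_sub _ hA (fun v hv h => by
    rw [h] at hv
    simp at hv)
  convert this using 1
  ext p
  induction p using Projectivization.ind with
  | h v hv =>
    rw [mem_compl_mk]
    constructor
    · intro h
      have hn : ‖v‖ ≠ 0 := norm_ne_zero_iff.mpr hv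
      have hn' : ((‖v‖⁻¹ : ℝ) : ℂ) ≠ 0 := by exact_mod_cast inv_ne_zero hn
      refine ⟨((‖v‖⁻¹ : ℝ) : ℂ) • v, smul_ne_zero hn' hv, ⟨?_, ?_⟩, ?_⟩
      · rw [norm_smul, Complex.norm_real, norm_inv, norm_norm, inv_mul_cancel₀ hn]
      · rw [cF_smul, h, mul_zero]
      · rw [Projectivization.mk_eq_mk_iff']
        refine ⟨((‖v‖ : ℝ) : ℂ), ?_⟩
        rw [smul_smul, ← Complex.ofReal_mul, mul_inv_cancel₀ hn]
        simp
    · rintro ⟨w, hw, ⟨-, hw0⟩, heq⟩
      rw [← mem_compl_mk v hv, heq, mem_compl_mk]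
      exact hw0


/-! ### The group -/

open Matrix

/-- The representation `V̄ ⊕ V` of `2 × 2` matrices on `ℂ⁴`. -/
noncomputable def rho : Matrix (Fin 2) (Fin 2) ℂ →* Matrix (Fin 4) (Fin 4) ℂ where
  toFun M := !![(starRingEnd ℂ) (M 0 0), 0, (starRingEnd ℂ) (M 0 1), 0;
                0, M 0 0, 0, M 0 1;
                (starRingEnd ℂ) (M 1 0), 0, (starRingEnd ℂ) (M 1 1), 0;
                0, M 1 0, 0, M 1 1]
  map_one' := by
    ext i j
    fin_cases i <;> fin_cases j <;> simp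
  map_mul' M N := by
    ext i j
    fin_cases i <;> fin_cases j <;>
      simp [Matrix.mul_apply, Fin.sum_univ_four, Fin.sum_univ_two]

lemma rho_injective : Function.Injective rho := by
  intro M N h
  have h' : ∀ i j, (rho M) i j = (rho N) i j := fun i j => by rw [h]
  ext i j
  fin_cases i <;> fin_cases j
  · simpa [rho] using h' 1 1
  · simpa [rho] using h' 1 3
  · simpa [rho] using h' 3 1
  · simpa [rho] using h' 3 3

/-- The induced homomorphism `SL(2,ℂ) → GL(4,ℂ)`. -/
noncomputable def rhoGL : SpecialLinearGroup (Fin 2) ℂ →* GL (Fin 4) ℂ :=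
  (Units.map rho).comp SpecialLinearGroup.toGL

lemma rhoGL_coe (M : SpecialLinearGroup (Fin 2) ℂ) :
    ((rhoGL M : GL (Fin 4) ℂ) : Matrix (Fin 4) (Fin 4) ℂ) =
      rho (M : Matrix (Fin 2) (Fin 2) ℂ) := rfl

/-- The `2 × 2` matrix attached to a vector of `ℂ⁴`. -/
noncomputable def Bm (v : Fin 4 → ℂ) : Matrix (Fin 2) (Fin 2) ℂ :=
  !![(starRingEnd ℂ) (v 0), (starRingEnd ℂ) (v 2); v 1, v 3]

lemma det_Bm (v : Fin 4 → ℂ) : (Bm v).det = cF v := by
  rw [Bm, Matrix.det_fin_two_of, cF]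
  ring

lemma Bm_rho (M : Matrix (Fin 2) (Fin 2) ℂ) (v : Fin 4 → ℂ) :
    Bm ((rho M).mulVec v) = Bm v * Mᵀ := by
  ext i j
  fin_cases i <;> fin_cases j <;>
    simp [Bm, rho, Matrix.mul_apply, Matrix.mulVec, dotProduct, Fin.sum_univ_four,
      Fin.sum_univ_two] <;> ring

lemma cF_rho (M : Matrix (Fin 2) (Fin 2) ℂ) (v : Fin 4 → ℂ) :
    cF ((rho M).mulVec v) = cF v * M.det := by
  rw [← det_Bm, Bm_rho, Matrix.det_mul, det_Bm, Matrix.det_transpose]

/-- The group `Γ`. -/
noncomputable def GG : Subgroup (GL (Fin 4) ℂ) := Gam.map rhoGL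

lemma mem_GG {g : GL (Fin 4) ℂ} : g ∈ GG ↔ ∃ M ∈ Gam, rhoGL M = g := Iff.rfl

lemma smul_mk_eq (M : SpecialLinearGroup (Fin 2) ℂ) (v : Fin 4 → ℂ) (hv : v ≠ 0) :
    ∃ h, (rhoGL M) • (Projectivization.mk ℂ v hv : CP3) =
      Projectivization.mk ℂ ((rho (M : Matrix (Fin 2) (Fin 2) ℂ)).mulVec v) h :=
  ⟨_, rfl⟩

/-- The transpose of an element of `Gam` is in `Gam`. -/
lemma transpose_mem_Gam {M : SpecialLinearGroup (Fin 2) ℂ} (hM : M ∈ Gam) : M.transpose ∈ Gam := by
  obtain ⟨q, hq, hMq⟩ := hM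
  refine ⟨![q 0, q 1, -q 2, q 3], ?_, ?_⟩
  · intro i
    fin_cases i
    · exact hq 0
    · exact hq 1
    · exact OK.neg_mem (hq 2)
    · exact hq 3
  · refine (show _ = (M : Matrix (Fin 2) (Fin 2) ℂ)ᵀ from rfl).trans ?_
    rw [hMq]
    ext i j
    fin_cases i <;> fin_cases j <;> simp [Q, qone]

/-- Invariance. -/
lemma smul_mem_DD {g : GL (Fin 4) ℂ} (hg : g ∈ GG) {x : CP3} (hx : x ∈ DD) : g • x ∈ DD := by
  obtain ⟨M, hM, rfl⟩ := hg
  induction x using Projectivization.ind with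
  | h v hv =>
    obtain ⟨h, heq⟩ := smul_mk_eq M v hv
    rw [heq, mem_DD_mk, cF_rho]
    rw [mem_DD_mk] at hx
    simpa using hx

/-- Freeness. -/
lemma free_DD {g : GL (Fin 4) ℂ} (hg : g ∈ GG) {x : CP3} (hx : x ∈ DD) (hgx : g • x = x) :
    g = 1 := by
  obtain ⟨M, hM, rfl⟩ := hg
  obtain ⟨q, hq, hMq⟩ := hM
  induction x using Projectivization.ind with
  | h v hv =>
    obtain ⟨h, heq⟩ := smul_mk_eq M v hv
    rw [heq, Projectivization.mk_eq_mk_iff'] at hgx
    obtain ⟨l, hl⟩ := hgx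
    rw [mem_DD_mk] at hx
    have hdet : (M : Matrix (Fin 2) (Fin 2) ℂ).det = 1 := M.det_coe
    -- `|l| = 1`
    have hl1 : (normSq l : ℂ) = 1 := by
      have h1 : cF (l • v) = cF v * (M : Matrix (Fin 2) (Fin 2) ℂ).det := by
        rw [hl, cF_rho]
      rw [cF_smul, hdet, mul_one] at h1
      exact mul_right_cancel₀ hx (h1.trans (one_mul _).symm)
    have hl1' : normSq l = 1 := by exact_mod_cast hl1
    -- the eigenvector equations
    set a := (M : Matrix (Fin 2) (Fin 2) ℂ) 0 0 with ha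
    set b := (M : Matrix (Fin 2) (Fin 2) ℂ) 0 1 with hb
    set c := (M : Matrix (Fin 2) (Fin 2) ℂ) 1 0 with hc
    set d := (M : Matrix (Fin 2) (Fin 2) ℂ) 1 1 with hd
    have hdet' : a * d - b * c = 1 := by rw [← hdet, Matrix.det_fin_two]
    have e0 : l * v 0 = (starRingEnd ℂ) a * v 0 + (starRingEnd ℂ) b * v 2 := by
      have := congrFun hl 0
      simpa [rho, Matrix.mulVec, dotProduct, Fin.sum_univ_four] using this
    have e1 : l * v 1 = a * v 1 + b * v 3 := by
      have := congrFun hl 1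
      simpa [rho, Matrix.mulVec, dotProduct, Fin.sum_univ_four] using this
    have e2 : l * v 2 = (starRingEnd ℂ) c * v 0 + (starRingEnd ℂ) d * v 2 := by
      have := congrFun hl 2
      simpa [rho, Matrix.mulVec, dotProduct, Fin.sum_univ_four] using this
    have e3 : l * v 3 = c * v 1 + d * v 3 := by
      have := congrFun hl 3
      simpa [rho, Matrix.mulVec, dotProduct, Fin.sum_univ_four] using this
    have hne13 : v 1 ≠ 0 ∨ v 3 ≠ 0 := by
      by_contra hcon
      push Not at hcon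
      apply hx
      simp [cF, hcon.1, hcon.2]
    -- trace
    have htr : l ^ 2 - (a + d) * l + 1 = 0 := by
      have k1 : (l ^ 2 - (a + d) * l + (a * d - b * c)) * v 1 = 0 := by
        linear_combination (l - d) * e1 + b * e3
      have k3 : (l ^ 2 - (a + d) * l + (a * d - b * c)) * v 3 = 0 := by
        linear_combination (l - a) * e3 + c * e1
      rw [hdet'] at k1 k3
      rcases hne13 with hh | hh
      · exact (mul_eq_zero.mp k1).resolve_right hh
      · exact (mul_eq_zero.mp k3).resolve_right hh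
    have hll : l * (starRingEnd ℂ) l = 1 := by rw [mul_conj]; exact hl1
    have hl0 : l ≠ 0 := by rintro rfl; simp at hl1'
    have htr' : a + d = l + (starRingEnd ℂ) l := by
      have : l * (a + d) = l * (l + (starRingEnd ℂ) l) := by
        linear_combination -htr - hll
      exact mul_left_cancel₀ hl0 this
    -- the trace is `2 (1 + 3 q₀)`
    have had : a + d = 2 * (1 + 3 * q 0) := by
      rw [ha, hd, hMq]
      simp [Q, qone]
      ring
    have hre : a + d = ((2 * l.re : ℝ) : ℂ) := by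
      rw [htr', add_conj]
    obtain ⟨m, n, hmn⟩ := hq 0
    have hq0 : (1 : ℂ) + 3 * q 0 = ((1 + 3 * m : ℤ) : ℂ) + ((3 * n : ℤ) : ℂ) * om := by
      rw [hmn]; push_cast; ring
    have hval : ((1 + 3 * m : ℤ) : ℂ) + ((3 * n : ℤ) : ℂ) * om = (l.re : ℂ) := by
      rw [← hq0]
      have h2 : (2 : ℂ) * (1 + 3 * q 0) = 2 * (l.re : ℂ) := by
        rw [← had, hre]; push_cast; ring
      exact mul_left_cancel₀ two_ne_zero h2
    have hn0 : n = 0 := by
      have him : (((1 + 3 * m : ℤ) : ℂ) + ((3 * n : ℤ) : ℂ) * om).im = 0 := by rw [hval]; simp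
      rw [el_im] at him
      rcases mul_eq_zero.mp him with h | h
      · have : (3 * n : ℤ) = 0 := by exact_mod_cast h
        omega
      · exact absurd h (by have := sqrt7_pos; positivity)
    have hm : ((1 + 3 * m : ℤ) : ℝ) = l.re := by
      have hr : (((1 + 3 * m : ℤ) : ℂ) + ((3 * n : ℤ) : ℂ) * om).re = l.re := by rw [hval]; simp
      rw [el_re, hn0] at hr
      simpa using hr
    have hlre : |l.re| ≤ 1 := by
      have h1 : l.re * l.re + l.im * l.im = 1 := by rw [← normSq_apply]; exact hl1'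
      rw [abs_le]
      constructor <;> nlinarith [mul_self_nonneg l.im, mul_self_nonneg (l.re + 1),
        mul_self_nonneg (l.re - 1)]
    have hm0 : m = 0 := by
      rw [← hm, abs_le] at hlre
      have h1 : (-1 : ℤ) ≤ 1 + 3 * m := by exact_mod_cast hlre.1
      have h2 : 1 + 3 * m ≤ (1 : ℤ) := by exact_mod_cast hlre.2
      omega
    have hlre1 : l.re = 1 := by rw [← hm, hm0]; simp
    have hlim : l.im = 0 := by
      have h1 : l.re * l.re + l.im * l.im = 1 := by rw [← normSq_apply]; exact hl1'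
      rw [hlre1] at h1
      have : l.im * l.im = 0 := by linarith
      exact mul_self_eq_zero.mp this
    have hl_one : l = 1 := Complex.ext (by simp [hlre1]) (by simp [hlim])
    rw [hl_one] at e0 e1 e2 e3
    -- conjugated equations
    have e0' : (starRingEnd ℂ) (v 0) = a * (starRingEnd ℂ) (v 0) + b * (starRingEnd ℂ) (v 2) := by
      have := congrArg (starRingEnd ℂ) e0
      simpa using this
    have e2' : (starRingEnd ℂ) (v 2) = c * (starRingEnd ℂ) (v 0) + d * (starRingEnd ℂ) (v 2) := by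
      have := congrArg (starRingEnd ℂ) e2
      simpa using this
    have hx' : (starRingEnd ℂ) (v 0) * v 3 - v 1 * (starRingEnd ℂ) (v 2) ≠ 0 := hx
    have ha1 : a = 1 := by
      have : (a - 1) * ((starRingEnd ℂ) (v 0) * v 3 - v 1 * (starRingEnd ℂ) (v 2)) = 0 := by
        linear_combination -(v 3) * e0' + (starRingEnd ℂ) (v 2) * e1
      exact sub_eq_zero.mp ((mul_eq_zero.mp this).resolve_right hx')
    have hb0 : b = 0 := by
      have : b * ((starRingEnd ℂ) (v 0) * v 3 - v 1 * (starRingEnd ℂ) (v 2)) = 0 := by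
        linear_combination (v 1) * e0' - (starRingEnd ℂ) (v 0) * e1
      exact (mul_eq_zero.mp this).resolve_right hx'
    have hc0 : c = 0 := by
      have : c * ((starRingEnd ℂ) (v 0) * v 3 - v 1 * (starRingEnd ℂ) (v 2)) = 0 := by
        linear_combination -(v 3) * e2' + (starRingEnd ℂ) (v 2) * e3
      exact (mul_eq_zero.mp this).resolve_right hx'
    have hd1 : d = 1 := by
      have : (d - 1) * ((starRingEnd ℂ) (v 0) * v 3 - v 1 * (starRingEnd ℂ) (v 2)) = 0 := by
        linear_combination (v 1) * e2' - (starRingEnd ℂ) (v 0) * e3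
      exact sub_eq_zero.mp ((mul_eq_zero.mp this).resolve_right hx')
    have hM1 : M = 1 := by
      apply Matrix.SpecialLinearGroup.ext
      intro i j
      fin_cases i <;> fin_cases j
      · exact ha1
      · exact hb0
      · exact hc0
      · exact hd1
    rw [hM1, map_one]


/-- Elements of `Gam` with bounded entries are finite in number. -/
lemma finite_Gam_bounded (C : ℝ) : {M : SpecialLinearGroup (Fin 2) ℂ | M ∈ Gam ∧
    ∀ i j, ‖(M : Matrix (Fin 2) (Fin 2) ℂ) i j‖ ≤ C}.Finite := by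
  classical
  have hfin := finite_OK_bounded C
  have hfin4 : (Set.pi Set.univ (fun _ : Fin 4 => {x : ℂ | x ∈ OK ∧ ‖x‖ ≤ C})).Finite :=
    Set.Finite.pi' (fun _ => hfin) |>.subset (by
      intro f hf i
      exact hf i trivial)
  have hinj : Set.InjOn (fun M : SpecialLinearGroup (Fin 2) ℂ =>
      (M : Matrix (Fin 2) (Fin 2) ℂ)) Set.univ := by
    intro M _ N _ h
    exact Subtype.ext h
  refine Set.Finite.of_finite_image (f := fun M : SpecialLinearGroup (Fin 2) ℂ =>
      (M : Matrix (Fin 2) (Fin 2) ℂ)) ?_ (hinj.mono (Set.subset_univ _))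
  refine (hfin4.image Q).subset ?_
  rintro _ ⟨M, ⟨⟨q, hq, hMq⟩, hM⟩, rfl⟩
  refine ⟨qone + 3 • q, ?_, hMq.symm⟩
  intro i _
  have h3 : ∀ x ∈ OK, (3 : ℂ) * x ∈ OK := fun x hx => OK.mul_mem (by exact_mod_cast int_mem_OK 3) hx
  set r : Fin 4 → ℂ := qone + 3 • q with hr
  have hrOK : ∀ i, r i ∈ OK := by
    intro i
    have : r i = qone i + 3 * q i := by simp [hr]
    rw [this]
    refine OK.add_mem ?_ (h3 _ (hq i))
    fin_cases i
    · simp [qone]
    · simp [qone]
    · simp [qone]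
    · simp [qone]
  refine ⟨hrOK i, ?_⟩
  -- bound the coordinates by the entries
  have m00 : ‖r 0 + I * r 1‖ ≤ C := by
    have := hM 0 0; rw [hMq] at this; simpa [Q] using this
  have m01 : ‖r 2 + I * r 3‖ ≤ C := by
    have := hM 0 1; rw [hMq] at this; simpa [Q] using this
  have m10 : ‖-r 2 + I * r 3‖ ≤ C := by
    have := hM 1 0; rw [hMq] at this; simpa [Q] using this
  have m11 : ‖r 0 - I * r 1‖ ≤ C := by
    have := hM 1 1; rw [hMq] at this; simpa [Q] using this
  have key : ∀ x y z : ℂ, ‖y‖ ≤ C → ‖z‖ ≤ C → 2 * ‖x‖ ≤ ‖y‖ + ‖z‖ → ‖x‖ ≤ C := by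
    intro x y z hy hz h
    linarith
  have h2 : ∀ x : ℂ, ‖2 * x‖ = 2 * ‖x‖ := by intro x; simp
  have hI2 : ∀ x : ℂ, ‖2 * (I * x)‖ = 2 * ‖x‖ := by intro x; simp
  fin_cases i
  · refine key _ _ _ m00 m11 ?_
    rw [← h2]
    have : 2 * r 0 = (r 0 + I * r 1) + (r 0 - I * r 1) := by ring
    change ‖2 * r 0‖ ≤ _
    rw [this]
    exact norm_add_le _ _
  · refine key _ _ _ m00 m11 ?_
    change 2 * ‖r 1‖ ≤ _
    rw [← hI2]
    have : 2 * (I * r 1) = (r 0 + I * r 1) - (r 0 - I * r 1) := by ring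
    rw [this]
    exact norm_sub_le _ _
  · refine key _ _ _ m01 m10 ?_
    change 2 * ‖r 2‖ ≤ _
    rw [← h2]
    have : 2 * r 2 = (r 2 + I * r 3) - (-r 2 + I * r 3) := by ring
    rw [this]
    exact norm_sub_le _ _
  · refine key _ _ _ m01 m10 ?_
    change 2 * ‖r 3‖ ≤ _
    rw [← hI2]
    have : 2 * (I * r 3) = (r 2 + I * r 3) + (-r 2 + I * r 3) := by ring
    rw [this]
    exact norm_add_le _ _

lemma norm_Bm_le (v : Fin 4 → ℂ) (i j : Fin 2) : ‖Bm v i j‖ ≤ ‖v‖ := by
  fin_cases i <;> fin_cases j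
  · simpa [Bm] using norm_le_pi_norm v 0
  · simpa [Bm] using norm_le_pi_norm v 2
  · simpa [Bm] using norm_le_pi_norm v 1
  · simpa [Bm] using norm_le_pi_norm v 3

/-- Proper discontinuity. -/
lemma finite_DD (K : Set CP3) (hK : K ⊆ DD) (hKc : IsCompact K) :
    {g : GL (Fin 4) ℂ | g ∈ GG ∧ ∃ x ∈ K, g • x ∈ K}.Finite := by
  rcases K.eq_empty_or_nonempty with rfl | hne
  · convert Set.finite_empty
    ext g
    simp
  obtain ⟨x0, hx0, hmin⟩ := hKc.exists_isMinOn hne continuous_hF.continuousOn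
  have hpos : 0 < hF x0 := by
    have hx0D := hK hx0
    clear hmin hx0
    induction x0 using Projectivization.ind with
    | h v hv =>
      rw [mem_DD_mk] at hx0D
      rw [hF_mk]
      have h1 : 0 < ‖v‖ := norm_pos_iff.mpr hv
      have h2 : 0 < ‖cF v‖ := norm_pos_iff.mpr hx0D
      positivity
  set c := hF x0 with hc
  refine ((finite_Gam_bounded (2 / c)).image rhoGL).subset ?_
  rintro g ⟨⟨M, hM, rfl⟩, x, hxK, hgx⟩
  refine ⟨M, ⟨hM, ?_⟩, rfl⟩
  induction x using Projectivization.ind with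
  | h v hv =>
    have h1 := hmin hxK
    have h2 := hmin hgx
    have hxD := hK hxK
    rw [mem_DD_mk] at hxD
    obtain ⟨h, heq⟩ := smul_mk_eq M v hv
    simp only [Set.mem_ofPred_eq] at h1 h2
    rw [heq, hF_mk, cF_rho, M.det_coe, mul_one, ← hc] at h2
    rw [hF_mk, ← hc] at h1
    set w := (rho (M : Matrix (Fin 2) (Fin 2) ℂ)).mulVec v with hw
    have hvpos : 0 < ‖v‖ := norm_pos_iff.mpr hv
    have hwpos : 0 < ‖w‖ := norm_pos_iff.mpr h
    have hFpos : 0 < ‖cF v‖ := norm_pos_iff.mpr hxD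
    have h1' : c * ‖v‖ ^ 2 ≤ ‖cF v‖ := by
      rwa [le_div_iff₀ (by positivity)] at h1
    have h2' : c * ‖w‖ ^ 2 ≤ ‖cF v‖ := by
      rwa [le_div_iff₀ (by positivity)] at h2
    -- `‖v‖ ‖w‖ ≤ ‖cF v‖ / c`
    have hvw : c * (‖v‖ * ‖w‖) ≤ ‖cF v‖ := by nlinarith [sq_nonneg (‖v‖ - ‖w‖)]
    intro i j
    -- `cF v • Mᵀ = adj (Bm v) * Bm w`
    have hB : Bm w = Bm v * (M : Matrix (Fin 2) (Fin 2) ℂ)ᵀ := Bm_rho _ v
    have hadj : cF v • (M : Matrix (Fin 2) (Fin 2) ℂ)ᵀ = (Bm v).adjugate * Bm w := by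
      rw [hB, ← Matrix.mul_assoc, Matrix.adjugate_mul, det_Bm]
      simp
    have hadjn : ∀ a b, ‖(Bm v).adjugate a b‖ ≤ ‖v‖ := by
      intro a b
      rw [Bm, Matrix.adjugate_fin_two_of]
      fin_cases a <;> fin_cases b
      · simpa using norm_le_pi_norm v 3
      · simpa using norm_le_pi_norm v 2
      · simpa using norm_le_pi_norm v 1
      · simpa using norm_le_pi_norm v 0
    have hent : ‖cF v‖ * ‖(M : Matrix (Fin 2) (Fin 2) ℂ) i j‖ ≤ 2 * (‖v‖ * ‖w‖) := by
      have e1 : ‖cF v‖ * ‖(M : Matrix (Fin 2) (Fin 2) ℂ) i j‖ =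
          ‖((Bm v).adjugate * Bm w) j i‖ := by
        rw [← hadj, ← norm_mul]; rfl
      rw [e1, Matrix.mul_apply, Fin.sum_univ_two]
      calc ‖(Bm v).adjugate j 0 * Bm w 0 i + (Bm v).adjugate j 1 * Bm w 1 i‖
          ≤ ‖(Bm v).adjugate j 0‖ * ‖Bm w 0 i‖ + ‖(Bm v).adjugate j 1‖ * ‖Bm w 1 i‖ := by
            refine (norm_add_le _ _).trans ?_
            rw [norm_mul, norm_mul]
        _ ≤ ‖v‖ * ‖w‖ + ‖v‖ * ‖w‖ := by
            gcongr
            · exact hadjn _ _
            · exact norm_Bm_le _ _ _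
            · exact hadjn _ _
            · exact norm_Bm_le _ _ _
        _ = 2 * (‖v‖ * ‖w‖) := by ring
    rw [le_div_iff₀ hpos]
    have : ‖cF v‖ * (‖(M : Matrix (Fin 2) (Fin 2) ℂ) i j‖ * c) ≤ ‖cF v‖ * 2 := by
      calc ‖cF v‖ * (‖(M : Matrix (Fin 2) (Fin 2) ℂ) i j‖ * c)
          = c * (‖cF v‖ * ‖(M : Matrix (Fin 2) (Fin 2) ℂ) i j‖) := by ring
        _ ≤ c * (2 * (‖v‖ * ‖w‖)) := by gcongr
        _ = 2 * (c * (‖v‖ * ‖w‖)) := by ring
        _ ≤ 2 * ‖cF v‖ := by gcongr
        _ = ‖cF v‖ * 2 := by ring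
    exact le_of_mul_le_mul_left this hFpos

/-- Cocompactness. -/
lemma cocompact_DD : ∃ K ⊆ DD, IsCompact K ∧ ∀ x ∈ DD, ∃ g ∈ GG, g • x ∈ K := by
  obtain ⟨C, hC⟩ := cocompact_matrix
  have hA : IsCompact {v : Fin 4 → ℂ | ‖v‖ ≤ C ∧ ‖cF v‖ = 1} := by
    refine Metric.isCompact_of_isClosed_isBounded ?_ ?_
    · exact (isClosed_le continuous_norm continuous_const).inter
        (isClosed_eq continuous_cF.norm continuous_const)
    · refine (Metric.isBounded_closedBall (x := (0 : Fin 4 → ℂ)) (r := C)).subset ?_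
      rintro v ⟨hv, -⟩
      simpa using hv
  have h0 : ∀ v ∈ {v : Fin 4 → ℂ | ‖v‖ ≤ C ∧ ‖cF v‖ = 1}, v ≠ 0 := by
    rintro v ⟨-, hv⟩ rfl
    simp [cF] at hv
  refine ⟨_, ?_, isCompact_sub _ hA h0, ?_⟩
  · rintro p ⟨v, hv, ⟨-, hv1⟩, rfl⟩
    rw [mem_DD_mk]
    intro h
    rw [h] at hv1
    simp at hv1
  · intro x hx
    induction x using Projectivization.ind with
    | h v hv =>
      rw [mem_DD_mk] at hx
      -- normalise
      have hFpos : 0 < ‖cF v‖ := norm_pos_iff.mpr hx
      set t : ℝ := (Real.sqrt ‖cF v‖)⁻¹ with ht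
      have hspos : 0 < Real.sqrt ‖cF v‖ := Real.sqrt_pos.mpr hFpos
      have htpos : 0 < t := inv_pos.mpr hspos
      have htC : (t : ℂ) ≠ 0 := by exact_mod_cast htpos.ne'
      set u : Fin 4 → ℂ := (t : ℂ) • v with hu
      have hu0 : u ≠ 0 := smul_ne_zero htC hv
      have huF : ‖cF u‖ = 1 := by
        rw [hu, cF_smul, norm_mul, Complex.norm_real, Real.norm_of_nonneg (normSq_nonneg _),
          normSq_ofReal, ht, ← mul_inv, Real.mul_self_sqrt hFpos.le,
          inv_mul_cancel₀ hFpos.ne']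
      obtain ⟨γ, hγ, hγC⟩ := hC (Bm u) (by rw [det_Bm]; exact huF)
      refine ⟨rhoGL γ.transpose, ⟨γ.transpose, transpose_mem_Gam hγ, rfl⟩, ?_⟩
      have hmk : (Projectivization.mk ℂ v hv : CP3) = Projectivization.mk ℂ u hu0 := by
        rw [Projectivization.mk_eq_mk_iff']
        refine ⟨(t : ℂ)⁻¹, ?_⟩
        rw [hu, smul_smul, inv_mul_cancel₀ htC, one_smul]
      rw [hmk]
      obtain ⟨h, heq⟩ := smul_mk_eq γ.transpose u hu0
      rw [heq]
      set w := (rho ((γ.transpose : SpecialLinearGroup (Fin 2) ℂ) :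
        Matrix (Fin 2) (Fin 2) ℂ)).mulVec u with hw
      refine ⟨w, h, ⟨?_, ?_⟩, rfl⟩
      · have hB : Bm w = Bm u * (γ : Matrix (Fin 2) (Fin 2) ℂ) := by
          rw [hw, Bm_rho]
          rfl
        have hb : ∀ i j, ‖Bm w i j‖ ≤ C := by
          intro i j
          rw [hB]
          exact hγC i j
        have hC0 : 0 ≤ C := (norm_nonneg _).trans (hb 0 0)
        rw [pi_norm_le_iff_of_nonneg hC0]
        intro i
        fin_cases i
        · simpa [Bm] using hb 0 0
        · simpa [Bm] using hb 1 0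
        · simpa [Bm] using hb 0 1
        · simpa [Bm] using hb 1 1
      · rw [hw, cF_rho]
        have : ((γ.transpose : SpecialLinearGroup (Fin 2) ℂ) :
          Matrix (Fin 2) (Fin 2) ℂ).det = 1 := (γ.transpose).2
        rw [this, mul_one, huF]


/-! ### The complement in the affine charts -/

/-- The three graphs `z a = z b * conj (z c)`. -/
noncomputable def gr (a b c : Fin 3) (z : Fin 3 → ℂ) : ℂ := z a - z b * (starRingEnd ℂ) (z c)

/-- The indices `(a, b, c)` describing `Λ` in the `i`-th chart. -/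
def idx : Fin 4 → Fin 3 × Fin 3 × Fin 3 := ![(2, 0, 1), (1, 0, 2), (1, 2, 0), (0, 2, 1)]

lemma affine_mem_iff (i : Fin 4) (z : Fin 3 → ℂ) :
    affine i z ∈ DDᶜ ↔ gr (idx i).1 (idx i).2.1 (idx i).2.2 z = 0 := by
  rw [affine, mem_compl_mk]
  have hconj : ∀ x : ℂ, (starRingEnd ℂ) x = 0 ↔ x = 0 := fun x => by simp
  fin_cases i
  · have : cF ((0 : Fin 4).insertNth 1 z) = gr 2 0 1 z := by
      have e0 : ((0 : Fin 4).insertNth 1 z : Fin 4 → ℂ) 0 = 1 := rfl
      have e1 : ((0 : Fin 4).insertNth 1 z : Fin 4 → ℂ) 1 = z 0 := rfl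
      have e2 : ((0 : Fin 4).insertNth 1 z : Fin 4 → ℂ) 2 = z 1 := rfl
      have e3 : ((0 : Fin 4).insertNth 1 z : Fin 4 → ℂ) 3 = z 2 := rfl
      rw [cF, e0, e1, e2, e3, gr]
      simp
    change cF ((0 : Fin 4).insertNth 1 z) = 0 ↔ gr 2 0 1 z = 0
    rw [this]
  · have : (starRingEnd ℂ) (cF ((1 : Fin 4).insertNth 1 z)) = - gr 1 0 2 z := by
      have e0 : ((1 : Fin 4).insertNth 1 z : Fin 4 → ℂ) 0 = z 0 := rfl
      have e1 : ((1 : Fin 4).insertNth 1 z : Fin 4 → ℂ) 1 = 1 := rfl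
      have e2 : ((1 : Fin 4).insertNth 1 z : Fin 4 → ℂ) 2 = z 1 := rfl
      have e3 : ((1 : Fin 4).insertNth 1 z : Fin 4 → ℂ) 3 = z 2 := rfl
      rw [cF, e0, e1, e2, e3, gr]
      simp
    change cF ((1 : Fin 4).insertNth 1 z) = 0 ↔ gr 1 0 2 z = 0
    rw [← hconj, this, neg_eq_zero]
  · have : cF ((2 : Fin 4).insertNth 1 z) = - gr 1 2 0 z := by
      have e0 : ((2 : Fin 4).insertNth 1 z : Fin 4 → ℂ) 0 = z 0 := rfl
      have e1 : ((2 : Fin 4).insertNth 1 z : Fin 4 → ℂ) 1 = z 1 := rfl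
      have e2 : ((2 : Fin 4).insertNth 1 z : Fin 4 → ℂ) 2 = 1 := rfl
      have e3 : ((2 : Fin 4).insertNth 1 z : Fin 4 → ℂ) 3 = z 2 := rfl
      rw [cF, e0, e1, e2, e3, gr]
      simp
      ring
    change cF ((2 : Fin 4).insertNth 1 z) = 0 ↔ gr 1 2 0 z = 0
    rw [this, neg_eq_zero]
  · have : (starRingEnd ℂ) (cF ((3 : Fin 4).insertNth 1 z)) = gr 0 2 1 z := by
      have e0 : ((3 : Fin 4).insertNth 1 z : Fin 4 → ℂ) 0 = z 0 := rfl
      have e1 : ((3 : Fin 4).insertNth 1 z : Fin 4 → ℂ) 1 = z 1 := rfl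
      have e2 : ((3 : Fin 4).insertNth 1 z : Fin 4 → ℂ) 2 = z 2 := rfl
      have e3 : ((3 : Fin 4).insertNth 1 z : Fin 4 → ℂ) 3 = 1 := rfl
      rw [cF, e0, e1, e2, e3, gr]
      simp
      ring
    change cF ((3 : Fin 4).insertNth 1 z) = 0 ↔ gr 0 2 1 z = 0
    rw [← hconj, this]

lemma idx_distinct (i : Fin 4) : (idx i).1 ≠ (idx i).2.1 ∧ (idx i).1 ≠ (idx i).2.2 ∧
    (idx i).2.1 ≠ (idx i).2.2 := by
  fin_cases i <;> decide

/-- The real derivative of `gr`. -/
noncomputable def dgr (a b c : Fin 3) (z : Fin 3 → ℂ) : (Fin 3 → ℂ) →L[ℝ] ℂ :=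
  (ContinuousLinearMap.proj (R := ℝ) (φ := fun _ : Fin 3 => ℂ) a) -
    (z b • ((conjCLE : ℂ →L[ℝ] ℂ).comp
        (ContinuousLinearMap.proj (R := ℝ) (φ := fun _ : Fin 3 => ℂ) c)) +
      (starRingEnd ℂ) (z c) • (ContinuousLinearMap.proj (R := ℝ) (φ := fun _ : Fin 3 => ℂ) b))

lemma dgr_apply (a b c : Fin 3) (z v : Fin 3 → ℂ) : dgr a b c z v =
    v a - (z b * (starRingEnd ℂ) (v c) + (starRingEnd ℂ) (z c) * v b) := by
  simp [dgr]

lemma hasFDerivAt_gr (a b c : Fin 3) (z : Fin 3 → ℂ) :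
    HasFDerivAt (gr a b c) (dgr a b c z) z := by
  have h1 : ∀ j : Fin 3, HasFDerivAt (fun z : Fin 3 → ℂ => z j)
      (ContinuousLinearMap.proj (R := ℝ) (φ := fun _ : Fin 3 => ℂ) j) z := fun j =>
    hasFDerivAt_apply j z
  have h2 : HasFDerivAt (fun z : Fin 3 → ℂ => (starRingEnd ℂ) (z c))
      ((conjCLE : ℂ →L[ℝ] ℂ).comp
        (ContinuousLinearMap.proj (R := ℝ) (φ := fun _ : Fin 3 => ℂ) c)) z :=
    (conjCLE : ℂ →L[ℝ] ℂ).hasFDerivAt.comp z (h1 c)
  exact (h1 a).sub ((h1 b).mul h2)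

lemma contDiff_gr (a b c : Fin 3) : ContDiff ℝ ⊤ (gr a b c) := by
  have h1 : ∀ j : Fin 3, ContDiff ℝ ⊤ (fun z : Fin 3 → ℂ => z j) := fun j => contDiff_apply ℝ ℂ j
  have h2 : ContDiff ℝ ⊤ (fun z : Fin 3 → ℂ => (starRingEnd ℂ) (z c)) :=
    (conjCLE : ℂ →L[ℝ] ℂ).contDiff.comp (h1 c)
  exact (h1 a).sub ((h1 b).mul h2)

/-- `Λ` is an embedded real-analytic submanifold. -/
lemma isEmbedded4_compl : IsEmbedded4 DDᶜ := by
  intro i z _
  obtain ⟨hab, hac, hbc⟩ := idx_distinct i
  refine ⟨Set.univ, gr (idx i).1 (idx i).2.1 (idx i).2.2, isOpen_univ, trivial,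
    (contDiff_gr _ _ _).contDiffOn, ?_, fun x _ => affine_mem_iff i x⟩
  intro x _ y
  rw [(hasFDerivAt_gr _ _ _ x).fderiv]
  refine ⟨Pi.single (idx i).1 y, ?_⟩
  rw [dgr_apply]
  simp [Pi.single_eq_of_ne hab.symm, Pi.single_eq_of_ne hac.symm]

/-- The tangent space of a graph. -/
lemma mem_tangent_iff (i : Fin 4) (z : Fin 3 → ℂ) (hz : affine i z ∈ DDᶜ) (v : Fin 3 → ℂ) :
    v ∈ tangent DDᶜ i z ↔ dgr (idx i).1 (idx i).2.1 (idx i).2.2 z v = 0 := by
  obtain ⟨hab, hac, hbc⟩ := idx_distinct i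
  rw [affine_mem_iff] at hz
  set a := (idx i).1
  set b := (idx i).2.1
  set c := (idx i).2.2
  constructor
  · rintro ⟨γ, hγ, h0, hv, hev⟩
    have hd : HasDerivAt γ v 0 := by
      rw [← hv]
      exact ((hγ.differentiable (by simp)) 0).hasDerivAt
    have h1 : HasDerivAt (fun t => gr a b c (γ t)) (dgr a b c z v) 0 := by
      have h2 : HasFDerivAt (gr a b c) (dgr a b c z) (γ 0) := by
        rw [h0]; exact hasFDerivAt_gr a b c z
      exact h2.comp_hasDerivAt 0 hd
    have h3 : (fun t => gr a b c (γ t)) =ᶠ[nhds 0] fun _ => (0 : ℂ) := by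
      filter_upwards [hev] with t ht
      exact (affine_mem_iff i _).mp ht
    have h4 : HasDerivAt (fun t => gr a b c (γ t)) 0 0 :=
      (hasDerivAt_const (0 : ℝ) (0 : ℂ)).congr_of_eventuallyEq h3
    exact h1.unique h4
  · intro hv
    rw [dgr_apply] at hv
    let γ : ℝ → (Fin 3 → ℂ) := fun t j =>
      if j = a then (z b + t * v b) * (starRingEnd ℂ) (z c + t * v c) else z j + t * v j
    have hofReal : ContDiff ℝ ∞ (fun t : ℝ => (t : ℂ)) := ofRealCLM.contDiff
    have hlin : ∀ j, ContDiff ℝ ∞ (fun t : ℝ => z j + t * v j) := fun j =>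
      contDiff_const.add (hofReal.mul contDiff_const)
    have hlin' : ∀ j, HasDerivAt (fun t : ℝ => z j + t * v j) (v j) 0 := by
      intro j
      have h1 : HasDerivAt (fun t : ℝ => (t : ℂ)) 1 0 := ofRealCLM.hasDerivAt
      simpa using (h1.mul_const (v j)).const_add (z j)
    have hconj' : HasDerivAt (fun t : ℝ => (starRingEnd ℂ) (z c + t * v c))
        ((starRingEnd ℂ) (v c)) 0 :=
      (conjCLE : ℂ →L[ℝ] ℂ).hasFDerivAt.comp_hasDerivAt 0 (hlin' c)
    refine ⟨γ, ?_, ?_, ?_, ?_⟩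
    · rw [contDiff_pi]
      intro j
      by_cases hj : j = a
      · simp only [γ, if_pos hj]
        exact (hlin b).mul ((conjCLE : ℂ →L[ℝ] ℂ).contDiff.comp (hlin c))
      · simp only [γ, if_neg hj]
        exact hlin j
    · ext j
      by_cases hj : j = a
      · subst hj
        simp only [γ, if_pos]
        simp only [ofReal_zero, zero_mul, add_zero]
        exact (sub_eq_zero.mp hz).symm
      · simp [γ, if_neg hj]
    · have : HasDerivAt γ v 0 := by
        rw [hasDerivAt_pi]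
        intro j
        by_cases hj : j = a
        · subst hj
          simp only [γ, if_pos]
          have h := (hlin' b).mul hconj'
          have e : v (idx i).1 = v b * (starRingEnd ℂ) (z c + ((0 : ℝ) : ℂ) * v c) +
              (z b + ((0 : ℝ) : ℂ) * v b) * (starRingEnd ℂ) (v c) := by
            simp only [ofReal_zero, zero_mul, add_zero]
            linear_combination hv
          rw [e]
          exact h
        · simp only [γ, if_neg hj]
          exact hlin' j
      exact this.deriv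
    · refine Filter.Eventually.of_forall fun t => ?_
      rw [affine_mem_iff]
      change gr a b c (γ t) = 0
      simp only [gr, γ, if_pos, if_neg hab.symm, if_neg hac.symm]
      ring

/-- The complex tangent space. -/
lemma mem_ctangent_iff (i : Fin 4) (z : Fin 3 → ℂ) (hz : affine i z ∈ DDᶜ) (v : Fin 3 → ℂ) :
    (v ∈ tangent DDᶜ i z ∧ I • v ∈ tangent DDᶜ i z) ↔
      (v (idx i).1 = (starRingEnd ℂ) (z (idx i).2.2) * v (idx i).2.1 ∧
        z (idx i).2.1 * (starRingEnd ℂ) (v (idx i).2.2) = 0) := by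
  rw [mem_tangent_iff i z hz, mem_tangent_iff i z hz, dgr_apply, dgr_apply]
  simp only [Pi.smul_apply, smul_eq_mul, map_mul, conj_I]
  constructor
  · rintro ⟨h1, h2⟩
    have h3 : z (idx i).2.1 * (starRingEnd ℂ) (v (idx i).2.2) = 0 := by
      have : I * (2 * (z (idx i).2.1 * (starRingEnd ℂ) (v (idx i).2.2))) = 0 := by
        linear_combination h2 - I * h1
      have h4 := (mul_eq_zero.mp this).resolve_left I_ne_zero
      exact (mul_eq_zero.mp h4).resolve_left two_ne_zero
    refine ⟨?_, h3⟩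
    linear_combination h1 + h3
  · rintro ⟨h1, h3⟩
    constructor
    · linear_combination h1 - h3
    · linear_combination I * h1 + I * h3

/-- The CR dimension in a chart. -/
lemma crDim_chart (i : Fin 4) (z : Fin 3 → ℂ) (hz : affine i z ∈ DDᶜ) :
    ∃ H : Submodule ℂ (Fin 3 → ℂ),
      (∀ v, v ∈ H ↔ v ∈ tangent DDᶜ i z ∧ I • v ∈ tangent DDᶜ i z) ∧
      Module.finrank ℂ H = if z (idx i).2.1 = 0 then 2 else 1 := by
  obtain ⟨hab, hac, hbc⟩ := idx_distinct i
  have hcov : ∀ j : Fin 3, j = (idx i).1 ∨ j = (idx i).2.1 ∨ j = (idx i).2.2 := by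
    fin_cases i <;> intro j <;> fin_cases j <;> simp [idx]
  have hmem := mem_ctangent_iff i z hz
  set a := (idx i).1 with ha
  set b := (idx i).2.1 with hb
  set c := (idx i).2.2 with hc
  by_cases hzb : z b = 0
  · rw [if_pos hzb]
    let φ : (ℂ × ℂ) →ₗ[ℂ] (Fin 3 → ℂ) :=
      { toFun := fun p j => if j = a then (starRingEnd ℂ) (z c) * p.1 else if j = b then p.1 else p.2
        map_add' := by
          intro p q
          ext j
          simp only [Prod.fst_add, Prod.snd_add, Pi.add_apply]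
          split_ifs <;> ring
        map_smul' := by
          intro t p
          ext j
          simp only [Prod.smul_fst, Prod.smul_snd, Pi.smul_apply, smul_eq_mul, RingHom.id_apply]
          split_ifs <;> ring }
    have hinj : Function.Injective φ := by
      intro p q h
      have h1 := congrFun h b
      have h2 := congrFun h c
      simp only [φ, LinearMap.coe_mk, AddHom.coe_mk, if_neg hab.symm, if_neg hac.symm,
        if_neg hbc.symm, if_pos] at h1 h2
      exact Prod.ext h1 h2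
    refine ⟨LinearMap.range φ, ?_, ?_⟩
    · intro v
      rw [hmem, LinearMap.mem_range]
      constructor
      · rintro ⟨p, rfl⟩
        simp [φ, if_neg hab.symm, hzb]
      · rintro ⟨h1, -⟩
        refine ⟨(v b, v c), ?_⟩
        ext j
        rcases hcov j with rfl | rfl | rfl
        · simp only [φ, LinearMap.coe_mk, AddHom.coe_mk, if_pos]
          exact h1.symm
        · simp only [φ, LinearMap.coe_mk, AddHom.coe_mk, if_neg hab.symm, if_pos]
        · simp only [φ, LinearMap.coe_mk, AddHom.coe_mk, if_neg hac.symm, if_neg hbc.symm]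
    · rw [LinearMap.finrank_range_of_inj hinj, Module.finrank_prod, Module.finrank_self]
  · rw [if_neg hzb]
    let φ : ℂ →ₗ[ℂ] (Fin 3 → ℂ) :=
      { toFun := fun p j => if j = a then (starRingEnd ℂ) (z c) * p else if j = b then p else 0
        map_add' := by
          intro p q
          ext j
          simp only [Pi.add_apply]
          split_ifs <;> ring
        map_smul' := by
          intro t p
          ext j
          simp only [Pi.smul_apply, smul_eq_mul, RingHom.id_apply]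
          split_ifs <;> ring }
    have hinj : Function.Injective φ := by
      intro p q h
      have h1 := congrFun h b
      simpa only [φ, LinearMap.coe_mk, AddHom.coe_mk, if_neg hab.symm, if_pos] using h1
    refine ⟨LinearMap.range φ, ?_, ?_⟩
    · intro v
      rw [hmem, LinearMap.mem_range]
      constructor
      · rintro ⟨p, rfl⟩
        simp [φ, if_neg hab.symm, if_neg hac.symm, if_neg hbc.symm]
      · rintro ⟨h1, h3⟩
        have hvc : v c = 0 := by
          have := (mul_eq_zero.mp h3).resolve_left hzb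
          simpa using this
        refine ⟨v b, ?_⟩
        ext j
        rcases hcov j with rfl | rfl | rfl
        · simp only [φ, LinearMap.coe_mk, AddHom.coe_mk, if_pos]
          exact h1.symm
        · simp only [φ, LinearMap.coe_mk, AddHom.coe_mk, if_neg hab.symm, if_pos]
        · simp only [φ, LinearMap.coe_mk, AddHom.coe_mk, if_neg hac.symm, if_neg hbc.symm]
          exact hvc.symm
    · rw [LinearMap.finrank_range_of_inj hinj, Module.finrank_self]

/-- The two exceptional lines. -/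
def onLines (v : Fin 4 → ℂ) : Prop := (v 1 = 0 ∧ v 3 = 0) ∨ (v 0 = 0 ∧ v 2 = 0)

lemma onLines_smul (t : ℂ) (ht : t ≠ 0) (v : Fin 4 → ℂ) : onLines (t • v) ↔ onLines v := by
  simp [onLines, ht]

lemma onLines_chart (i : Fin 4) (z : Fin 3 → ℂ) (hz : affine i z ∈ DDᶜ) :
    onLines (i.insertNth 1 z) ↔ z (idx i).2.1 = 0 := by
  rw [affine_mem_iff] at hz
  fin_cases i
  · have e0 : ((0 : Fin 4).insertNth 1 z : Fin 4 → ℂ) 0 = 1 := rfl
    have e1 : ((0 : Fin 4).insertNth 1 z : Fin 4 → ℂ) 1 = z 0 := rfl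
    have e2 : ((0 : Fin 4).insertNth 1 z : Fin 4 → ℂ) 2 = z 1 := rfl
    have e3 : ((0 : Fin 4).insertNth 1 z : Fin 4 → ℂ) 3 = z 2 := rfl
    change gr 2 0 1 z = 0 at hz
    change onLines ((0 : Fin 4).insertNth 1 z) ↔ z 0 = 0
    simp only [gr] at hz
    rw [onLines, e0, e1, e2, e3]
    constructor
    · rintro (⟨h, -⟩ | ⟨h, -⟩)
      · exact h
      · exact absurd h one_ne_zero
    · intro h
      left
      refine ⟨h, ?_⟩
      rw [h] at hz
      simpa using hz
  · have e0 : ((1 : Fin 4).insertNth 1 z : Fin 4 → ℂ) 0 = z 0 := rfl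
    have e1 : ((1 : Fin 4).insertNth 1 z : Fin 4 → ℂ) 1 = 1 := rfl
    have e2 : ((1 : Fin 4).insertNth 1 z : Fin 4 → ℂ) 2 = z 1 := rfl
    have e3 : ((1 : Fin 4).insertNth 1 z : Fin 4 → ℂ) 3 = z 2 := rfl
    change gr 1 0 2 z = 0 at hz
    change onLines ((1 : Fin 4).insertNth 1 z) ↔ z 0 = 0
    simp only [gr] at hz
    rw [onLines, e0, e1, e2, e3]
    constructor
    · rintro (⟨h, -⟩ | ⟨h, -⟩)
      · exact absurd h one_ne_zero
      · exact h
    · intro h
      right
      refine ⟨h, ?_⟩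
      rw [h] at hz
      simpa using hz
  · have e0 : ((2 : Fin 4).insertNth 1 z : Fin 4 → ℂ) 0 = z 0 := rfl
    have e1 : ((2 : Fin 4).insertNth 1 z : Fin 4 → ℂ) 1 = z 1 := rfl
    have e2 : ((2 : Fin 4).insertNth 1 z : Fin 4 → ℂ) 2 = 1 := rfl
    have e3 : ((2 : Fin 4).insertNth 1 z : Fin 4 → ℂ) 3 = z 2 := rfl
    change gr 1 2 0 z = 0 at hz
    change onLines ((2 : Fin 4).insertNth 1 z) ↔ z 2 = 0
    simp only [gr] at hz
    rw [onLines, e0, e1, e2, e3]
    constructor
    · rintro (⟨-, h⟩ | ⟨-, h⟩)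
      · exact h
      · exact absurd h one_ne_zero
    · intro h
      left
      refine ⟨?_, h⟩
      rw [h] at hz
      simpa using hz
  · have e0 : ((3 : Fin 4).insertNth 1 z : Fin 4 → ℂ) 0 = z 0 := rfl
    have e1 : ((3 : Fin 4).insertNth 1 z : Fin 4 → ℂ) 1 = z 1 := rfl
    have e2 : ((3 : Fin 4).insertNth 1 z : Fin 4 → ℂ) 2 = z 2 := rfl
    have e3 : ((3 : Fin 4).insertNth 1 z : Fin 4 → ℂ) 3 = 1 := rfl
    change gr 0 2 1 z = 0 at hz
    change onLines ((3 : Fin 4).insertNth 1 z) ↔ z 2 = 0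
    simp only [gr] at hz
    rw [onLines, e0, e1, e2, e3]
    constructor
    · rintro (⟨-, h⟩ | ⟨-, h⟩)
      · exact absurd h one_ne_zero
      · exact h
    · intro h
      right
      refine ⟨?_, h⟩
      rw [h] at hz
      simpa using hz

/-- The CR dimension of `Λ` at every point. -/
lemma crDim_compl (v : Fin 4 → ℂ) (hv : v ≠ 0) (h : (Projectivization.mk ℂ v hv : CP3) ∈ DDᶜ)
    (d : ℕ) (hd : (onLines v ∧ d = 2) ∨ (¬ onLines v ∧ d = 1)) :
    HasCRDim DDᶜ (Projectivization.mk ℂ v hv) d := by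
  intro i z hz
  have hz' : affine i z ∈ DDᶜ := by rw [hz]; exact h
  obtain ⟨H, hH, hfr⟩ := crDim_chart i z hz'
  refine ⟨H, hH, ?_⟩
  rw [hfr]
  have hlines : onLines v ↔ z (idx i).2.1 = 0 := by
    rw [← onLines_chart i z hz']
    rw [affine, Projectivization.mk_eq_mk_iff'] at hz
    obtain ⟨t, ht⟩ := hz
    have ht0 : t ≠ 0 := by
      rintro rfl
      rw [zero_smul] at ht
      exact insertNth_ne_zero i z ht.symm
    rw [← ht, onLines_smul t ht0]
  rcases hd with ⟨h1, rfl⟩ | ⟨h1, rfl⟩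
  · rw [if_pos (hlines.mp h1)]
  · rw [if_neg (fun h => h1 (hlines.mpr h))]


lemma HasCRDim.unique {M : Set CP3} {i : Fin 4} {z : Fin 3 → ℂ} {d e : ℕ}
    (hd : HasCRDim M (affine i z) d) (he : HasCRDim M (affine i z) e) : d = e := by
  obtain ⟨H, hH, rfl⟩ := hd i z rfl
  obtain ⟨H', hH', rfl⟩ := he i z rfl
  have : H = H' := by
    ext v
    rw [hH, hH']
  rw [this]

end Pool.Agent.Lib.P17cb1b
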