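import Pool.Agent.Lib.P17cb1b.Arith

/-!
The congruence subgroup of norm one quaternions over `ℤ[ω]`, and its cocompactness in `SL(2,ℂ)`
by Minkowski's convex body theorem.
-/

namespace Pool.Agent.Lib.P17cb1b

open Complex Matrix MeasureTheory

/-- The `2 × 2` matrix of the complexified quaternion `q 0 + q 1 i + q 2 j + q 3 k`. -/
noncomputable def Q (q : Fin 4 → ℂ) : Matrix (Fin 2) (Fin 2) ℂ :=
  !![q 0 + I * q 1, q 2 + I * q 3; -q 2 + I * q 3, q 0 - I * q 1]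

lemma det_Q (q : Fin 4 → ℂ) : (Q q).det = q 0 ^ 2 + q 1 ^ 2 + q 2 ^ 2 + q 3 ^ 2 := by
  rw [Q, Matrix.det_fin_two_of]
  linear_combination (-(q 1 ^ 2) - q 3 ^ 2) * I_sq

/-- Quaternion multiplication. -/
def qmul (p q : Fin 4 → ℂ) : Fin 4 → ℂ :=
  ![p 0 * q 0 - p 1 * q 1 - p 2 * q 2 - p 3 * q 3,
    p 0 * q 1 + p 1 * q 0 + p 2 * q 3 - p 3 * q 2,
    p 0 * q 2 - p 1 * q 3 + p 2 * q 0 + p 3 * q 1,
    p 0 * q 3 + p 1 * q 2 - p 2 * q 1 + p 3 * q 0]

lemma Q_mul (p q : Fin 4 → ℂ) : Q p * Q q = Q (qmul p q) := by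
  ext i j
  fin_cases i <;> fin_cases j <;> simp [Q, qmul, Matrix.mul_apply, Fin.sum_univ_two] <;>
    first
    | linear_combination (p 1 * q 1 + p 3 * q 3) * I_sq
    | linear_combination (p 1 * q 3 - p 3 * q 1) * I_sq
    | linear_combination (-(p 1 * q 3) + p 3 * q 1) * I_sq

/-- Quaternion conjugation. -/
def qconj (q : Fin 4 → ℂ) : Fin 4 → ℂ := ![q 0, -q 1, -q 2, -q 3]

/-- The unit quaternion. -/
def qone : Fin 4 → ℂ := ![1, 0, 0, 0]

lemma Q_one : Q qone = 1 := by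
  ext i j
  fin_cases i <;> fin_cases j <;> simp [Q, qone]

lemma qmul_conj (q : Fin 4 → ℂ) : qmul q (qconj q) = (Q q).det • qone := by
  rw [det_Q]
  ext i
  fin_cases i <;> simp [qmul, qconj, qone] <;> ring

lemma qconj_mul (q : Fin 4 → ℂ) : qmul (qconj q) q = (Q q).det • qone := by
  rw [det_Q]
  ext i
  fin_cases i <;> simp [qmul, qconj, qone] <;> ring

/-- Vectors with all coordinates in `ℤ[ω]`. -/
def Int4 (q : Fin 4 → ℂ) : Prop := ∀ i, q i ∈ OK

lemma Int4.qmul {p q : Fin 4 → ℂ} (hp : Int4 p) (hq : Int4 q) : Int4 (qmul p q) := by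
  intro i
  fin_cases i
  · exact OK.sub_mem (OK.sub_mem (OK.sub_mem (OK.mul_mem (hp 0) (hq 0)) (OK.mul_mem (hp 1) (hq 1)))
      (OK.mul_mem (hp 2) (hq 2))) (OK.mul_mem (hp 3) (hq 3))
  · exact OK.sub_mem (OK.add_mem (OK.add_mem (OK.mul_mem (hp 0) (hq 1)) (OK.mul_mem (hp 1) (hq 0)))
      (OK.mul_mem (hp 2) (hq 3))) (OK.mul_mem (hp 3) (hq 2))
  · exact OK.add_mem (OK.add_mem (OK.sub_mem (OK.mul_mem (hp 0) (hq 2)) (OK.mul_mem (hp 1) (hq 3)))
      (OK.mul_mem (hp 2) (hq 0))) (OK.mul_mem (hp 3) (hq 1))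
  · exact OK.add_mem (OK.sub_mem (OK.add_mem (OK.mul_mem (hp 0) (hq 3)) (OK.mul_mem (hp 1) (hq 2)))
      (OK.mul_mem (hp 2) (hq 1))) (OK.mul_mem (hp 3) (hq 0))

lemma Int4.qconj {q : Fin 4 → ℂ} (hq : Int4 q) : Int4 (qconj q) := by
  intro i
  fin_cases i
  · exact hq 0
  · exact OK.neg_mem (hq 1)
  · exact OK.neg_mem (hq 2)
  · exact OK.neg_mem (hq 3)

lemma Int4.add {p q : Fin 4 → ℂ} (hp : Int4 p) (hq : Int4 q) : Int4 (p + q) :=
  fun i => OK.add_mem (hp i) (hq i)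

lemma Int4.smul {c : ℂ} (hc : c ∈ OK) {q : Fin 4 → ℂ} (hq : Int4 q) : Int4 (c • q) :=
  fun i => OK.mul_mem hc (hq i)

lemma int_mem_OK (n : ℤ) : (n : ℂ) ∈ OK := ⟨n, 0, by simp⟩

lemma Int4.det_mem {q : Fin 4 → ℂ} (hq : Int4 q) : (Q q).det ∈ OK := by
  rw [det_Q]
  exact OK.add_mem (OK.add_mem (OK.add_mem (OK.pow_mem (hq 0) 2) (OK.pow_mem (hq 1) 2))
    (OK.pow_mem (hq 2) 2)) (OK.pow_mem (hq 3) 2)

lemma Int4.det_ne_zero {q : Fin 4 → ℂ} (hq : Int4 q) (h0 : q ≠ 0) : (Q q).det ≠ 0 := by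
  intro h
  rw [det_Q] at h
  obtain ⟨h0', h1, h2, h3⟩ := aniso (hq 0) (hq 1) (hq 2) (hq 3) h
  apply h0
  ext i
  fin_cases i <;> simp_all

/-- The congruence subgroup of level `3`. -/
noncomputable def Gam : Subgroup (SpecialLinearGroup (Fin 2) ℂ) where
  carrier := {M | ∃ q : Fin 4 → ℂ, Int4 q ∧ (M : Matrix (Fin 2) (Fin 2) ℂ) = Q (qone + 3 • q)}
  one_mem' := ⟨0, fun i => by simp, by simp [Q_one]⟩
  mul_mem' := by
    rintro M N ⟨p, hp, hM⟩ ⟨q, hq, hN⟩
    refine ⟨p + q + 3 • qmul p q, ?_, ?_⟩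
    · have h3 : Int4 ((3 : ℂ) • qmul p q) := Int4.smul (by exact_mod_cast int_mem_OK 3) (hp.qmul hq)
      have : (3 : ℕ) • qmul p q = (3 : ℂ) • qmul p q := by
        ext i; simp
      rw [this]
      exact (hp.add hq).add h3
    · refine (show _ = (M : Matrix (Fin 2) (Fin 2) ℂ) * N from rfl).trans ?_
      rw [hM, hN, Q_mul]
      congr 1
      ext i
      fin_cases i <;> simp [qmul, qone, Matrix.vecHead, Matrix.vecTail] <;> ring
  inv_mem' := by
    rintro M ⟨p, hp, hM⟩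
    refine ⟨qconj p, hp.qconj, ?_⟩
    refine (show _ = (M : Matrix (Fin 2) (Fin 2) ℂ).adjugate from rfl).trans ?_
    rw [hM, Q, Matrix.adjugate_fin_two_of]
    ext i j
    fin_cases i <;> fin_cases j <;> simp [Q, qconj, qone] <;> ring

lemma mem_Gam {M : SpecialLinearGroup (Fin 2) ℂ} : M ∈ Gam ↔
    ∃ q : Fin 4 → ℂ, Int4 q ∧ (M : Matrix (Fin 2) (Fin 2) ℂ) = Q (qone + 3 • q) := Iff.rfl

/-- The real basis `1, ω` of `ℂ`. -/
noncomputable def bOm : Module.Basis (Fin 2) ℝ ℂ :=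
  Module.Basis.ofEquivFun
    { toFun := fun z => ![z.re - z.im / Real.sqrt 7, z.im / (Real.sqrt 7 / 2)]
      map_add' := by
        intro x y
        ext i
        fin_cases i <;> simp <;> ring
      map_smul' := by
        intro c x
        ext i
        fin_cases i <;> simp <;> ring
      invFun := fun v => (v 0 : ℂ) + v 1 * om
      left_inv := by
        intro z
        have h := sqrt7_pos.ne'
        apply Complex.ext
        · simp only [add_re, mul_re, ofReal_re, ofReal_im, om_re, om_im, Matrix.cons_val_zero,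
            Matrix.cons_val_one]
          field_simp
          ring
        · simp only [add_im, mul_im, ofReal_re, ofReal_im, om_re, om_im, Matrix.cons_val_zero,
            Matrix.cons_val_one]
          field_simp
          ring
      right_inv := by
        intro v
        have h := sqrt7_pos.ne'
        ext i
        fin_cases i
        · simp only [add_re, mul_re, add_im, mul_im, ofReal_re, ofReal_im, om_re, om_im]
          simp
          field_simp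
          ring
        · simp only [add_re, mul_re, add_im, mul_im, ofReal_re, ofReal_im, om_re, om_im]
          simp }

lemma bOm_repr (z : ℂ) : z = (bOm.repr z 0 : ℂ) + (bOm.repr z 1 : ℂ) * om := by
  have h := bOm.equivFun.symm_apply_apply z
  conv_lhs => rw [← h]
  simp [bOm, Module.Basis.ofEquivFun]

/-- The corresponding real basis of `ℂ⁴`. -/
noncomputable def b4 : Module.Basis (Σ _ : Fin 4, Fin 2) ℝ (Fin 4 → ℂ) :=
  Pi.basis fun _ => bOm

lemma int4_of_mem_span {q : Fin 4 → ℂ} (hq : q ∈ Submodule.span ℤ (Set.range b4)) : Int4 q := by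
  rw [Module.Basis.mem_span_iff_repr_mem] at hq
  intro i
  obtain ⟨a, ha⟩ := hq ⟨i, 0⟩
  obtain ⟨b, hb⟩ := hq ⟨i, 1⟩
  rw [b4, Pi.basis_repr] at ha hb
  refine ⟨a, b, ?_⟩
  rw [bOm_repr (q i), ← ha, ← hb]
  simp

/-- The matrix of the linear map sending `q` to the entries of `B * Q q`. -/
noncomputable def NB (B : Matrix (Fin 2) (Fin 2) ℂ) : Matrix (Fin 4) (Fin 4) ℂ :=
  !![B 0 0, B 0 0 * I, -B 0 1, B 0 1 * I;
     B 0 1, -B 0 1 * I, B 0 0, B 0 0 * I;
     B 1 0, B 1 0 * I, -B 1 1, B 1 1 * I;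
     B 1 1, -B 1 1 * I, B 1 0, B 1 0 * I]

lemma det_NB (B : Matrix (Fin 2) (Fin 2) ℂ) : (NB B).det = 4 * B.det ^ 2 := by
  rw [NB, Matrix.det_fin_two]
  simp [Matrix.det_succ_row_zero, Fin.sum_univ_succ, Fin.succAbove]
  ring_nf
  simp only [I_sq]
  ring

lemma NB_mulVec (B : Matrix (Fin 2) (Fin 2) ℂ) (q : Fin 4 → ℂ) :
    (NB B).mulVec q = ![(B * Q q) 0 0, (B * Q q) 0 1, (B * Q q) 1 0, (B * Q q) 1 1] := by
  ext i
  fin_cases i <;> simp [NB, Q, Matrix.mulVec, dotProduct, Fin.sum_univ_four, Matrix.mul_apply,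
    Fin.sum_univ_two] <;> ring

end Pool.Agent.Lib.P17cb1b
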