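import Pool.Agent.Lib.P17cb1b.Lines
import Pool.Agent.Lib.P17cb1b.Calculus
import Pool.Agent.Lib.P17cb1b.DefsLevi

/-!
# Levi-flatness of the sheets
-/

open scoped LinearAlgebra.Projectivization ContDiff
open Filter Topology

namespace Pool.Agent.Lib.P17cb1b

/-! ### The affine charts -/

lemma continuous_insertNth_one (i : Fin 4) :
    Continuous (fun z : Fin 3 → ℂ => (i.insertNth 1 z : Fin 4 → ℂ)) := by
  refine continuous_pi fun j => ?_
  refine Fin.succAboveCases i ?_ (fun j => ?_) j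
  · simp only [Fin.insertNth_apply_same]
    exact continuous_const
  · simp only [Fin.insertNth_apply_succAbove]
    exact continuous_apply j

lemma continuous_affine (i : Fin 4) : Continuous (affine i) := by
  have h1 : Continuous (fun z : Fin 3 → ℂ =>
      (⟨i.insertNth 1 z, insertNth_ne_zero i z⟩ : {v : Fin 4 → ℂ // v ≠ 0})) :=
    (continuous_insertNth_one i).subtype_mk _
  exact continuous_mk.comp h1

lemma eq_smul_insertNth (i : Fin 4) {v : Fin 4 → ℂ} (hv : v i ≠ 0) :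
    v = v i • (i.insertNth 1 (fun j => (v i)⁻¹ * v (i.succAbove j)) : Fin 4 → ℂ) := by
  ext j
  refine Fin.succAboveCases i ?_ (fun j => ?_) j
  · simp
  · simp only [Pi.smul_apply, Fin.insertNth_apply_succAbove, smul_eq_mul]
    rw [← mul_assoc, mul_inv_cancel₀ hv, one_mul]

lemma isOpen_image_affine (i : Fin 4) {N : Set (Fin 3 → ℂ)} (hN : IsOpen N) :
    IsOpen (affine i '' N) := by
  rw [isOpen_iff]
  have h1 : IsOpen {v : {v : Fin 4 → ℂ // v ≠ 0} | v.1 i ≠ 0} :=
    isOpen_ne.preimage ((continuous_apply i).comp continuous_subtype_val)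
  have h2 : ContinuousOn (fun v : {v : Fin 4 → ℂ // v ≠ 0} =>
      (fun j => (v.1 i)⁻¹ * v.1 (i.succAbove j) : Fin 3 → ℂ)) {v | v.1 i ≠ 0} := by
    refine continuousOn_pi.mpr fun j => ?_
    refine ContinuousOn.mul ?_ ?_
    · exact ContinuousOn.inv₀ ((continuous_apply i).comp continuous_subtype_val).continuousOn
        (fun v hv => hv)
    · exact ((continuous_apply (i.succAbove j)).comp continuous_subtype_val).continuousOn
  have h3 := h2.isOpen_inter_preimage h1 hN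
  convert h3 using 1
  ext ⟨v, hv⟩
  simp only [Set.mem_ofPred_eq, Set.mem_image, Set.mem_inter_iff, Set.mem_preimage]
  constructor
  · rintro ⟨z, hz, h⟩
    rw [affine, Projectivization.mk_eq_mk_iff'] at h
    obtain ⟨a, ha⟩ := h
    have ha0 : a ≠ 0 := by
      rintro rfl
      rw [zero_smul] at ha
      exact insertNth_ne_zero i z ha.symm
    have h4 : a * v i = 1 := by
      have := congrFun ha i
      simpa using this
    have hvi : v i ≠ 0 := by
      intro h0
      rw [h0, mul_zero] at h4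
      exact zero_ne_one h4
    refine ⟨hvi, ?_⟩
    convert hz using 1
    ext j
    have h5 := congrFun ha (i.succAbove j)
    simp only [Pi.smul_apply, Fin.insertNth_apply_succAbove, smul_eq_mul] at h5
    rw [← h5]
    congr 1
    exact inv_eq_of_mul_eq_one_left h4
  · rintro ⟨hvi, hz⟩
    refine ⟨_, hz, ?_⟩
    rw [affine, Projectivization.mk_eq_mk_iff']
    refine ⟨(v i)⁻¹, ?_⟩
    rw [inv_smul_eq_iff₀ hvi]
    exact eq_smul_insertNth i hvi

/-- Every point is in some affine chart. -/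
lemma exists_affine_eq (p : CP3) : ∃ (i : Fin 4) (z : Fin 3 → ℂ), affine i z = p := by
  induction p using Projectivization.ind with
  | h v hv =>
    obtain ⟨i, hi⟩ : ∃ i, v i ≠ 0 := by
      by_contra hcon
      push Not at hcon
      exact hv (funext hcon)
    refine ⟨i, fun j => (v i)⁻¹ * v (i.succAbove j), ?_⟩
    rw [affine, Projectivization.mk_eq_mk_iff']
    refine ⟨(v i)⁻¹, ?_⟩
    rw [inv_smul_eq_iff₀ hi]
    exact eq_smul_insertNth i hi

lemma affine_injective (i : Fin 4) : Function.Injective (affine i) := by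
  intro z w h
  rw [affine, affine, Projectivization.mk_eq_mk_iff'] at h
  obtain ⟨a, ha⟩ := h
  have h1 := congrFun ha i
  simp only [Pi.smul_apply, Fin.insertNth_apply_same, smul_eq_mul, mul_one] at h1
  rw [h1, one_smul] at ha
  ext j
  have h2 := congrFun ha (i.succAbove j)
  simpa using h2.symm

/-- A line germ in homogeneous coordinates gives a line germ in affine coordinates. -/
lemma exists_affine_germ {D : Set CP3} {i : Fin 4} {N : Set (Fin 3 → ℂ)} {w : Fin 4 → ℂ}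
    (hw : w ∈ coneOver (affine i '' N)) (hg : HasLineGerm D w) :
    ∃ (z q : Fin 3 → ℂ), z ∈ N ∧ (∃ h : w ≠ 0, affine i z = Projectivization.mk ℂ w h) ∧ q ≠ 0 ∧
      ∀ᶠ s in 𝓝 (0 : ℂ), affine i (z + s • q) ∉ D := by
  obtain ⟨hw0, z, hz, hzw⟩ := hw
  obtain ⟨q, hq, hs⟩ := hg
  have hzw' := hzw
  rw [affine, Projectivization.mk_eq_mk_iff'] at hzw'
  obtain ⟨a, ha⟩ := hzw'
  have ha0 : a ≠ 0 := by
    rintro rfl
    rw [zero_smul] at ha
    exact insertNth_ne_zero i z ha.symm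
  set b : ℂ := (a • q) i with hb
  set q' : Fin 3 → ℂ := fun j => (a • q) (i.succAbove j) - b * z j with hq'
  have key : ∀ s : ℂ, (i.insertNth 1 (z + s • q') : Fin 4 → ℂ) =
      (1 - s * b) • (i.insertNth 1 z : Fin 4 → ℂ) + s • a • q := by
    intro s
    ext j
    refine Fin.succAboveCases i ?_ (fun j => ?_) j
    · simp only [Fin.insertNth_apply_same, Pi.add_apply, Pi.smul_apply, smul_eq_mul, mul_one, hb]
      ring
    · simp only [Fin.insertNth_apply_succAbove, Pi.add_apply, Pi.smul_apply, smul_eq_mul, hq']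
      ring
  refine ⟨z, q', hz, ⟨hw0, hzw⟩, ?_, ?_⟩
  · intro h0
    have h1 := key 1
    rw [h0, smul_zero, add_zero, one_mul, one_smul] at h1
    have h2 : a • q = b • (i.insertNth 1 z : Fin 4 → ℂ) := by
      rw [sub_smul, one_smul] at h1
      have h3 : (i.insertNth 1 z : Fin 4 → ℂ) + 0 = (i.insertNth 1 z : Fin 4 → ℂ) +
        (a • q - b • (i.insertNth 1 z : Fin 4 → ℂ)) := by
        rw [add_zero]
        nth_rewrite 1 [h1]
        abel
      exact (sub_eq_zero.mp (add_left_cancel h3).symm)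
    rw [← ha, smul_smul] at h2
    apply hq (a⁻¹ * (b * a))
    rw [← smul_smul, ← h2, smul_smul, inv_mul_cancel₀ ha0, one_smul]
  · have h1 : Tendsto (fun s : ℂ => s * (1 - s * b)⁻¹) (𝓝 0) (𝓝 (0 * (1 - 0 * b)⁻¹)) := by
      have h2 : Tendsto (fun s : ℂ => 1 - s * b) (𝓝 0) (𝓝 (1 - 0 * b)) :=
        tendsto_const_nhds.sub (tendsto_id.mul_const b)
      exact tendsto_id.mul (h2.inv₀ (by simp))
    rw [zero_mul] at h1
    have h3 : ∀ᶠ s : ℂ in 𝓝 0, 1 - s * b ≠ 0 := by
      have h2 : Tendsto (fun s : ℂ => 1 - s * b) (𝓝 0) (𝓝 (1 - 0 * b)) :=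
        tendsto_const_nhds.sub (tendsto_id.mul_const b)
      rw [zero_mul, sub_zero] at h2
      exact h2.eventually_ne one_ne_zero
    filter_upwards [h1.eventually hs, h3] with s hs' hs1 hmem
    apply hs'
    have h4 : (i.insertNth 1 (z + s • q') : Fin 4 → ℂ) ∈ coneOver D :=
      ⟨insertNth_ne_zero i _, hmem⟩
    have h5 := smul_mem_coneOver (inv_ne_zero (mul_ne_zero hs1 ha0)) h4
    convert h5 using 1
    rw [key, ← ha, smul_add, smul_smul, smul_smul, smul_smul, smul_smul]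
    congr 1
    · convert (one_smul ℂ w).symm using 2
      field_simp
    · congr 1
      field_simp

/-! ### Tangent spaces of level sets -/

lemma fderiv_eq_zero_of_tangent {M : Set CP3} {i : Fin 4} {z v : Fin 3 → ℂ}
    {F : (Fin 3 → ℂ) → ℂ} (hF : DifferentiableAt ℝ F z)
    (hM : ∀ᶠ x in 𝓝 z, affine i x ∈ M → F x = 0) (hv : v ∈ tangent M i z) :
    fderiv ℝ F z v = 0 := by
  obtain ⟨γ, hγ, h0, hd, hev⟩ := hv
  have h1 : HasDerivAt γ v 0 := by
    rw [← hd]
    exact ((hγ.differentiable (by simp)) 0).hasDerivAt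
  have h2 : HasDerivAt (fun t => F (γ t)) (fderiv ℝ F z v) 0 := by
    have h3 : HasFDerivAt F (fderiv ℝ F z) (γ 0) := by
      rw [h0]; exact hF.hasFDerivAt
    exact h3.comp_hasDerivAt 0 h1
  have h4 : (fun t => F (γ t)) =ᶠ[𝓝 0] fun _ => (0 : ℂ) := by
    have h5 : Tendsto γ (𝓝 0) (𝓝 z) := by
      rw [← h0]; exact hγ.continuous.continuousAt
    filter_upwards [h5.eventually hM, hev] with t ht ht'
    exact ht ht'
  exact h2.unique ((hasDerivAt_const (0 : ℝ) (0 : ℂ)).congr_of_eventuallyEq h4)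

lemma tangent_of_fderiv_eq_zero {M : Set CP3} {i : Fin 4} {z v : Fin 3 → ℂ}
    {V : Set (Fin 3 → ℂ)} {F : (Fin 3 → ℂ) → ℂ} (hV : IsOpen V) (hz : z ∈ V)
    (hF : ContDiffOn ℝ ∞ F V) (hs : Function.Surjective (fderiv ℝ F z))
    (hM : ∀ x ∈ V, (affine i x ∈ M ↔ F x = 0)) (hzM : affine i z ∈ M)
    (hv : fderiv ℝ F z v = 0) : v ∈ tangent M i z := by
  obtain ⟨γ, hγ, h0, hd, hev⟩ := exists_curve hV hF hz hs hv
  refine ⟨γ, hγ, h0, hd, ?_⟩
  have h5 : Tendsto γ (𝓝 0) (𝓝 z) := by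
    rw [← h0]; exact hγ.continuous.continuousAt
  filter_upwards [hev, h5.eventually (hV.mem_nhds hz)] with t ht htV
  rw [hM _ htV, ht]
  exact (hM z hz).mp hzM

/-- Along a line germ in a submanifold of CR dimension one the bracket of two sections of the
complex tangent bundle is annihilated by the differential of the defining function. -/
lemma bracket_of_germ {M : Set CP3} {i : Fin 4} {z q : Fin 3 → ℂ} {V : Set (Fin 3 → ℂ)}
    {F : (Fin 3 → ℂ) → ℂ} (hV : IsOpen V) (hz : z ∈ V) (hF : ContDiffOn ℝ ∞ F V)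
    (hM : ∀ x ∈ V, (affine i x ∈ M ↔ F x = 0)) (hq : q ≠ 0)
    (hgerm : ∀ᶠ s in 𝓝 (0 : ℂ), affine i (z + s • q) ∈ M) (hCR : HasCRDim M (affine i z) 1)
    {X Y : (Fin 3 → ℂ) → (Fin 3 → ℂ)} (hX : ContDiffOn ℝ ∞ X V) (hY : ContDiffOn ℝ ∞ Y V)
    (hXY : ∀ x ∈ V, affine i x ∈ M → X x ∈ ctangent M i x ∧ Y x ∈ ctangent M i x) :
    fderiv ℝ F z (VectorField.lieBracket ℝ X Y z) = 0 ∧
      fderiv ℝ F z (Complex.I • VectorField.lieBracket ℝ X Y z) = 0 := by
  have hzM : affine i z ∈ M := by simpa using hgerm.self_of_nhds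
  have hF' : ∀ x ∈ V, ContDiffAt ℝ ∞ F x := fun x hx => hF.contDiffAt (hV.mem_nhds hx)
  -- smooth lines
  have hline : ∀ a : ℂ, ContDiff ℝ ∞ (fun t : ℝ => z + t • a • q) := by
    intro a
    fun_prop
  have hlined : ∀ a : ℂ, HasDerivAt (fun t : ℝ => z + t • a • q) (a • q) 0 := by
    intro a
    have := ((hasDerivAt_id (0 : ℝ)).smul_const (a • q)).const_add z
    simpa using this
  have hlineM : ∀ a : ℂ, ∀ᶠ t in 𝓝 (0 : ℝ), affine i (z + t • a • q) ∈ M := by
    intro a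
    have h1 : Tendsto (fun t : ℝ => (t : ℂ) * a) (𝓝 0) (𝓝 ((0 : ℝ) * a)) :=
      (Complex.continuous_ofReal.tendsto 0).mul_const a
    rw [Complex.ofReal_zero, zero_mul] at h1
    filter_upwards [h1.eventually hgerm] with t ht
    have e : (t : ℝ) • a • q = ((t : ℂ) * a) • q := by
      rw [mul_smul, Complex.coe_smul]
    rw [e]
    exact ht
  have htan : ∀ a : ℂ, a • q ∈ tangent M i z := fun a =>
    ⟨fun t => z + t • a • q, hline a, by simp, (hlined a).deriv, hlineM a⟩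
  -- the complex tangent space is spanned by `q`
  obtain ⟨H, hH, hfr⟩ := hCR i z rfl
  have hqH : q ∈ H := by
    rw [hH]
    refine ⟨?_, ?_⟩
    · simpa using htan 1
    · exact htan Complex.I
  have hspan : ∀ v ∈ ctangent M i z, ∃ a : ℂ, v = a • q := by
    intro v hv
    have hvH : v ∈ H := (hH v).mpr hv
    have hq' : (⟨q, hqH⟩ : H) ≠ 0 := fun h => hq (congrArg Subtype.val h)
    obtain ⟨a, ha⟩ := (finrank_eq_one_iff_of_nonzero' (⟨q, hqH⟩ : H) hq').mp hfr ⟨v, hvH⟩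
    exact ⟨a, (congrArg Subtype.val ha).symm⟩
  obtain ⟨x, hx⟩ := hspan _ (hXY z hz hzM).1
  obtain ⟨y, hy⟩ := hspan _ (hXY z hz hzM).2
  -- differentiate along the lines
  have hd1 : HasFDerivAt (fderiv ℝ F) (fderiv ℝ (fderiv ℝ F) z) z :=
    (((hF' z hz).fderiv_right (m := ∞) (by simp)).differentiableAt (by simp)).hasFDerivAt
  have hdiff : ∀ (Z : (Fin 3 → ℂ) → (Fin 3 → ℂ)) (a : ℂ), DifferentiableAt ℝ Z z →
      (∀ᶠ t in 𝓝 (0 : ℝ), fderiv ℝ F (z + t • a • q) (Z (z + t • a • q)) = 0) →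
      fderiv ℝ (fderiv ℝ F) z (a • q) (Z z) + fderiv ℝ F z (fderiv ℝ Z z (a • q)) = 0 := by
    intro Z a hZ hev
    have h1 : HasFDerivAt (fun w => fderiv ℝ F w (Z w))
        ((fderiv ℝ F z).comp (fderiv ℝ Z z) + (fderiv ℝ (fderiv ℝ F) z).flip (Z z)) z :=
      hd1.clm_apply hZ.hasFDerivAt
    have h2 : HasFDerivAt (fun w => fderiv ℝ F w (Z w))
        ((fderiv ℝ F z).comp (fderiv ℝ Z z) + (fderiv ℝ (fderiv ℝ F) z).flip (Z z))
        ((fun t : ℝ => z + t • a • q) 0) := by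
      simpa using h1
    have h3 := h2.comp_hasDerivAt 0 (hlined a)
    have h4 : HasDerivAt ((fun w => fderiv ℝ F w (Z w)) ∘ fun t : ℝ => z + t • a • q) 0 0 :=
      (hasDerivAt_const (0 : ℝ) (0 : ℂ)).congr_of_eventuallyEq hev
    have h5 := h3.unique h4
    rw [add_comm]
    simpa using h5
  have hzero : ∀ a b : ℂ, fderiv ℝ (fderiv ℝ F) z (a • q) (b • q) = 0 := by
    intro a b
    have h1 := hdiff (fun _ => b • q) a (differentiableAt_const _) ?_
    · simpa using h1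
    · -- `F` vanishes near the line germ
      have h2 : ∀ᶠ s in 𝓝 (0 : ℂ), ∀ᶠ s' in 𝓝 s, affine i (z + s' • q) ∈ M :=
        hgerm.eventually_nhds
      have h3 : Tendsto (fun t : ℝ => (t : ℂ) * a) (𝓝 0) (𝓝 ((0 : ℝ) * a)) :=
        (Complex.continuous_ofReal.tendsto 0).mul_const a
      rw [Complex.ofReal_zero, zero_mul] at h3
      have h4 : ∀ᶠ t in 𝓝 (0 : ℝ), z + t • a • q ∈ V := by
        have h5 : Tendsto (fun t : ℝ => z + t • a • q) (𝓝 0) (𝓝 z) := by
          have := (hline a).continuous.tendsto 0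
          simpa using this
        exact h5.eventually (hV.mem_nhds hz)
      filter_upwards [h3.eventually h2, h4] with t ht htV
      refine fderiv_eq_zero_of_tangent ((hF' _ htV).differentiableAt (by simp)) (M := M) (i := i)
        ?_ ?_
      · filter_upwards [hV.mem_nhds htV] with w hw hwM
        exact (hM w hw).mp hwM
      · have h6 : ContDiff ℝ ∞ (fun u : ℝ => z + t • a • q + u • b • q) := by fun_prop
        refine ⟨fun u => z + t • a • q + u • b • q, h6, by simp, ?_, ?_⟩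
        · have := ((hasDerivAt_id (0 : ℝ)).smul_const (b • q)).const_add (z + t • a • q)
          have h7 : HasDerivAt (fun u : ℝ => z + t • a • q + u • b • q) (b • q) 0 := by
            simpa using this
          exact h7.deriv
        · have h7 : Tendsto (fun u : ℝ => (t : ℂ) * a + (u : ℂ) * b) (𝓝 0)
              (𝓝 ((t : ℂ) * a + (0 : ℝ) * b)) :=
            tendsto_const_nhds.add ((Complex.continuous_ofReal.tendsto 0).mul_const b)
          rw [Complex.ofReal_zero, zero_mul, add_zero] at h7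
          filter_upwards [h7.eventually ht] with u hu
          have e : z + t • a • q + u • b • q = z + ((t : ℂ) * a + (u : ℂ) * b) • q := by
            rw [add_smul, mul_smul, mul_smul, Complex.coe_smul, Complex.coe_smul, add_assoc]
          rw [e]
          exact hu
  have hXd : DifferentiableAt ℝ X z := (hX.contDiffAt (hV.mem_nhds hz)).differentiableAt (by simp)
  have hYd : DifferentiableAt ℝ Y z := (hY.contDiffAt (hV.mem_nhds hz)).differentiableAt (by simp)
  have hsec : ∀ (Z : (Fin 3 → ℂ) → (Fin 3 → ℂ)) (a : ℂ),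
      (∀ x ∈ V, affine i x ∈ M → Z x ∈ tangent M i x) →
      ∀ᶠ t in 𝓝 (0 : ℝ), fderiv ℝ F (z + t • a • q) (Z (z + t • a • q)) = 0 := by
    intro Z a hZ
    have h4 : ∀ᶠ t in 𝓝 (0 : ℝ), z + t • a • q ∈ V := by
      have h5 : Tendsto (fun t : ℝ => z + t • a • q) (𝓝 0) (𝓝 z) := by
        have := (hline a).continuous.tendsto 0
        simpa using this
      exact h5.eventually (hV.mem_nhds hz)
    filter_upwards [hlineM a, h4] with t ht htV
    refine fderiv_eq_zero_of_tangent ((hF' _ htV).differentiableAt (by simp)) (M := M) (i := i)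
      ?_ (hZ _ htV ht)
    filter_upwards [hV.mem_nhds htV] with w hw hwM
    exact (hM w hw).mp hwM
  have hIX : fderiv ℝ (fun w => Complex.I • X w) z = Complex.I • fderiv ℝ X z := by
    have h1 : HasFDerivAt (fun w => Complex.I • X w) (Complex.I • fderiv ℝ X z) z :=
      hXd.hasFDerivAt.const_smul Complex.I
    exact h1.fderiv
  have hIY : fderiv ℝ (fun w => Complex.I • Y w) z = Complex.I • fderiv ℝ Y z := by
    have h1 : HasFDerivAt (fun w => Complex.I • Y w) (Complex.I • fderiv ℝ Y z) z :=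
      hYd.hasFDerivAt.const_smul Complex.I
    exact h1.fderiv
  have e1 := hdiff Y x hYd (hsec Y x fun w hw hwM => (hXY w hw hwM).2.1)
  have e2 := hdiff X y hXd (hsec X y fun w hw hwM => (hXY w hw hwM).1.1)
  have e3 := hdiff (fun w => Complex.I • Y w) x (hYd.const_smul Complex.I)
    (hsec _ x fun w hw hwM => (hXY w hw hwM).2.2)
  have e4 := hdiff (fun w => Complex.I • X w) y (hXd.const_smul Complex.I)
    (hsec _ y fun w hw hwM => (hXY w hw hwM).1.2)
  rw [hIX] at e4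
  rw [hIY] at e3
  rw [hy, hzero, zero_add] at e1
  rw [hx, hzero, zero_add] at e2
  rw [hy, smul_smul, hzero, zero_add] at e3
  rw [hx, smul_smul, hzero, zero_add] at e4
  have hbr : VectorField.lieBracket ℝ X Y z = fderiv ℝ Y z (x • q) - fderiv ℝ X z (y • q) := by
    rw [VectorField.lieBracket, hx, hy]
  rw [hbr]
  constructor
  · rw [map_sub, e1, e2, sub_zero]
  · rw [smul_sub, map_sub]
    have e3' : fderiv ℝ F z (Complex.I • fderiv ℝ Y z (x • q)) = 0 := e3
    have e4' : fderiv ℝ F z (Complex.I • fderiv ℝ X z (y • q)) = 0 := e4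
    rw [e3', e4', sub_zero]

/-! ### Simple points -/

/-- Close to any point of a submanifold contained in `Λ` there is a point near which `Λ` agrees
with the submanifold. -/
lemma exists_simple {Λ M : Set CP3} (hΛ : IsLocallyUnionOfSheets Λ) (hM : IsSmoothEmbedded4 M)
    (hMΛ : M ⊆ Λ) {i : Fin 4} {z : Fin 3 → ℂ} (hz : affine i z ∈ M) {N : Set (Fin 3 → ℂ)}
    (hN : IsOpen N) (hzN : z ∈ N) :
    ∃ (w : Fin 3 → ℂ) (N' : Set (Fin 3 → ℂ)), IsOpen N' ∧ N' ⊆ N ∧ w ∈ N' ∧ affine i w ∈ M ∧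
      ∀ x ∈ N', affine i x ∈ Λ → affine i x ∈ M := by
  classical
  obtain ⟨U, n, S, hU, hzU, hS, hΛU⟩ := hΛ _ (hMΛ hz)
  -- choose a point which lies on the smallest possible number of sheets
  set N₁ := N ∩ affine i ⁻¹' U with hN₁
  have hN₁o : IsOpen N₁ := hN.inter (hU.preimage (continuous_affine i))
  let J : (Fin 3 → ℂ) → Finset (Fin n) := fun x => Finset.univ.filter fun j => affine i x ∈ S j
  have hJ : ∀ x j, j ∈ J x ↔ affine i x ∈ S j := fun x j => by simp [J]
  have hex : ∃ k, ∃ x ∈ N₁, affine i x ∈ M ∧ (J x).card = k :=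
    ⟨_, z, ⟨hzN, hzU⟩, hz, rfl⟩
  obtain ⟨w, hwN₁, hwM, hwk⟩ := Nat.find_spec hex
  have hmin : ∀ x ∈ N₁, affine i x ∈ M → (J w).card ≤ (J x).card := by
    intro x hx hxM
    rw [hwk]
    exact Nat.find_min' hex ⟨x, hx, hxM, rfl⟩
  -- nearby points do not lie on other sheets
  have hout : ∀ j, j ∉ J w → ∀ᶠ x in 𝓝 w, affine i x ∉ S j := by
    intro j hj
    have h1 : affine i w ∈ U \ S j := ⟨hwN₁.2, fun h => hj ((hJ w j).mpr h)⟩
    filter_upwards [((hS j).2.2.preimage (continuous_affine i)).mem_nhds h1] with x hx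
    exact hx.2
  have hout' : ∀ᶠ x in 𝓝 w, ∀ j, j ∉ J w → affine i x ∉ S j := by
    rw [Filter.eventually_all]
    intro j
    by_cases hj : j ∈ J w
    · exact Filter.Eventually.of_forall fun x h => absurd hj h
    · filter_upwards [hout j hj] with x hx _
      exact hx
  have hin : ∀ᶠ x in 𝓝 w, affine i x ∈ M → ∀ j, j ∈ J w → affine i x ∈ S j := by
    filter_upwards [hout', hN₁o.mem_nhds hwN₁] with x hx hxN hxM j hj
    have h1 : J x ⊆ J w := by
      intro j' hj'
      by_contra hcon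
      exact hx j' hcon ((hJ x j').mp hj')
    have h2 := Finset.eq_of_subset_of_card_le h1 (hmin x hxN hxM)
    rw [← hJ, h2]
    exact hj
  -- the sheets through `w` agree with `M` near `w`
  have hback : ∀ᶠ x in 𝓝 w, ∀ j, j ∈ J w → affine i x ∈ S j → affine i x ∈ M := by
    rw [Filter.eventually_all]
    intro j
    by_cases hj : j ∈ J w
    swap
    · exact Filter.Eventually.of_forall fun x h => absurd h hj
    obtain ⟨V₁, F, hV₁, hw₁, hF, hFs, hFM⟩ := hM i w hwM
    obtain ⟨V₂, G, hV₂, hw₂, hG, hGs, hGS⟩ := (hS j).1 i w ((hJ w j).mp hj)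
    have h1 : ∀ᶠ x in 𝓝 w, F x = 0 → G x = 0 := by
      filter_upwards [hin, hV₁.mem_nhds hw₁, hV₂.mem_nhds hw₂] with x hx h1 h2 hFx
      exact (hGS x h2).mp (hx ((hFM x h1).mpr hFx) j hj)
    have h2 := zero_set_eq (hV₁.inter hV₂) (hF.mono Set.inter_subset_left)
      (hG.mono Set.inter_subset_right) ⟨hw₁, hw₂⟩ (hFs w hw₁) (hGs w hw₂) ((hFM w hw₁).mp hwM) h1
    filter_upwards [h2, hV₁.mem_nhds hw₁, hV₂.mem_nhds hw₂] with x hx h1 h2 _ hxS
    exact (hFM x h1).mpr (hx ((hGS x h2).mp hxS))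
  have hfin : ∀ᶠ x in 𝓝 w, x ∈ N₁ ∧ (affine i x ∈ Λ → affine i x ∈ M) := by
    filter_upwards [hback, hout', hN₁o.mem_nhds hwN₁] with x h1 h2 h3
    refine ⟨h3, fun hxΛ => ?_⟩
    have h4 : affine i x ∈ Λ ∩ U := ⟨hxΛ, h3.2⟩
    rw [hΛU, Set.mem_iUnion] at h4
    obtain ⟨j, hj⟩ := h4
    by_cases hjw : j ∈ J w
    · exact h1 j hjw hj
    · exact absurd hj (h2 j hjw)
  obtain ⟨N', hN', hN'o, hwN'⟩ := eventually_nhds_iff.mp hfin
  exact ⟨w, N', hN'o, fun x hx => (hN' x hx).1.1, hwN', hwM, fun x hx => (hN' x hx).2⟩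

/-- **Line germs are dense in every sheet.** -/
theorem exists_germ_near {D : Set CP3} {Γ : Subgroup (GL (Fin 4) ℂ)} (hD : IsOpen D)
    (h : ActsCocompactly D Γ) (hΛ : IsLocallyUnionOfSheets Dᶜ) {M : Set CP3}
    (hM : IsSmoothEmbedded4 M) (hMD : M ⊆ Dᶜ) {i : Fin 4} {z : Fin 3 → ℂ}
    (hzM : affine i z ∈ M) {N : Set (Fin 3 → ℂ)} (hN : IsOpen N) (hzN : z ∈ N) :
    ∃ z' ∈ N, ∃ q : Fin 3 → ℂ, q ≠ 0 ∧ ∀ᶠ s in 𝓝 (0 : ℂ), affine i (z' + s • q) ∈ M := by
  obtain ⟨V₁, F, hV₁, hz₁, hF, hFs, hFM⟩ := hM i z hzM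
  obtain ⟨w, N', hN', hN'N, hw, hwM, hN'M⟩ :=
    exists_simple hΛ hM hMD hzM (hN.inter hV₁) ⟨hzN, hz₁⟩
  have hN'V : N' ⊆ V₁ := fun x hx => (hN'N hx).2
  have hclos : ∀ x ∈ N', affine i x ∈ M → affine i x ∈ closure D := by
    intro x hx hxM
    rw [mem_closure_iff]
    intro O hO hxO
    have h1 : ∃ᶠ y in 𝓝 x, F y ≠ 0 := by
      intro hev'
      have h2 : F =ᶠ[𝓝 x] fun _ => (0 : ℂ) := by
        filter_upwards [hev'] with y hy
        exact not_not.mp hy
      have h3 : fderiv ℝ F x = 0 := by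
        rw [h2.fderiv_eq]
        simp
      obtain ⟨v, hv⟩ := hFs x (hN'V hx) 1
      rw [h3] at hv
      exact zero_ne_one hv
    have h2 : ∀ᶠ y in 𝓝 x, y ∈ N' ∧ affine i y ∈ O := by
      filter_upwards [hN'.mem_nhds hx, (hO.preimage (continuous_affine i)).mem_nhds hxO] with y h3 h4
      exact ⟨h3, h4⟩
    obtain ⟨y, hy, hyN, hyO⟩ := (h1.and_eventually h2).exists
    refine ⟨affine i y, hyO, ?_⟩
    by_contra hyD
    exact hy ((hFM y (hN'V hyN)).mp (hN'M y hyN hyD))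
  -- a second point
  obtain ⟨w', hw', hw'M, hne'⟩ : ∃ w' ∈ N', affine i w' ∈ M ∧ w' ≠ w := by
    obtain ⟨v, hv, hv0⟩ : ∃ v, fderiv ℝ F w v = 0 ∧ v ≠ 0 := by
      by_contra hcon'
      push Not at hcon'
      have hinj : Function.Injective (fderiv ℝ F w) := by
        rw [injective_iff_map_eq_zero]
        exact hcon'
      have h1 := LinearMap.finrank_le_finrank_of_injective
        (f := (fderiv ℝ F w : (Fin 3 → ℂ) →ₗ[ℝ] ℂ)) hinj
      rw [Module.finrank_pi_fintype, Complex.finrank_real_complex] at h1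
      simp at h1
    obtain ⟨γ, hγ, h0, hd, hev'⟩ := exists_curve hV₁ hF (hN'V hw) (hFs w (hN'V hw)) hv
    have h1 : HasDerivAt γ v 0 := by
      rw [← hd]
      exact ((hγ.differentiable (by simp)) 0).hasDerivAt
    have h2 := h1.eventually_ne (c := γ 0) hv0
    have h3 : Tendsto γ (𝓝[≠] 0) (𝓝 w) := by
      rw [← h0]; exact hγ.continuous.continuousAt.tendsto.mono_left nhdsWithin_le_nhds
    obtain ⟨t, ht1, ht2, ht3⟩ := (h2.and ((hev'.filter_mono nhdsWithin_le_nhds).and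
      (h3.eventually (hN'.mem_nhds hw)))).exists
    refine ⟨γ t, ht3, ?_, by rw [← h0]; exact ht1⟩
    rw [hFM _ (hN'V ht3), ht2]
    exact (hFM w (hN'V hw)).mp hwM
  obtain ⟨v, hvW, hvD, hvg⟩ := exists_hasLineGerm hD h (isOpen_image_affine i hN')
    (insertNth_ne_zero i w) (insertNth_ne_zero i w') (fun heq => hne' (affine_injective i heq))
    ⟨w, hw, rfl⟩ (fun hmem => hMD hwM hmem) (hclos w hw hwM)
    ⟨w', hw', rfl⟩ (fun hmem => hMD hw'M hmem) (hclos w' hw' hw'M)
  obtain ⟨z₃, q, hz₃, -, hq, hg⟩ := exists_affine_germ hvW hvg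
  refine ⟨z₃, (hN'N hz₃).1, q, hq, ?_⟩
  have h1 : Tendsto (fun s : ℂ => z₃ + s • q) (𝓝 0) (𝓝 (z₃ + (0 : ℂ) • q)) :=
    tendsto_const_nhds.add (tendsto_id.smul_const q)
  rw [zero_smul, add_zero] at h1
  filter_upwards [hg, h1.eventually (hN'.mem_nhds hz₃)] with s hs hs'
  exact hN'M _ hs' hs

/-- **Levi-flatness** of a submanifold of CR dimension one with a dense set of line germs. -/
theorem isLeviFlat_of_germs {M : Set CP3} (hM : IsSmoothEmbedded4 M)
    (hgerm : ∀ (i : Fin 4) (z : Fin 3 → ℂ), affine i z ∈ M → ∀ N : Set (Fin 3 → ℂ), IsOpen N →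
      z ∈ N → ∃ z' ∈ N, ∃ q : Fin 3 → ℂ, q ≠ 0 ∧ ∀ᶠ s in 𝓝 (0 : ℂ), affine i (z' + s • q) ∈ M)
    (hCR : ∀ p ∈ M, HasCRDim M p 1) : IsLeviFlat M := by
  intro i V X Y hV hX hY hXY z hz hzM
  by_contra hcon
  obtain ⟨V₁, F, hV₁, hz₁, hF, hFs, hFM⟩ := hM i z hzM
  have hF' : ∀ x ∈ V₁, ContDiffAt ℝ ∞ F x := fun x hx => hF.contDiffAt (hV₁.mem_nhds hx)
  have hXz := hX.contDiffAt (hV.mem_nhds hz)
  have hYz := hY.contDiffAt (hV.mem_nhds hz)
  set L := VectorField.lieBracket ℝ X Y with hL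
  have hne : fderiv ℝ F z (L z) ≠ 0 ∨ fderiv ℝ F z (Complex.I • L z) ≠ 0 := by
    by_contra hcon'
    push Not at hcon'
    exact hcon ⟨tangent_of_fderiv_eq_zero hV₁ hz₁ hF (hFs z hz₁) hFM hzM hcon'.1,
      tangent_of_fderiv_eq_zero hV₁ hz₁ hF (hFs z hz₁) hFM hzM hcon'.2⟩
  have hLc : ContinuousAt L z := by
    have h1 : ContinuousAt (fun x => fderiv ℝ Y x (X x) - fderiv ℝ X x (Y x)) z :=
      ((hYz.fderiv_right (m := ∞) (by simp)).continuousAt.clm_apply hXz.continuousAt).sub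
        ((hXz.fderiv_right (m := ∞) (by simp)).continuousAt.clm_apply hYz.continuousAt)
    exact h1
  have hFc : ContinuousAt (fderiv ℝ F) z :=
    ((hF' z hz₁).fderiv_right (m := ∞) (by simp)).continuousAt
  have hev : ∀ᶠ x in 𝓝 z, x ∈ V ∩ V₁ ∧
      (fderiv ℝ F x (L x) ≠ 0 ∨ fderiv ℝ F x (Complex.I • L x) ≠ 0) := by
    have h0 : ∀ᶠ x in 𝓝 z, x ∈ V ∩ V₁ := (hV.inter hV₁).mem_nhds ⟨hz, hz₁⟩
    rcases hne with h1 | h1
    · have h2 : ContinuousAt (fun x => fderiv ℝ F x (L x)) z := hFc.clm_apply hLc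
      filter_upwards [h0, h2.eventually_ne h1] with x hx hx'
      exact ⟨hx, Or.inl hx'⟩
    · have h2 : ContinuousAt (fun x => fderiv ℝ F x (Complex.I • L x)) z :=
        hFc.clm_apply (hLc.const_smul Complex.I)
      filter_upwards [h0, h2.eventually_ne h1] with x hx hx'
      exact ⟨hx, Or.inr hx'⟩
  obtain ⟨N, hNs, hN, hzN⟩ := eventually_nhds_iff.mp hev
  obtain ⟨z₃, hz₃, q, hq, hg'⟩ := hgerm i z hzM N hN hzN
  have hz₃V : z₃ ∈ V ∩ V₁ := (hNs z₃ hz₃).1
  have hz₃M : affine i z₃ ∈ M := by simpa using hg'.self_of_nhds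
  have hb := bracket_of_germ (hV.inter hV₁) hz₃V (hF.mono Set.inter_subset_right)
    (fun x hx => hFM x hx.2) hq hg' (hCR _ hz₃M) (hX.mono Set.inter_subset_left)
    (hY.mono Set.inter_subset_left) (fun x hx hxM => hXY x hx.1 hxM)
  rcases (hNs z₃ hz₃).2 with h1 | h1
  · exact h1 hb.1
  · exact h1 hb.2

end Pool.Agent.Lib.P17cb1b
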