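import Pool.Agent.Lib.P17cb1b.Cones
import Pool.Agent.Lib.P17cb1b.Geometry

/-!
# Germs of projective lines in the complement of a covering domain
-/

open scoped LinearAlgebra.Projectivization
open Filter Topology

namespace Pool.Agent.Lib.P17cb1b

/-- The cone over a subset of `ℂP³`. -/
def coneOver (D : Set CP3) : Set (Fin 4 → ℂ) :=
  {v | ∃ h : v ≠ 0, (Projectivization.mk ℂ v h : CP3) ∈ D}

lemma mem_coneOver {D : Set CP3} {v : Fin 4 → ℂ} (hv : v ≠ 0) :
    v ∈ coneOver D ↔ (Projectivization.mk ℂ v hv : CP3) ∈ D :=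
  ⟨fun ⟨_, h⟩ => h, fun h => ⟨hv, h⟩⟩

lemma mk_smul_eq {v : Fin 4 → ℂ} (hv : v ≠ 0) {c : ℂ} (hc : c ≠ 0) :
    (Projectivization.mk ℂ (c • v) (smul_ne_zero hc hv) : CP3) = Projectivization.mk ℂ v hv := by
  rw [Projectivization.mk_eq_mk_iff']
  exact ⟨c, rfl⟩

lemma isOpen_coneOver {D : Set CP3} (hD : IsOpen D) : IsOpen (coneOver D) := by
  rw [isOpen_iff] at hD
  have h1 : IsOpen {v : Fin 4 → ℂ | v ≠ 0} := isOpen_ne
  have h2 := h1.isOpenEmbedding_subtypeVal.isOpenMap _ hD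
  convert h2 using 1
  ext v
  constructor
  · rintro ⟨hv, h⟩
    exact ⟨⟨v, hv⟩, h, rfl⟩
  · rintro ⟨⟨w, hw⟩, h, rfl⟩
    exact ⟨hw, h⟩

lemma smul_mem_coneOver {D : Set CP3} {c : ℂ} (hc : c ≠ 0) {v : Fin 4 → ℂ} (hv : v ∈ coneOver D) :
    c • v ∈ coneOver D := by
  obtain ⟨h0, h⟩ := hv
  refine ⟨smul_ne_zero hc h0, ?_⟩
  rwa [mk_smul_eq h0 hc]

/-- The projection of an open set of nonzero vectors is open. -/
lemma isOpen_image_mk {U : Set (Fin 4 → ℂ)} (hU : IsOpen U) :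
    IsOpen {p : CP3 | ∃ (v : Fin 4 → ℂ) (hv : v ≠ 0), v ∈ U ∧ p = Projectivization.mk ℂ v hv} := by
  rw [isOpen_iff]
  have h1 : IsOpen (⋃ c : {c : ℂ // c ≠ 0}, (fun v : Fin 4 → ℂ => c.1 • v) ⁻¹' U) :=
    isOpen_iUnion fun c => hU.preimage (continuous_const_smul c.1)
  have h2 := h1.preimage (continuous_subtype_val : Continuous
    (Subtype.val : {v : Fin 4 → ℂ // v ≠ 0} → (Fin 4 → ℂ)))
  convert h2 using 1
  ext ⟨v, hv⟩
  simp only [Set.mem_ofPred_eq, Set.mem_preimage, Set.mem_iUnion, Subtype.exists]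
  constructor
  · rintro ⟨w, hw, hwU, h⟩
    rw [Projectivization.mk_eq_mk_iff'] at h
    obtain ⟨a, ha⟩ := h
    have ha0 : a ≠ 0 := by
      rintro rfl
      rw [zero_smul] at ha
      exact hv ha.symm
    refine ⟨a⁻¹, inv_ne_zero ha0, ?_⟩
    rw [← ha, smul_smul, inv_mul_cancel₀ ha0, one_smul]
    exact hwU
  · rintro ⟨c, hc, h⟩
    exact ⟨c • v, smul_ne_zero hc hv, h, (mk_smul_eq hv hc).symm⟩

/-- The linear representation of a group of projective transformations. -/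
noncomputable def linRep (Γ : Subgroup (GL (Fin 4) ℂ)) : Γ →* ((Fin 4 → ℂ) →L[ℂ] (Fin 4 → ℂ)) where
  toFun g := LinearMap.toContinuousLinearMap (Matrix.mulVecLin (g.1 : Matrix (Fin 4) (Fin 4) ℂ))
  map_one' := by
    ext v i
    simp
  map_mul' a b := by
    ext v i
    simp [Matrix.mulVec_mulVec]

lemma linRep_apply (Γ : Subgroup (GL (Fin 4) ℂ)) (g : Γ) (v : Fin 4 → ℂ) :
    linRep Γ g v = (g.1 : Matrix (Fin 4) (Fin 4) ℂ).mulVec v := rfl

lemma linRep_ne_zero (Γ : Subgroup (GL (Fin 4) ℂ)) (g : Γ) {v : Fin 4 → ℂ} (hv : v ≠ 0) :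
    linRep Γ g v ≠ 0 := by
  intro h
  apply hv
  have h1 : (linRep Γ g⁻¹ * linRep Γ g) v = v := by
    rw [← map_mul, inv_mul_cancel, map_one]
    rfl
  rw [← h1]
  change linRep Γ g⁻¹ (linRep Γ g v) = 0
  rw [h, map_zero]

lemma smul_mk (Γ : Subgroup (GL (Fin 4) ℂ)) (g : Γ) (v : Fin 4 → ℂ) (hv : v ≠ 0) :
    g.1 • (Projectivization.mk ℂ v hv : CP3) =
      Projectivization.mk ℂ (linRep Γ g v) (linRep_ne_zero Γ g hv) := rfl

/-- A group of linear maps which acts properly discontinuously and cocompactly on `D`. -/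
structure ActsCocompactly (D : Set CP3) (Γ : Subgroup (GL (Fin 4) ℂ)) : Prop where
  maps : ∀ g ∈ Γ, ∀ x ∈ D, g • x ∈ D
  properlyDiscontinuous : ∀ K ⊆ D, IsCompact K →
    {g : GL (Fin 4) ℂ | g ∈ Γ ∧ ∃ x ∈ K, g • x ∈ K}.Finite
  cocompact : ∃ K ⊆ D, IsCompact K ∧ ∀ x ∈ D, ∃ g ∈ Γ, g • x ∈ K

/-- The cone attached to a covering domain. -/
noncomputable def coneOf {D : Set CP3} {Γ : Subgroup (GL (Fin 4) ℂ)} (hD : IsOpen D)
    (h : ActsCocompactly D Γ) : Cone Γ (Fin 4 → ℂ) where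
  ρ := linRep Γ
  Ω := coneOver D
  isOpen := isOpen_coneOver hD
  zero := fun ⟨h0, _⟩ => h0 rfl
  smul_mem := fun c hc v hv => smul_mem_coneOver hc hv
  maps := by
    rintro g v ⟨hv, hvD⟩
    refine ⟨linRep_ne_zero Γ g hv, ?_⟩
    rw [← smul_mk Γ g v hv]
    exact h.maps g.1 g.2 _ hvD
  escape := by
    intro g z c z₀ q hg hz hz₀ hlim hq
    have hΩ := isOpen_coneOver hD
    obtain ⟨r₁, hr₁, hb₁⟩ := Metric.isOpen_iff.mp hΩ z₀ hz₀
    obtain ⟨r₂, hr₂, hb₂⟩ := Metric.isOpen_iff.mp hΩ q hq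
    have hb₁' : Metric.closedBall z₀ (r₁ / 2) ⊆ coneOver D :=
      (Metric.closedBall_subset_ball (by linarith)).trans hb₁
    have hb₂' : Metric.closedBall q (r₂ / 2) ⊆ coneOver D :=
      (Metric.closedBall_subset_ball (by linarith)).trans hb₂
    set A := Metric.closedBall z₀ (r₁ / 2) ∪ Metric.closedBall q (r₂ / 2) with hA
    have hAc : IsCompact A := (isCompact_closedBall _ _).union (isCompact_closedBall _ _)
    have hAΩ : A ⊆ coneOver D := Set.union_subset hb₁' hb₂'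
    have hK := isCompact_sub A hAc (fun v hv => (hAΩ hv).1)
    have hfin := h.properlyDiscontinuous _ (by
      rintro _ ⟨v, hv, hvA, rfl⟩
      exact (hAΩ hvA).2) hK
    have h1 : ∀ᶠ k in atTop, z k ∈ Metric.closedBall z₀ (r₁ / 2) :=
      hz.eventually (Metric.closedBall_mem_nhds _ (by linarith))
    have h2 : ∀ᶠ k in atTop, c k • linRep Γ (g k) (z k) ∈ Metric.closedBall q (r₂ / 2) :=
      hlim.eventually (Metric.closedBall_mem_nhds _ (by linarith))
    have hfin' : {a : Γ | a.1 ∈ {g : GL (Fin 4) ℂ | g ∈ Γ ∧ ∃ x ∈ {p : CP3 |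
        ∃ (v : Fin 4 → ℂ) (hv : v ≠ 0), v ∈ A ∧ p = Projectivization.mk ℂ v hv},
        g • x ∈ {p : CP3 | ∃ (v : Fin 4 → ℂ) (hv : v ≠ 0), v ∈ A ∧
          p = Projectivization.mk ℂ v hv}}}.Finite :=
      hfin.preimage Subtype.val_injective.injOn
    have h3 := hg.eventually hfin'.compl_mem_cofinite
    obtain ⟨k, hk1, hk2, hk3⟩ := (h1.and (h2.and h3)).exists
    apply hk3
    have hz0 : z k ≠ 0 := (hb₁' hk1).1
    have hw0 : c k • linRep Γ (g k) (z k) ≠ 0 := (hb₂' hk2).1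
    have hc0 : c k ≠ 0 := by
      intro h0
      rw [h0, zero_smul] at hw0
      exact hw0 rfl
    refine ⟨(g k).2, Projectivization.mk ℂ (z k) hz0, ⟨z k, hz0, Or.inl hk1, rfl⟩, ?_⟩
    refine ⟨c k • linRep Γ (g k) (z k), hw0, Or.inr hk2, ?_⟩
    rw [smul_mk, mk_smul_eq (linRep_ne_zero Γ (g k) hz0) hc0]
  lift := by
    obtain ⟨K, hKD, hKc, hcov⟩ := h.cocompact
    have hΩ := isOpen_coneOver hD
    -- a finite cover of `K` by images of closed balls
    have hex : ∀ x ∈ K, ∃ (v : Fin 4 → ℂ) (hv : v ≠ 0) (r : ℝ), 0 < r ∧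
        x = Projectivization.mk ℂ v hv ∧ Metric.closedBall v r ⊆ coneOver D := by
      intro x hx
      induction x using Projectivization.ind with
      | h v hv =>
        obtain ⟨r, hr, hb⟩ := Metric.isOpen_iff.mp hΩ v ⟨hv, hKD hx⟩
        exact ⟨v, hv, r / 2, half_pos hr, rfl,
          (Metric.closedBall_subset_ball (by linarith)).trans hb⟩
    choose! v hv r hr hxv hb using hex
    obtain ⟨t, ht⟩ := hKc.elim_nhds_subcover'
      (fun x _ => {p : CP3 | ∃ (w : Fin 4 → ℂ) (hw : w ≠ 0), w ∈ Metric.ball (v x) (r x) ∧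
        p = Projectivization.mk ℂ w hw})
      (fun x hx => (isOpen_image_mk Metric.isOpen_ball).mem_nhds
        ⟨v x, hv x hx, Metric.mem_ball_self (hr x hx), hxv x hx⟩)
    refine ⟨⋃ x ∈ t, Metric.closedBall (v x) (r x), ?_, ?_, ?_⟩
    · exact Set.iUnion₂_subset fun x _ => hb x x.2
    · exact t.isCompact_biUnion fun x _ => isCompact_closedBall _ _
    · rintro w ⟨hw, hwD⟩
      obtain ⟨g, hg, hgK⟩ := hcov _ hwD
      have h1 := ht hgK
      simp only [Set.mem_iUnion] at h1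
      obtain ⟨x, hxt, w', hw', hw'b, heq⟩ := h1
      have h2 : g • (Projectivization.mk ℂ w hw : CP3) =
        Projectivization.mk ℂ (linRep Γ ⟨g, hg⟩ w) (linRep_ne_zero Γ ⟨g, hg⟩ hw) := rfl
      rw [h2, Projectivization.mk_eq_mk_iff'] at heq
      obtain ⟨a, ha⟩ := heq
      have ha0 : a ≠ 0 := by
        rintro rfl
        rw [zero_smul] at ha
        exact linRep_ne_zero Γ ⟨g, hg⟩ hw ha.symm
      refine ⟨⟨g, hg⟩, a⁻¹, inv_ne_zero ha0, ?_⟩
      rw [← ha, smul_smul, inv_mul_cancel₀ ha0, one_smul]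
      exact Set.mem_biUnion hxt (Metric.ball_subset_closedBall hw'b)

/-- The complement of `D` contains, near the point `[v]`, a piece of a projective line through
`[v]`. -/
def HasLineGerm (D : Set CP3) (v : Fin 4 → ℂ) : Prop :=
  ∃ q : Fin 4 → ℂ, (∀ c : ℂ, q ≠ c • v) ∧ ∀ᶠ s in 𝓝 (0 : ℂ), v + s • q ∉ coneOver D

lemma mem_closure_coneOver {D : Set CP3} {v : Fin 4 → ℂ} (hv : v ≠ 0)
    (h : (Projectivization.mk ℂ v hv : CP3) ∈ closure D) : v ∈ closure (coneOver D) := by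
  rw [mem_closure_iff] at h ⊢
  intro U hU hvU
  obtain ⟨p, ⟨w, hw, hwU, rfl⟩, hp⟩ := h _ (isOpen_image_mk hU) ⟨v, hv, hvU, rfl⟩
  exact ⟨w, hwU, hw, hp⟩

/-- **Theorem C.** Let the domain `D` cover a compact manifold by a group of projective
transformations.  If an open set `W` contains two different boundary points of `D` then it contains
a point of the complement with a line germ. -/
theorem exists_hasLineGerm {D : Set CP3} {Γ : Subgroup (GL (Fin 4) ℂ)} (hD : IsOpen D)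
    (h : ActsCocompactly D Γ) {W : Set CP3} (hW : IsOpen W) {v v' : Fin 4 → ℂ} (hv : v ≠ 0)
    (hv' : v' ≠ 0) (hne : (Projectivization.mk ℂ v' hv' : CP3) ≠ Projectivization.mk ℂ v hv)
    (hvW : (Projectivization.mk ℂ v hv : CP3) ∈ W) (hvD : (Projectivization.mk ℂ v hv : CP3) ∉ D)
    (hvc : (Projectivization.mk ℂ v hv : CP3) ∈ closure D)
    (hvW' : (Projectivization.mk ℂ v' hv' : CP3) ∈ W)
    (hvD' : (Projectivization.mk ℂ v' hv' : CP3) ∉ D)
    (hvc' : (Projectivization.mk ℂ v' hv' : CP3) ∈ closure D) :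
    ∃ w ∈ coneOver W, w ∉ coneOver D ∧ HasLineGerm D w := by
  have hdim : 3 ≤ Module.finrank ℂ (Fin 4 → ℂ) := by
    rw [Module.finrank_fintype_fun_eq_card]
    simp
  obtain ⟨w, hwW, -, hwD, hg⟩ := (coneOf hD h).exists_lineGerm hdim (p := v) (p' := v') hv
    (fun h => hvD ((mem_coneOver hv).mp h)) (mem_closure_coneOver hv hvc) hv'
    (fun h => hvD' ((mem_coneOver hv').mp h)) (mem_closure_coneOver hv' hvc') (by
      intro c hc
      apply hne
      rw [Projectivization.mk_eq_mk_iff']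
      exact ⟨c, hc.symm⟩) (W := coneOver W) (isOpen_coneOver hW)
    (fun c hc v hv => smul_mem_coneOver hc hv) ⟨hv, hvW⟩ ⟨hv', hvW'⟩
  exact ⟨w, hwW, hwD, hg⟩

end Pool.Agent.Lib.P17cb1b
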