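import Pool.Agent.Lib.P17cb1b.Ruled

/-!
# Lifting groups of projective transformations to the linear group
-/

open scoped LinearAlgebra.Projectivization ContDiff
open Filter Topology

namespace Pool.Agent.Lib.P17cb1b

/-- A linear map for which all vectors of a nonempty open set are eigenvectors is scalar. -/
lemma scalar_of_eigen {T : (Fin 4 → ℂ) →L[ℂ] (Fin 4 → ℂ)} {Ω : Set (Fin 4 → ℂ)} (hΩ : IsOpen Ω)
    (hne : Ω.Nonempty) (h0 : (0 : Fin 4 → ℂ) ∉ Ω) (h : ∀ v ∈ Ω, ∃ c : ℂ, T v = c • v) :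
    ∃ c : ℂ, ∀ v, T v = c • v := by
  obtain ⟨v₀, hv₀⟩ := hne
  obtain ⟨r, hr, hb⟩ := Metric.isOpen_iff.mp hΩ v₀ hv₀
  have hv₀0 : v₀ ≠ 0 := fun h => h0 (h ▸ hv₀)
  obtain ⟨a, ha⟩ := h v₀ hv₀
  have hsmall : ∀ u : Fin 4 → ℂ, ‖u‖ < r → T u = a • u := by
    intro u hu
    by_cases hdep : ∃ t : ℂ, u = t • v₀
    · obtain ⟨t, rfl⟩ := hdep
      rw [map_smul, ha, smul_comm]
    · push Not at hdep
      have h1 : v₀ + u ∈ Ω := hb (by rw [Metric.mem_ball, dist_eq_norm]; simpa using hu)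
      have h2 : v₀ + (2 : ℂ)⁻¹ • u ∈ Ω := hb (by
        rw [Metric.mem_ball, dist_eq_norm, add_sub_cancel_left, norm_smul]
        have : ‖(2 : ℂ)⁻¹‖ = 2⁻¹ := by simp
        rw [this]
        have := norm_nonneg u
        linarith)
      obtain ⟨b, hb'⟩ := h _ h1
      obtain ⟨c, hc'⟩ := h _ h2
      rw [map_add, ha] at hb' hc'
      rw [map_smul] at hc'
      -- `T u = b (v₀ + u) - a v₀`
      have e1 : T u = b • (v₀ + u) - a • v₀ := by rw [← hb']; abel
      rw [e1] at hc'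
      -- `(a + b - 2 c) v₀ + (b - c) u = 0`
      have e2 : (b - c) • u = (2 * c - a - b) • v₀ := by
        ext j
        have e4 := congrFun hc' j
        simp only [Pi.add_apply, Pi.sub_apply, Pi.smul_apply, smul_eq_mul] at e4 ⊢
        linear_combination 2 * e4
      have e5 : b = c := by
        by_contra hbc
        apply hdep ((b - c)⁻¹ * (2 * c - a - b))
        rw [mul_smul, ← e2, smul_smul, inv_mul_cancel₀ (sub_ne_zero.mpr hbc), one_smul]
      rw [e5, sub_self, zero_smul] at e2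
      have e6 : 2 * c - a - c = 0 := by
        by_contra hne'
        exact (smul_ne_zero hne' hv₀0) e2.symm
      have e7 : a = c := by linear_combination -e6
      rw [e1, e5, e7, smul_add, add_sub_cancel_left]
  refine ⟨a, fun v => ?_⟩
  by_cases hv : v = 0
  · rw [hv, map_zero, smul_zero]
  have hn : 0 < ‖v‖ := norm_pos_iff.mpr hv
  set t : ℂ := ((r / (2 * ‖v‖) : ℝ) : ℂ) with ht
  have ht0 : t ≠ 0 := by
    rw [ht, Complex.ofReal_ne_zero]
    positivity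
  have h1 : T (t • v) = a • (t • v) := by
    apply hsmall
    rw [norm_smul, ht, Complex.norm_real, Real.norm_of_nonneg (by positivity)]
    have : r / (2 * ‖v‖) * ‖v‖ = r / 2 := by field_simp
    rw [this]
    linarith
  rw [map_smul, smul_comm] at h1
  exact smul_right_injective _ ht0 h1

/-- The unimodular linear lifts of the elements of `Γ`. -/
def liftGroup (D : Set CP3) (Γ : Subgroup (Equiv.Perm D)) : Subgroup (GL (Fin 4) ℂ) where
  carrier := {g | (g : Matrix (Fin 4) (Fin 4) ℂ).det = 1 ∧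
    ∃ γ ∈ Γ, ∀ x : D, (γ x : CP3) = g • (x : CP3)}
  mul_mem' := by
    rintro g₁ g₂ ⟨h1, γ₁, hγ₁, e1⟩ ⟨h2, γ₂, hγ₂, e2⟩
    refine ⟨?_, γ₁ * γ₂, Γ.mul_mem hγ₁ hγ₂, fun x => ?_⟩
    · rw [Units.val_mul, Matrix.det_mul, h1, h2, one_mul]
    · rw [Equiv.Perm.mul_apply, e1, e2, mul_smul]
  one_mem' := by
    refine ⟨by simp, 1, Γ.one_mem, fun x => ?_⟩
    rw [Equiv.Perm.one_apply, one_smul]
  inv_mem' := by
    rintro g ⟨h1, γ, hγ, e1⟩
    refine ⟨?_, γ⁻¹, Γ.inv_mem hγ, fun x => ?_⟩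
    · have h2 : ((g⁻¹ * g : GL (Fin 4) ℂ) : Matrix (Fin 4) (Fin 4) ℂ).det = 1 := by
        rw [inv_mul_cancel]
        simp
      rw [Units.val_mul, Matrix.det_mul, h1, mul_one] at h2
      exact h2
    · rw [eq_inv_smul_iff, ← e1]
      simp

lemma exists_mem_liftGroup {D : Set CP3} {Γ : Subgroup (Equiv.Perm D)}
    (h : CoversByProjective D Γ) {γ : Equiv.Perm D} (hγ : γ ∈ Γ) :
    ∃ g ∈ liftGroup D Γ, ∀ x : D, (γ x : CP3) = g • (x : CP3) := by
  obtain ⟨g, hg⟩ := h.projective γ hγ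
  have hd : (g : Matrix (Fin 4) (Fin 4) ℂ).det ≠ 0 := by
    have := (Matrix.GeneralLinearGroup.det g).ne_zero
    simpa using this
  obtain ⟨c, hc⟩ := IsAlgClosed.exists_pow_nat_eq
    ((g : Matrix (Fin 4) (Fin 4) ℂ).det)⁻¹ (n := 4) (by norm_num)
  have hc0 : c ≠ 0 := by
    rintro rfl
    rw [zero_pow (by norm_num)] at hc
    exact inv_ne_zero hd hc.symm
  have hdet : (c • (g : Matrix (Fin 4) (Fin 4) ℂ)).det = 1 := by
    rw [Matrix.det_smul, Fintype.card_fin, hc, inv_mul_cancel₀ hd]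
  let g' : GL (Fin 4) ℂ := Matrix.GeneralLinearGroup.mkOfDetNeZero
    (c • (g : Matrix (Fin 4) (Fin 4) ℂ)) (by rw [hdet]; exact one_ne_zero)
  have hg' : ∀ x : CP3, g' • x = g • x := by
    intro x
    induction x using Projectivization.ind with
    | h v hv =>
      have e1 := smul_mk ⊤ ⟨g', trivial⟩ v hv
      have e2 := smul_mk ⊤ ⟨g, trivial⟩ v hv
      change g' • _ = _ at e1
      change g • _ = _ at e2
      rw [e1, e2, Projectivization.mk_eq_mk_iff']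
      refine ⟨c, ?_⟩
      rw [linRep_apply, linRep_apply]
      show c • Matrix.mulVec (g : Matrix (Fin 4) (Fin 4) ℂ) v =
        Matrix.mulVec (c • (g : Matrix (Fin 4) (Fin 4) ℂ)) v
      rw [Matrix.smul_mulVec]
  refine ⟨g', ⟨hdet, γ, hγ, fun x => ?_⟩, fun x => ?_⟩
  · rw [hg', hg]
  · rw [hg', hg]

/-- Two unimodular lifts differ by a fourth root of unity. -/
lemma finite_lifts {D : Set CP3} (hD : IsOpen D) (hne : D.Nonempty) (γ : Equiv.Perm D) :
    {g : GL (Fin 4) ℂ | (g : Matrix (Fin 4) (Fin 4) ℂ).det = 1 ∧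
      ∀ x : D, (γ x : CP3) = g • (x : CP3)}.Finite := by
  rcases Set.eq_empty_or_nonempty {g : GL (Fin 4) ℂ | (g : Matrix (Fin 4) (Fin 4) ℂ).det = 1 ∧
      ∀ x : D, (γ x : CP3) = g • (x : CP3)} with he | ⟨g₀, hg₀, e₀⟩
  · rw [he]; exact Set.finite_empty
  have hroots : {c : ℂ | c ^ 4 = 1}.Finite := by
    have h1 : (Polynomial.X ^ 4 - 1 : Polynomial ℂ) ≠ 0 := by
      intro h
      have := congrArg (Polynomial.eval (2 : ℂ)) h
      norm_num at this
    refine (Polynomial.rootSet_finite (Polynomial.X ^ 4 - 1 : Polynomial ℂ) ℂ).subset ?_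
    intro c hc
    rw [Polynomial.mem_rootSet]
    refine ⟨h1, ?_⟩
    have hc' : c ^ 4 = 1 := hc
    simp [hc']
  have himg : ((fun c : ℂ => c • (g₀ : Matrix (Fin 4) (Fin 4) ℂ)) '' {c : ℂ | c ^ 4 = 1}).Finite :=
    hroots.image _
  refine (himg.preimage (f := fun g : GL (Fin 4) ℂ => (g : Matrix (Fin 4) (Fin 4) ℂ))
    (fun _ _ _ _ h => Units.ext h)).subset ?_
  rintro g ⟨hg, e⟩
  -- `g₀⁻¹ g` fixes every point of `D`
  have hfix : ∀ x : D, (g₀⁻¹ * g) • (x : CP3) = x := by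
    intro x
    rw [mul_smul, ← e, e₀, inv_smul_smul]
  set T := linRep ⊤ ⟨g₀⁻¹ * g, trivial⟩ with hT
  obtain ⟨c, hc⟩ := scalar_of_eigen (T := T) (isOpen_coneOver hD) (by
      obtain ⟨x, hx⟩ := hne
      induction x using Projectivization.ind with
      | h v hv => exact ⟨v, hv, hx⟩) (fun ⟨h0, _⟩ => h0 rfl) (by
      rintro v ⟨hv, hvD⟩
      have e1 := smul_mk ⊤ ⟨g₀⁻¹ * g, trivial⟩ v hv
      change (g₀⁻¹ * g) • _ = _ at e1
      rw [hfix ⟨_, hvD⟩] at e1
      obtain ⟨a, ha⟩ := (Projectivization.mk_eq_mk_iff' ℂ _ _ _ _).mp e1.symm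
      exact ⟨a, ha.symm⟩)
  have hmat : ((g₀⁻¹ * g : GL (Fin 4) ℂ) : Matrix (Fin 4) (Fin 4) ℂ) = c • 1 := by
    ext i j
    have h1 := hc (Pi.single j 1)
    rw [hT, linRep_apply, Matrix.mulVec_single_one] at h1
    have h2 := congrFun h1 i
    rw [Matrix.smul_apply, Matrix.one_apply]
    simpa [Pi.single_apply] using h2
  have hgmat : (g : Matrix (Fin 4) (Fin 4) ℂ) = c • (g₀ : Matrix (Fin 4) (Fin 4) ℂ) := by
    have h1 : g = g₀ * (g₀⁻¹ * g) := by group
    rw [h1, Units.val_mul, hmat, Matrix.mul_smul, Matrix.mul_one]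
  refine ⟨c, ?_, hgmat.symm⟩
  have h2 := hg
  rw [hgmat, Matrix.det_smul, hg₀, mul_one, Fintype.card_fin] at h2
  exact h2

theorem actsCocompactly_liftGroup {D : Set CP3} (hD : IsOpen D) (hne : D.Nonempty)
    {Γ : Subgroup (Equiv.Perm D)} (h : CoversByProjective D Γ) :
    ActsCocompactly D (liftGroup D Γ) where
  maps := by
    rintro g ⟨-, γ, -, e⟩ x hx
    rw [← e ⟨x, hx⟩]
    exact (γ ⟨x, hx⟩).2
  properlyDiscontinuous := by
    intro K hKD hK
    have hK' : IsCompact (Subtype.val ⁻¹' K : Set D) := by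
      rw [Subtype.isCompact_iff, Subtype.image_preimage_coe, Set.inter_eq_right.mpr hKD]
      exact hK
    have hfin := h.properlyDiscontinuous _ hK'
    refine (hfin.biUnion (fun γ _ => finite_lifts hD hne γ)).subset ?_
    rintro g ⟨⟨hg, γ, hγ, e⟩, x, hxK, hgx⟩
    simp only [Set.mem_iUnion]
    refine ⟨γ, ⟨hγ, ⟨x, hKD hxK⟩, hxK, ?_⟩, hg, e⟩
    show (γ ⟨x, hKD hxK⟩ : CP3) ∈ K
    rw [e]
    exact hgx
  cocompact := by
    obtain ⟨K, hK, hcov⟩ := h.cocompact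
    refine ⟨Subtype.val '' K, ?_, hK.image continuous_subtype_val, ?_⟩
    · rintro _ ⟨x, -, rfl⟩
      exact x.2
    · intro x hx
      obtain ⟨γ, hγ, hγx⟩ := hcov ⟨x, hx⟩
      obtain ⟨g, hg, e⟩ := exists_mem_liftGroup h hγ
      exact ⟨g, hg, _, hγx, e ⟨x, hx⟩⟩

end Pool.Agent.Lib.P17cb1b
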