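import Pool.Agent.Lib.P17cb1b.Levi

/-!
# Sheets of CR dimension one are ruled by pieces of projective lines
-/

open scoped LinearAlgebra.Projectivization ContDiff
open Filter Topology

namespace Pool.Agent.Lib.P17cb1b

/-- Distance to a level set of a submersion. -/
lemma exists_near_zero {F : (Fin 3 → ℂ) → ℂ} {z₀ : Fin 3 → ℂ} (hF : ContDiffAt ℝ 1 F z₀)
    (h0 : F z₀ = 0) (hs : Function.Surjective (fderiv ℝ F z₀)) :
    ∃ C : ℝ, 0 < C ∧ ∀ᶠ z in 𝓝 z₀, ∃ z', ‖z' - z‖ ≤ C * ‖F z‖ ∧ F z' = 0 := by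
  have hstrict := hF.hasStrictFDerivAt (one_ne_zero)
  have hr : (fderiv ℝ F z₀).range = ⊤ := LinearMap.range_eq_top.mpr hs
  set R := (fderiv ℝ F z₀).nonlinearRightInverseOfSurjective hr with hR
  have hRpos : 0 < R.nnnorm :=
    (fderiv ℝ F z₀).nonlinearRightInverseOfSurjective_nnnorm_pos hr
  obtain ⟨s, hs, happ⟩ := hstrict.approximates_deriv_on_nhds
    (c := R.nnnorm⁻¹ / 2) (Or.inr (by positivity))
  obtain ⟨ρ, hρ, hρs⟩ := Metric.nhds_basis_closedBall.mem_iff.mp hs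
  refine ⟨2 * R.nnnorm, by positivity, ?_⟩
  have h1 : ∀ᶠ z in 𝓝 z₀, 2 * (R.nnnorm : ℝ) * ‖F z‖ < ρ / 2 := by
    have h2 : Tendsto (fun z => 2 * (R.nnnorm : ℝ) * ‖F z‖) (𝓝 z₀)
        (𝓝 (2 * (R.nnnorm : ℝ) * ‖F z₀‖)) := (hF.continuousAt.norm.tendsto).const_mul _
    rw [h0, norm_zero, mul_zero] at h2
    exact h2.eventually (gt_mem_nhds (by positivity))
  filter_upwards [h1, Metric.ball_mem_nhds z₀ (half_pos hρ)] with z hz hzball
  have hsub : Metric.closedBall z (2 * R.nnnorm * ‖F z‖) ⊆ s := by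
    refine subset_trans ?_ hρs
    intro x hx
    rw [Metric.mem_closedBall] at hx ⊢
    rw [Metric.mem_ball] at hzball
    calc dist x z₀ ≤ dist x z + dist z z₀ := dist_triangle _ _ _
      _ ≤ ρ := by linarith
  have h3 := happ.surjOn_closedBall_of_nonlinearRightInverse R (by positivity) hsub
  have h4 : (0 : ℂ) ∈ Metric.closedBall (F z)
      (((R.nnnorm : ℝ)⁻¹ - ((R.nnnorm⁻¹ / 2 : NNReal) : ℝ)) * (2 * R.nnnorm * ‖F z‖)) := by
    rw [Metric.mem_closedBall, dist_comm, dist_zero_right]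
    have h5 : ((R.nnnorm : ℝ)⁻¹ - ((R.nnnorm⁻¹ / 2 : NNReal) : ℝ)) * (2 * R.nnnorm * ‖F z‖)
        = ‖F z‖ := by
      have h6 : (R.nnnorm : ℝ) ≠ 0 := by positivity
      push_cast
      field_simp
      ring
    rw [h5]
  obtain ⟨z', hz', hFz'⟩ := h3 h4
  refine ⟨z', ?_, hFz'⟩
  rw [Metric.mem_closedBall, dist_eq_norm] at hz'
  exact hz'

/-- A `C¹` map which vanishes on a level set is bounded by a multiple of the level function. -/
lemma exists_bound_of_vanish {F : (Fin 3 → ℂ) → ℂ} {z₀ : Fin 3 → ℂ} (hF : ContDiffAt ℝ 1 F z₀)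
    (h0 : F z₀ = 0) (hs : Function.Surjective (fderiv ℝ F z₀))
    {K : (Fin 3 → ℂ) → (Fin 3 → ℂ)} (hK : ContDiffAt ℝ 1 K z₀)
    (hv : ∀ᶠ z in 𝓝 z₀, F z = 0 → K z = 0) :
    ∃ C : ℝ, 0 ≤ C ∧ ∀ᶠ z in 𝓝 z₀, ‖K z‖ ≤ C * ‖F z‖ := by
  obtain ⟨C, hC, hnear⟩ := exists_near_zero hF h0 hs
  obtain ⟨L, t, ht, hL⟩ := hK.exists_lipschitzOnWith
  obtain ⟨ρ, hρ, hρt⟩ := Metric.nhds_basis_ball.mem_iff.mp (inter_mem ht hv)
  refine ⟨L * C, by positivity, ?_⟩
  have h1 : ∀ᶠ z in 𝓝 z₀, C * ‖F z‖ < ρ / 2 := by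
    have h2 : Tendsto (fun z => C * ‖F z‖) (𝓝 z₀) (𝓝 (C * ‖F z₀‖)) :=
      (hF.continuousAt.norm.tendsto).const_mul _
    rw [h0, norm_zero, mul_zero] at h2
    exact h2.eventually (gt_mem_nhds (by positivity))
  filter_upwards [h1, hnear, Metric.ball_mem_nhds z₀ (half_pos hρ)] with z hz hz' hzball
  obtain ⟨z', hd, hFz'⟩ := hz'
  rw [Metric.mem_ball] at hzball
  have h3 : z' ∈ Metric.ball z₀ ρ := by
    rw [Metric.mem_ball]
    calc dist z' z₀ ≤ dist z' z + dist z z₀ := dist_triangle _ _ _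
      _ < ρ := by rw [dist_eq_norm z' z]; linarith
  have h4 : z ∈ Metric.ball z₀ ρ := by rw [Metric.mem_ball]; linarith
  have h5 : K z' = 0 := (hρt h3).2 hFz'
  have h6 := hL.dist_le_mul z (hρt h4).1 z' (hρt h3).1
  rw [h5, dist_zero_right, dist_comm, dist_eq_norm z' z] at h6
  calc ‖K z‖ ≤ L * ‖z' - z‖ := h6
    _ ≤ L * (C * ‖F z‖) := by gcongr
    _ = L * C * ‖F z‖ := by ring

/-- A smooth field spanning the kernels of `x ↦ (F'(z) x, F'(z) (i x))`. -/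
lemma exists_field {F : (Fin 3 → ℂ) → ℂ} {z₀ v₀ : Fin 3 → ℂ} {k : Fin 3}
    (hF : ContDiffAt ℝ ∞ F z₀) (h1 : fderiv ℝ F z₀ v₀ = 0)
    (h2 : fderiv ℝ F z₀ (Complex.I • v₀) = 0) (hk : v₀ k = 1)
    (huniq : ∀ x, fderiv ℝ F z₀ x = 0 → fderiv ℝ F z₀ (Complex.I • x) = 0 → x k = 0 → x = 0) :
    ∃ w : (Fin 3 → ℂ) → (Fin 3 → ℂ), ContDiffAt ℝ 2 w z₀ ∧ w z₀ = v₀ ∧
      ∀ᶠ z in 𝓝 z₀, (fderiv ℝ F z (w z) = 0 ∧ fderiv ℝ F z (Complex.I • w z) = 0 ∧ w z k = 1) ∧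
        ∀ x, fderiv ℝ F z x = 0 → fderiv ℝ F z (Complex.I • x) = 0 → x = x k • w z := by
  -- the linear map `x ↦ (F'(z) x, F'(z) (i x), x_k)`
  let A : ℂ →L[ℝ] (Fin 3 → ℂ) := ContinuousLinearMap.pi ![ContinuousLinearMap.id ℝ ℂ, 0, 0]
  let B : ℂ →L[ℝ] (Fin 3 → ℂ) := ContinuousLinearMap.pi ![0, ContinuousLinearMap.id ℝ ℂ, 0]
  let P : (Fin 3 → ℂ) →L[ℝ] (Fin 3 → ℂ) := ContinuousLinearMap.pi ![0, 0, ContinuousLinearMap.proj k]
  let J : (Fin 3 → ℂ) →L[ℝ] (Fin 3 → ℂ) := Complex.I • ContinuousLinearMap.id ℝ (Fin 3 → ℂ)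
  let G : (Fin 3 → ℂ) → ((Fin 3 → ℂ) →L[ℝ] (Fin 3 → ℂ)) := fun z =>
    A.comp (fderiv ℝ F z) + B.comp ((fderiv ℝ F z).comp J) + P
  have hG0 : ∀ z x, G z x 0 = fderiv ℝ F z x := by
    intro z x
    simp [G, A, B, P, J]
  have hG1 : ∀ z x, G z x 1 = fderiv ℝ F z (Complex.I • x) := by
    intro z x
    simp [G, A, B, P, J]
  have hG2 : ∀ z x, G z x 2 = x k := by
    intro z x
    simp [G, A, B, P, J]
  have hGs : ContDiffAt ℝ 2 G z₀ := by
    have h3 : ContDiffAt ℝ 2 (fderiv ℝ F) z₀ := hF.fderiv_right (by norm_cast)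
    exact ((contDiffAt_const.clm_comp h3).add
      (contDiffAt_const.clm_comp (h3.clm_comp contDiffAt_const))).add contDiffAt_const
  have hinj : Function.Injective (G z₀) := by
    rw [injective_iff_map_eq_zero]
    intro x hx
    refine huniq x ?_ ?_ ?_
    · rw [← hG0, hx]; rfl
    · rw [← hG1, hx]; rfl
    · rw [← hG2 z₀ x, hx]; rfl
  have hsurj : Function.Surjective (G z₀) :=
    LinearMap.surjective_of_injective (f := (G z₀ : (Fin 3 → ℂ) →ₗ[ℝ] (Fin 3 → ℂ))) hinj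
  let e : (Fin 3 → ℂ) ≃L[ℝ] (Fin 3 → ℂ) := ContinuousLinearEquiv.ofBijective (G z₀)
    (LinearMap.ker_eq_bot.mpr hinj) (LinearMap.range_eq_top.mpr hsurj)
  have he : (e : (Fin 3 → ℂ) →L[ℝ] (Fin 3 → ℂ)) = G z₀ := by
    ext x; rfl
  let b : Fin 3 → ℂ := ![0, 0, 1]
  have hinv : ContDiffAt ℝ 2 (ContinuousLinearMap.inverse :
      ((Fin 3 → ℂ) →L[ℝ] (Fin 3 → ℂ)) → _) (G z₀) := by
    rw [← he]
    exact contDiffAt_map_inverse e
  refine ⟨fun z => (G z).inverse b, ?_, ?_, ?_⟩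
  · exact (hinv.comp z₀ hGs).clm_apply contDiffAt_const
  · have h3 : (G z₀).inverse b = e.symm b := by
      rw [← he, ContinuousLinearMap.inverse_equiv]
      rfl
    show (G z₀).inverse b = v₀
    rw [h3]
    apply e.injective
    rw [e.apply_symm_apply]
    show b = (e : (Fin 3 → ℂ) →L[ℝ] (Fin 3 → ℂ)) v₀
    rw [he]
    ext j
    fin_cases j
    · show b 0 = G z₀ v₀ 0
      rw [hG0, h1]; rfl
    · show b 1 = G z₀ v₀ 1
      rw [hG1, h2]; rfl
    · show b 2 = G z₀ v₀ 2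
      rw [hG2, hk]; rfl
  · have h3 : ∀ᶠ z in 𝓝 z₀, G z ∈ Set.range ((↑) : ((Fin 3 → ℂ) ≃L[ℝ] (Fin 3 → ℂ)) →
        ((Fin 3 → ℂ) →L[ℝ] (Fin 3 → ℂ))) := by
      apply hGs.continuousAt.eventually
      rw [← he]
      exact ContinuousLinearEquiv.nhds e
    filter_upwards [h3] with z hz
    obtain ⟨e', he'⟩ := hz
    have h4 : G z ((G z).inverse b) = b := by
      rw [← he', ContinuousLinearMap.inverse_equiv]
      exact e'.apply_symm_apply b
    have h5 : Function.Injective (G z) := by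
      rw [← he']
      exact e'.injective
    have k0 : fderiv ℝ F z ((G z).inverse b) = 0 := by rw [← hG0, h4]; rfl
    have k1 : fderiv ℝ F z (Complex.I • (G z).inverse b) = 0 := by rw [← hG1, h4]; rfl
    have k2 : (G z).inverse b k = 1 := by rw [← hG2 z ((G z).inverse b), h4]; rfl
    refine ⟨⟨k0, k1, k2⟩, ?_⟩
    intro x hx hIx
    apply h5
    have key : ∀ c : ℂ, fderiv ℝ F z (c • (G z).inverse b) = 0 := by
      intro c
      have h6 : c • (G z).inverse b = c.re • (G z).inverse b +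
          c.im • (Complex.I • (G z).inverse b) := by
        rw [← Complex.coe_smul c.re, ← Complex.coe_smul c.im, smul_smul, ← add_smul,
          Complex.re_add_im]
      rw [h6, map_add, map_smul, map_smul, k0, k1, smul_zero, smul_zero, add_zero]
    ext j
    fin_cases j
    · show G z x 0 = G z _ 0
      rw [hG0, hG0, hx, key]
    · show G z x 1 = G z _ 1
      rw [hG1, hG1, hIx, smul_smul, key]
    · show G z x 2 = G z _ 2
      rw [hG2, hG2, Pi.smul_apply, k2, smul_eq_mul, mul_one]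

lemma complex_smul_decomp {F : Type*} [NormedAddCommGroup F] [NormedSpace ℝ F]
    (T : (Fin 3 → ℂ) →L[ℝ] F) (c : ℂ) (x : Fin 3 → ℂ) :
    T (c • x) = c.re • T x + c.im • T (Complex.I • x) := by
  have h6 : c • x = c.re • x + c.im • (Complex.I • x) := by
    rw [← Complex.coe_smul c.re, ← Complex.coe_smul c.im, smul_smul, ← add_smul,
      Complex.re_add_im]
  rw [h6, map_add, map_smul, map_smul]

/-- **Ruledness.**  Through every point of a submanifold of CR dimension one with a dense set of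
line germs passes a germ of a projective line contained in the submanifold. -/
theorem exists_line_of_germs {M : Set CP3} (hM : IsSmoothEmbedded4 M)
    (hgerm : ∀ (i : Fin 4) (z : Fin 3 → ℂ), affine i z ∈ M → ∀ N : Set (Fin 3 → ℂ), IsOpen N →
      z ∈ N → ∃ z' ∈ N, ∃ q : Fin 3 → ℂ, q ≠ 0 ∧ ∀ᶠ s in 𝓝 (0 : ℂ), affine i (z' + s • q) ∈ M)
    (hCR : ∀ p ∈ M, HasCRDim M p 1) {i : Fin 4} {z₀ : Fin 3 → ℂ} (hz₀ : affine i z₀ ∈ M) :
    ∃ q : Fin 3 → ℂ, q ≠ 0 ∧ ∀ᶠ s in 𝓝 (0 : ℂ), affine i (z₀ + s • q) ∈ M := by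
  obtain ⟨V, F, hV, hzV, hF, hFs, hFM⟩ := hM i z₀ hz₀
  have hF' : ∀ x ∈ V, ContDiffAt ℝ ∞ F x := fun x hx => hF.contDiffAt (hV.mem_nhds hx)
  have hFz : F z₀ = 0 := (hFM z₀ hzV).mp hz₀
  have htan0 : ∀ z ∈ V, affine i z ∈ M → ∀ v, fderiv ℝ F z v = 0 ↔ v ∈ tangent M i z := by
    intro z hz hzM v
    constructor
    · exact tangent_of_fderiv_eq_zero hV hz hF (hFs z hz) hFM hzM
    · intro hv
      refine fderiv_eq_zero_of_tangent ((hF' z hz).differentiableAt (by simp)) ?_ hv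
      filter_upwards [hV.mem_nhds hz] with x hx hxM
      exact (hFM x hx).mp hxM
  -- the complex tangent direction at `z₀`
  obtain ⟨H, hH, hfr⟩ := hCR _ hz₀ i z₀ rfl
  obtain ⟨v, hv0, hvs⟩ := finrank_eq_one_iff'.mp hfr
  obtain ⟨k, hk⟩ : ∃ k, v.1 k ≠ 0 := by
    by_contra hcon
    push Not at hcon
    exact hv0 (Subtype.ext (funext hcon))
  set v₀ : Fin 3 → ℂ := (v.1 k)⁻¹ • v.1 with hv₀
  have hv₀H : v₀ ∈ H := H.smul_mem _ v.2
  have hv₀k : v₀ k = 1 := by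
    rw [hv₀, Pi.smul_apply, smul_eq_mul, inv_mul_cancel₀ hk]
  have hv₀0 : v₀ ≠ 0 := by
    intro h
    rw [h] at hv₀k
    exact zero_ne_one hv₀k
  have hv₀t := (hH v₀).mp hv₀H
  obtain ⟨w, hw, hwz, hwe⟩ := exists_field (k := k) (hF' z₀ hzV)
    ((htan0 z₀ hzV hz₀ _).mpr hv₀t.1) ((htan0 z₀ hzV hz₀ _).mpr hv₀t.2) hv₀k (by
      intro x hx hIx hxk
      have hxH : x ∈ H := (hH x).mpr ⟨(htan0 z₀ hzV hz₀ _).mp hx, (htan0 z₀ hzV hz₀ _).mp hIx⟩
      obtain ⟨c, hc⟩ := hvs ⟨x, hxH⟩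
      have hc' : c • v.1 = x := congrArg Subtype.val hc
      have h1 : c = 0 := by
        have h2 := congrFun hc' k
        rw [Pi.smul_apply, hxk, smul_eq_mul] at h2
        exact (mul_eq_zero.mp h2).resolve_right hk
      rw [← hc', h1, zero_smul])
  -- a good open neighbourhood
  have hev : ∀ᶠ z in 𝓝 z₀, z ∈ V ∧ ContDiffAt ℝ 2 w z ∧
      ((fderiv ℝ F z (w z) = 0 ∧ fderiv ℝ F z (Complex.I • w z) = 0 ∧ w z k = 1) ∧
        ∀ x, fderiv ℝ F z x = 0 → fderiv ℝ F z (Complex.I • x) = 0 → x = x k • w z) := by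
    filter_upwards [hV.mem_nhds hzV, hw.eventually (by norm_num), hwe] with z h1 h2 h3
    exact ⟨h1, h2, h3⟩
  obtain ⟨W, hW, hWo, hz₀W⟩ := eventually_nhds_iff.mp hev
  -- `F' z (c • w z) = 0`
  have hker : ∀ z ∈ W, ∀ c : ℂ, fderiv ℝ F z (c • w z) = 0 := by
    intro z hz c
    rw [complex_smul_decomp, (hW z hz).2.2.1.1, (hW z hz).2.2.1.2.1, smul_zero, smul_zero, add_zero]
  -- the derivative of `w` along itself vanishes on `M`
  have hgermK : ∀ z ∈ W, ∀ q : Fin 3 → ℂ, q ≠ 0 → (∀ᶠ s in 𝓝 (0 : ℂ), affine i (z + s • q) ∈ M) →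
      ∀ b : ℂ, fderiv ℝ w z (b • w z) = 0 := by
    intro z hz q hq hg b
    -- `q` is a complex tangent vector at all points of the germ
    have h1 : ∀ᶠ s in 𝓝 (0 : ℂ), w (z + s • q) = (q k)⁻¹ • q ∧ q k ≠ 0 := by
      have h2 : ∀ᶠ s in 𝓝 (0 : ℂ), ∀ᶠ s' in 𝓝 s, affine i (z + s' • q) ∈ M := hg.eventually_nhds
      have h3 : Tendsto (fun s : ℂ => z + s • q) (𝓝 0) (𝓝 (z + (0 : ℂ) • q)) :=
        tendsto_const_nhds.add (tendsto_id.smul_const q)
      rw [zero_smul, add_zero] at h3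
      filter_upwards [h2, h3.eventually (hWo.mem_nhds hz)] with s hs hsW
      have hsM : affine i (z + s • q) ∈ M := hs.self_of_nhds
      have htan : ∀ c : ℂ, c • q ∈ tangent M i (z + s • q) := by
        intro c
        refine ⟨fun t : ℝ => z + s • q + t • c • q, by fun_prop, by simp, ?_, ?_⟩
        · have h4 := ((hasDerivAt_id (0 : ℝ)).smul_const (c • q)).const_add (z + s • q)
          have h5 : HasDerivAt (fun t : ℝ => z + s • q + t • c • q) (c • q) 0 := by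
            simpa using h4
          exact h5.deriv
        · have h7 : Tendsto (fun t : ℝ => s + (t : ℂ) * c) (𝓝 0) (𝓝 (s + (0 : ℝ) * c)) :=
            tendsto_const_nhds.add ((Complex.continuous_ofReal.tendsto 0).mul_const c)
          rw [Complex.ofReal_zero, zero_mul, add_zero] at h7
          filter_upwards [h7.eventually hs] with t ht
          have e : z + s • q + t • c • q = z + (s + (t : ℂ) * c) • q := by
            rw [add_smul, mul_smul, Complex.coe_smul, add_assoc]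
          rw [e]
          exact ht
      have h4 : q = q k • w (z + s • q) := by
        refine (hW _ hsW).2.2.2 q ?_ ?_
        · rw [htan0 _ (hW _ hsW).1 hsM]
          simpa using htan 1
        · rw [htan0 _ (hW _ hsW).1 hsM]
          exact htan Complex.I
      have h5 : q k ≠ 0 := by
        intro h0
        rw [h0, zero_smul] at h4
        exact hq h4
      refine ⟨?_, h5⟩
      nth_rewrite 3 [h4]
      rw [smul_smul, inv_mul_cancel₀ h5, one_smul]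
    have hqk : q k ≠ 0 := h1.self_of_nhds.2
    have hwq : w z = (q k)⁻¹ • q := by simpa using h1.self_of_nhds.1
    have h2 : HasDerivAt (fun t : ℝ => z + t • b • w z) (b • w z) 0 := by
      have := ((hasDerivAt_id (0 : ℝ)).smul_const (b • w z)).const_add z
      simpa using this
    have h3 : HasFDerivAt w (fderiv ℝ w z) ((fun t : ℝ => z + t • b • w z) 0) := by
      have := ((hW z hz).2.1.differentiableAt (by norm_num)).hasFDerivAt
      simpa using this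
    have h4 := h3.comp_hasDerivAt 0 h2
    have h5 : (w ∘ fun t : ℝ => z + t • b • w z) =ᶠ[𝓝 0] fun _ => (q k)⁻¹ • q := by
      have h7 : Tendsto (fun t : ℝ => (t : ℂ) * (b * (q k)⁻¹)) (𝓝 0)
          (𝓝 ((0 : ℝ) * (b * (q k)⁻¹))) :=
        (Complex.continuous_ofReal.tendsto 0).mul_const _
      rw [Complex.ofReal_zero, zero_mul] at h7
      filter_upwards [h7.eventually h1] with t ht
      have e : z + t • b • w z = z + ((t : ℂ) * (b * (q k)⁻¹)) • q := by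
        rw [hwq, mul_smul, mul_smul, Complex.coe_smul]
      show w (z + t • b • w z) = _
      rw [e]
      exact ht.1
    exact h4.unique ((hasDerivAt_const (0 : ℝ) ((q k)⁻¹ • q)).congr_of_eventuallyEq h5)
  have hKs : ∀ b : ℂ, ∀ z ∈ W, ContDiffAt ℝ 1 (fun z => fderiv ℝ w z (b • w z)) z := by
    intro b z hz
    have h1 : ContDiffAt ℝ 1 (fderiv ℝ w) z := (hW z hz).2.1.fderiv_right (by norm_num)
    have h2 : ContDiffAt ℝ 1 w z := (hW z hz).2.1.of_le (by norm_num)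
    have h3 : ContDiffAt ℝ 1 (fun z => b • w z) z := h2.const_smul b
    exact h1.clm_apply h3
  have hK0 : ∀ b : ℂ, ∀ᶠ z in 𝓝 z₀, F z = 0 → fderiv ℝ w z (b • w z) = 0 := by
    intro b
    filter_upwards [hWo.mem_nhds hz₀W] with z hz hFz0
    by_contra hne
    have hzM : affine i z ∈ M := (hFM z (hW z hz).1).mpr hFz0
    have h1 := (hKs b z hz).continuousAt.eventually_ne hne
    obtain ⟨N, hN, hNo, hzN⟩ := eventually_nhds_iff.mp h1
    obtain ⟨z', hz', q, hq, hg⟩ := hgerm i z hzM (N ∩ W) (hNo.inter hWo) ⟨hzN, hz⟩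
    exact hN z' hz'.1 (hgermK z' hz'.2 q hq hg b)
  have hF1 : ContDiffAt ℝ 1 F z₀ := (hF' z₀ hzV).of_le (by norm_cast)
  obtain ⟨C₁, hC₁, hb₁⟩ := exists_bound_of_vanish hF1 hFz (hFs z₀ hzV) (hKs 1 z₀ hz₀W) (hK0 1)
  obtain ⟨C₂, hC₂, hb₂⟩ := exists_bound_of_vanish hF1 hFz (hFs z₀ hzV)
    (hKs Complex.I z₀ hz₀W) (hK0 Complex.I)
  have hb₃ : ∀ᶠ z in 𝓝 z₀, ‖fderiv ℝ F z‖ < ‖fderiv ℝ F z₀‖ + 1 := by
    have h1 : ContinuousAt (fderiv ℝ F) z₀ :=
      ((hF' z₀ hzV).fderiv_right (m := ∞) (by simp)).continuousAt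
    exact h1.norm.tendsto.eventually (gt_mem_nhds (by linarith))
  have hb₄ : ∀ᶠ z in 𝓝 z₀, ‖fderiv ℝ w z‖ < ‖fderiv ℝ w z₀‖ + 1 := by
    have h1 : ContinuousAt (fderiv ℝ w) z₀ :=
      (hw.fderiv_right (m := 1) (by norm_num)).continuousAt
    exact h1.norm.tendsto.eventually (gt_mem_nhds (by linarith))
  set C₃ := ‖fderiv ℝ F z₀‖ + 1 with hC₃
  set C₄ := ‖fderiv ℝ w z₀‖ + 1 with hC₄
  have hC₃0 : 0 ≤ C₃ := by positivity
  have hC₄0 : 0 ≤ C₄ := by positivity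
  have hWe : ∀ᶠ z in 𝓝 z₀, z ∈ W := hWo.mem_nhds hz₀W
  obtain ⟨ρ, hρ, hball⟩ := Metric.eventually_nhds_iff_ball.mp
    (hWe.and (hb₁.and (hb₂.and (hb₃.and hb₄))))
  refine ⟨v₀, hv₀0, ?_⟩
  have hsmall : ∀ᶠ s in 𝓝 (0 : ℂ), ‖s‖ < 1 ∧ ‖s‖ * ‖v₀‖ < ρ := by
    have h1 : Tendsto (fun s : ℂ => ‖s‖) (𝓝 0) (𝓝 ‖(0 : ℂ)‖) := continuous_norm.tendsto 0
    rw [norm_zero] at h1
    have h2 := h1.mul_const ‖v₀‖
    rw [zero_mul] at h2
    exact (h1.eventually (gt_mem_nhds one_pos)).and (h2.eventually (gt_mem_nhds hρ))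
  filter_upwards [hsmall] with s hs
  let φ : ℝ → (Fin 3 → ℂ) := fun t => z₀ + t • s • v₀
  have hφd : ∀ t, HasDerivAt φ (s • v₀) t := by
    intro t
    have := ((hasDerivAt_id t).smul_const (s • v₀)).const_add z₀
    simpa [φ] using this
  have hφb : ∀ t ∈ Set.Icc (0 : ℝ) 1, φ t ∈ Metric.ball z₀ ρ := by
    intro t ht
    rw [Metric.mem_ball, dist_eq_norm]
    have h1 : φ t - z₀ = t • s • v₀ := by simp [φ]
    rw [h1, norm_smul, norm_smul, Real.norm_of_nonneg ht.1]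
    calc t * (‖s‖ * ‖v₀‖) ≤ 1 * (‖s‖ * ‖v₀‖) := by
          apply mul_le_mul_of_nonneg_right ht.2 (by positivity)
      _ < ρ := by rw [one_mul]; exact hs.2
  let y : ℝ → ℂ × (Fin 3 → ℂ) := fun t => (F (φ t), w (φ t) - v₀)
  let y' : ℝ → ℂ × (Fin 3 → ℂ) := fun t =>
    (fderiv ℝ F (φ t) (s • v₀), fderiv ℝ w (φ t) (s • v₀))
  have hyd : ∀ t ∈ Set.Icc (0 : ℝ) 1, HasDerivAt y (y' t) t := by
    intro t ht
    have hin := (hball _ (hφb t ht)).1
    have h1 : HasFDerivAt F (fderiv ℝ F (φ t)) (φ t) :=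
      ((hF' _ (hW _ hin).1).differentiableAt (by simp)).hasFDerivAt
    have h2 : HasFDerivAt w (fderiv ℝ w (φ t)) (φ t) :=
      ((hW _ hin).2.1.differentiableAt (by norm_num)).hasFDerivAt
    have h3 := h1.comp_hasDerivAt t (hφd t)
    have h4 := (h2.comp_hasDerivAt t (hφd t)).sub_const v₀
    exact h3.prodMk h4
  have hy0 : y 0 = 0 := by
    have h1 : φ 0 = z₀ := by simp [φ]
    show (F (φ 0), w (φ 0) - v₀) = 0
    rw [h1, hFz, hwz, sub_self]
    rfl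
  set K := C₃ + C₁ + C₂ + C₄ with hK
  have hbound : ∀ t ∈ Set.Ico (0 : ℝ) 1, ‖y' t‖ ≤ K * ‖y t‖ := by
    intro t ht
    obtain ⟨hin, k₁, k₂, k₃, k₄⟩ := hball _ (hφb t ⟨ht.1, ht.2.le⟩)
    set x := φ t with hx
    have hy1 : ‖F x‖ ≤ ‖y t‖ := le_max_left _ _
    have hy2 : ‖w x - v₀‖ ≤ ‖y t‖ := le_max_right _ _
    have hs1 : ‖s‖ ≤ 1 := hs.1.le
    have hsplit : s • v₀ = s • w x - s • (w x - v₀) := by rw [smul_sub]; abel
    have hn0 : ‖s • (w x - v₀)‖ ≤ ‖y t‖ := by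
      rw [norm_smul]
      calc ‖s‖ * ‖w x - v₀‖ ≤ 1 * ‖y t‖ :=
            mul_le_mul hs1 hy2 (norm_nonneg _) zero_le_one
        _ = ‖y t‖ := one_mul _
    have hyt : 0 ≤ ‖y t‖ := norm_nonneg _
    refine max_le ?_ ?_
    · show ‖fderiv ℝ F x (s • v₀)‖ ≤ _
      rw [hsplit, map_sub, hker x hin, zero_sub, norm_neg]
      calc ‖fderiv ℝ F x (s • (w x - v₀))‖ ≤ ‖fderiv ℝ F x‖ * ‖s • (w x - v₀)‖ :=
            ContinuousLinearMap.le_opNorm _ _
        _ ≤ C₃ * ‖y t‖ := mul_le_mul k₃.le hn0 (norm_nonneg _) hC₃0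
        _ ≤ K * ‖y t‖ := by
            apply mul_le_mul_of_nonneg_right _ hyt
            rw [hK]; linarith
    · show ‖fderiv ℝ w x (s • v₀)‖ ≤ _
      rw [hsplit, map_sub, complex_smul_decomp]
      have e1 : ‖s.re • fderiv ℝ w x (w x)‖ ≤ C₁ * ‖y t‖ := by
        rw [norm_smul]
        rw [one_smul] at k₁
        calc ‖s.re‖ * ‖fderiv ℝ w x (w x)‖ ≤ 1 * (C₁ * ‖F x‖) := by
              refine mul_le_mul ?_ k₁ (norm_nonneg _) zero_le_one
              exact (Complex.abs_re_le_norm s).trans hs1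
          _ ≤ C₁ * ‖y t‖ := by
              rw [one_mul]
              exact mul_le_mul_of_nonneg_left hy1 hC₁
      have e2 : ‖s.im • fderiv ℝ w x (Complex.I • w x)‖ ≤ C₂ * ‖y t‖ := by
        rw [norm_smul]
        calc ‖s.im‖ * ‖fderiv ℝ w x (Complex.I • w x)‖ ≤ 1 * (C₂ * ‖F x‖) := by
              refine mul_le_mul ?_ k₂ (norm_nonneg _) zero_le_one
              exact (Complex.abs_im_le_norm s).trans hs1
          _ ≤ C₂ * ‖y t‖ := by
              rw [one_mul]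
              exact mul_le_mul_of_nonneg_left hy1 hC₂
      have e3 : ‖fderiv ℝ w x (s • (w x - v₀))‖ ≤ C₄ * ‖y t‖ :=
        calc ‖fderiv ℝ w x (s • (w x - v₀))‖ ≤ ‖fderiv ℝ w x‖ * ‖s • (w x - v₀)‖ :=
              ContinuousLinearMap.le_opNorm _ _
          _ ≤ C₄ * ‖y t‖ := mul_le_mul k₄.le hn0 (norm_nonneg _) hC₄0
      calc _ ≤ ‖s.re • fderiv ℝ w x (w x) + s.im • fderiv ℝ w x (Complex.I • w x)‖ +
            ‖fderiv ℝ w x (s • (w x - v₀))‖ := norm_sub_le _ _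
        _ ≤ (‖s.re • fderiv ℝ w x (w x)‖ + ‖s.im • fderiv ℝ w x (Complex.I • w x)‖) +
            ‖fderiv ℝ w x (s • (w x - v₀))‖ := by gcongr; exact norm_add_le _ _
        _ ≤ (C₁ * ‖y t‖ + C₂ * ‖y t‖) + C₄ * ‖y t‖ := by gcongr
        _ = (C₁ + C₂ + C₄) * ‖y t‖ := by ring
        _ ≤ K * ‖y t‖ := by
            apply mul_le_mul_of_nonneg_right _ hyt
            rw [hK]; linarith
  have hzero := eq_zero_of_abs_deriv_le_mul_abs_self_of_eq_zero_right (f := y) (f' := y')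
    (K := K) (a := 0) (b := 1)
    (fun t ht => (hyd t ht).continuousAt.continuousWithinAt)
    (fun t ht => (hyd t ⟨ht.1, ht.2.le⟩).hasDerivWithinAt) hy0 hbound 1 ⟨zero_le_one, le_refl 1⟩
  have hF1' : F (φ 1) = 0 := congrArg Prod.fst hzero
  have hin := (hball _ (hφb 1 ⟨zero_le_one, le_refl 1⟩)).1
  have e : φ 1 = z₀ + s • v₀ := by simp [φ]
  rw [e] at hF1' hin
  exact (hFM _ (hW _ hin).1).mpr hF1'

end Pool.Agent.Lib.P17cb1b
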